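import Mathlib
import Pool.Agent.Results.MP_b9a716_gt.MooreLSpace

/-!
# A dense Aronszajn line from coherent finite-to-one functions
-/

set_option autoImplicit false
set_option linter.deprecated false

namespace Pool.Agent.R359.ALine

open Set
open Pool.Agent.Results.MP_b9a716_gt.MooreLSpace

variable {W : Type} [LinearOrder W] [OrderBot W] [WellFoundedLT W] [Om W]

/-- `t` is a node of length `α`: an integer valued function on `{ξ < α}` (extended by `⊥`) which
differs from `e · α` only finitely often. -/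
def IsNode (t : W → WithBot ℤ) (α : W) : Prop :=
  (∀ ξ, α ≤ ξ → t ξ = ⊥) ∧ (∀ ξ, ξ < α → t ξ ≠ ⊥) ∧
    {ξ | ξ < α ∧ t ξ ≠ (((e ξ α : ℕ) : ℤ) : WithBot ℤ)}.Finite

variable (W) in
/-- The line: all nodes with the lexicographic order. -/
def AT : Type := {t : Lex (W → WithBot ℤ) // ∃ α, IsNode (ofLex t) α}

noncomputable instance : LinearOrder (AT W) := by unfold AT; infer_instance

/-- underlying function -/
def fn (x : AT W) : W → WithBot ℤ := ofLex x.1

/-- length -/
noncomputable def len (x : AT W) : W := Classical.choose x.2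

theorem node (x : AT W) : IsNode (fn x) (len x) := Classical.choose_spec x.2

theorem ext' {x y : AT W} (h : fn x = fn y) : x = y := Subtype.ext h

theorem lt_iff {x y : AT W} : x < y ↔ ∃ ξ, (∀ η, η < ξ → fn x η = fn y η) ∧ fn x ξ < fn y ξ :=
  Iff.rfl

theorem lt_len {x : AT W} {ξ : W} : ξ < len x ↔ fn x ξ ≠ ⊥ := by
  constructor
  · exact (node x).2.1 ξ
  · intro h
    by_contra hcon
    exact h ((node x).1 ξ (not_lt.1 hcon))

theorem len_unique {x : AT W} {α : W} (h : IsNode (fn x) α) : len x = α := by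
  apply le_antisymm
  · by_contra hcon
    exact (node x).2.1 α (not_le.1 hcon) (h.1 α le_rfl)
  · by_contra hcon
    exact h.2.1 _ (not_le.1 hcon) ((node x).1 _ le_rfl)

def mkA (t : W → WithBot ℤ) (α : W) (h : IsNode t α) : AT W := ⟨toLex t, α, h⟩

theorem fn_mkA (t : W → WithBot ℤ) (α : W) (h : IsNode t α) : fn (mkA t α h) = t := rfl

theorem len_mkA (t : W → WithBot ℤ) (α : W) (h : IsNode t α) : len (mkA t α h) = α :=
  len_unique h

theorem exists_succ (α : W) : ∃ α' : W, α < α' ∧ ∀ ξ, ξ < α' → ξ ≤ α := by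
  obtain ⟨b, hb⟩ := Om.bdd ({α} : Set W) (Set.countable_singleton α)
  have hne : (Set.Ioi α).Nonempty := ⟨b, hb α rfl⟩
  refine ⟨WellFounded.min wellFounded_lt (Set.Ioi α) hne, WellFounded.min_mem _ _ _, ?_⟩
  intro ξ hξ
  by_contra hcon
  exact WellFounded.not_lt_min wellFounded_lt (Set.Ioi α) (not_le.1 hcon) hξ

/-- the one point extension -/
theorem exists_ext (x : AT W) (k : ℤ) : ∃ y : AT W, (∀ ξ, ξ < len x → fn y ξ = fn x ξ) ∧
    fn y (len x) = k ∧ (∀ ξ, len x < ξ → fn y ξ = ⊥) := by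
  classical
  obtain ⟨α', h1, h2⟩ := exists_succ (len x)
  have hx := node x
  have hnode : IsNode (Function.update (fn x) (len x) (k : WithBot ℤ)) α' := by
    refine ⟨?_, ?_, ?_⟩
    · intro ξ hξ
      rw [Function.update_of_ne (h1.trans_le hξ).ne']
      exact hx.1 ξ (h1.trans_le hξ).le
    · intro ξ hξ
      rcases (h2 ξ hξ).lt_or_eq with h | h
      · rw [Function.update_of_ne h.ne]
        exact hx.2.1 ξ h
      · rw [h, Function.update_self]
        exact WithBot.coe_ne_bot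
    · refine ((hx.2.2.union (E2' (len x) (len x) α' le_rfl h1.le)).union
        (Set.finite_singleton (len x))).subset ?_
      rintro ξ ⟨h3, h4⟩
      rcases (h2 ξ h3).lt_or_eq with h | h
      · rw [Function.update_of_ne h.ne] at h4
        left
        by_cases h5 : e ξ (len x) = e ξ α'
        · left
          refine ⟨h, ?_⟩
          rw [h5]
          exact h4
        · right
          exact ⟨h, h5⟩
      · right; exact h
  refine ⟨mkA _ α' hnode, ?_, ?_, ?_⟩
  · intro ξ hξ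
    rw [fn_mkA, Function.update_of_ne hξ.ne]
  · rw [fn_mkA, Function.update_self]
  · intro ξ hξ
    rw [fn_mkA, Function.update_of_ne hξ.ne']
    exact hx.1 ξ hξ.le

noncomputable def ex (x : AT W) (k : ℤ) : AT W := Classical.choose (exists_ext x k)

theorem ex_lt {x : AT W} {k : ℤ} {ξ : W} (h : ξ < len x) : fn (ex x k) ξ = fn x ξ :=
  (Classical.choose_spec (exists_ext x k)).1 ξ h

theorem ex_len (x : AT W) (k : ℤ) : fn (ex x k) (len x) = k :=
  (Classical.choose_spec (exists_ext x k)).2.1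

theorem ex_gt {x : AT W} {k : ℤ} {ξ : W} (h : len x < ξ) : fn (ex x k) ξ = ⊥ :=
  (Classical.choose_spec (exists_ext x k)).2.2 ξ h

theorem fn_len (x : AT W) : fn x (len x) = ⊥ := (node x).1 _ le_rfl

theorem lt_ex (x : AT W) (k : ℤ) : x < ex x k := by
  rw [lt_iff]
  refine ⟨len x, fun η hη => (ex_lt hη).symm, ?_⟩
  rw [fn_len, ex_len]
  exact WithBot.bot_lt_coe k

instance : DenselyOrdered (AT W) := by
  refine ⟨fun x y hxy => ?_⟩
  obtain ⟨ξ, h1, h2⟩ := lt_iff.1 hxy
  by_cases hx : fn x ξ = ⊥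
  · have hy : fn y ξ ≠ ⊥ := by
      intro h
      rw [hx, h] at h2
      exact lt_irrefl _ h2
    have hξy : ξ < len y := lt_len.2 hy
    have hlen : len x = ξ := by
      apply le_antisymm
      · by_contra hcon
        exact (lt_len.1 (not_le.1 hcon)) hx
      · by_contra hcon
        have h3 := h1 _ (not_le.1 hcon)
        rw [fn_len] at h3
        exact lt_len.1 ((not_le.1 hcon).trans hξy) h3.symm
    obtain ⟨k, hk⟩ := WithBot.ne_bot_iff_exists.1 hy
    refine ⟨ex x (k - 1), lt_ex x _, ?_⟩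
    rw [lt_iff]
    refine ⟨ξ, fun η hη => ?_, ?_⟩
    · rw [ex_lt (hlen ▸ hη)]
      exact h1 η hη
    · have : fn (ex x (k - 1)) ξ = ((k - 1 : ℤ) : WithBot ℤ) := by
        rw [← hlen]; exact ex_len x (k - 1)
      rw [this, ← hk]
      exact WithBot.coe_lt_coe.2 (by omega)
  · have hξ : ξ < len x := lt_len.2 hx
    refine ⟨ex x 0, lt_ex x _, ?_⟩
    rw [lt_iff]
    refine ⟨ξ, fun η hη => ?_, ?_⟩
    · rw [ex_lt (hη.trans hξ)]
      exact h1 η hη
    · rw [ex_lt hξ]; exact h2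

/-! ### Levels -/

open Classical in
/-- restriction -/
noncomputable def res (x : AT W) (β : W) : W → WithBot ℤ := fun ξ => if ξ < β then fn x ξ else ⊥

theorem res_of_lt {x : AT W} {β ξ : W} (h : ξ < β) : res x β ξ = fn x ξ := by
  unfold res; rw [if_pos h]

theorem res_eq_iff {x y : AT W} {β : W} : res x β = res y β ↔ ∀ ξ, ξ < β → fn x ξ = fn y ξ := by
  constructor
  · intro h ξ hξ
    rw [← res_of_lt hξ, h, res_of_lt hξ]
  · intro h
    ext1 ξ
    unfold res
    split_ifs with hξ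
    · exact h ξ hξ
    · rfl

theorem res_mono {x y : AT W} {α β : W} (h : α ≤ β) (hr : res x β = res y β) :
    res x α = res y α :=
  res_eq_iff.2 fun ξ hξ => res_eq_iff.1 hr ξ (hξ.trans_le h)

theorem countable_level (β : W) : {f | ∃ x : AT W, β ≤ len x ∧ f = res x β}.Countable := by
  classical
  have hc : Countable (Set.Iio β) := (Om.countable_Iio β).to_subtype
  have h1 : {l : List (W × ℤ) | ∀ p ∈ l, p ∈ (Set.Iio β) ×ˢ (Set.univ : Set ℤ)}.Countable :=
    countable_lists ((Om.countable_Iio β).prod (Set.to_countable _))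
  refine (h1.image (fun l ξ => if ξ < β then
    (((l.lookup ξ).getD ((e ξ β : ℕ) : ℤ) : ℤ) : WithBot ℤ) else ⊥)).mono ?_
  rintro f ⟨x, hx, rfl⟩
  have hfin : {ξ | ξ < β ∧ fn x ξ ≠ (((e ξ β : ℕ) : ℤ) : WithBot ℤ)}.Finite := by
    refine ((node x).2.2.union (E2' β β (len x) le_rfl hx)).subset ?_
    rintro ξ ⟨h2, h3⟩
    by_cases h4 : e ξ β = e ξ (len x)
    · left
      refine ⟨h2.trans_le hx, ?_⟩
      rw [← h4]; exact h3
    · right
      exact ⟨h2, h4⟩
  have hv : ∀ ξ, ξ < β → ∃ k : ℤ, fn x ξ = k := by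
    intro ξ hξ
    obtain ⟨k, hk⟩ := WithBot.ne_bot_iff_exists.1 (lt_len.1 (hξ.trans_le hx))
    exact ⟨k, hk.symm⟩
  choose! v hv using hv
  refine ⟨hfin.toFinset.toList.map fun ξ => (ξ, v ξ), ?_, ?_⟩
  · intro p hp
    obtain ⟨ξ, hξ, rfl⟩ := List.mem_map.1 hp
    rw [Finset.mem_toList, Set.Finite.mem_toFinset] at hξ
    exact ⟨hξ.1, trivial⟩
  · ext1 ξ
    show (if ξ < β then _ else _) = res x β ξ
    unfold res
    split_ifs with hξ
    · rw [hv ξ hξ]
      congr 1
      by_cases hmem : ξ ∈ hfin.toFinset.toList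
      · have : ∀ l : List W, ξ ∈ l → (l.map fun ξ => (ξ, v ξ)).lookup ξ = some (v ξ) := by
          intro l
          induction l with
          | nil => simp
          | cons a l ih =>
            intro h
            rw [List.map_cons, List.lookup_cons]
            by_cases haξ : ξ = a
            · subst haξ
              simp
            · have : (ξ == a) = false := by simpa using haξ
              rw [this]
              exact ih ((List.mem_cons.1 h).resolve_left haξ)
        rw [this _ hmem]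
        rfl
      · have : ∀ l : List W, ξ ∉ l → (l.map fun ξ => (ξ, v ξ)).lookup ξ = none := by
          intro l
          induction l with
          | nil => simp
          | cons a l ih =>
            intro h
            rw [List.mem_cons, not_or] at h
            rw [List.map_cons, List.lookup_cons]
            have : (ξ == a) = false := by simpa using h.1
            rw [this]
            exact ih h.2
        rw [this _ hmem]
        rw [Finset.mem_toList, Set.Finite.mem_toFinset] at hmem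
        have h5 : fn x ξ = (((e ξ β : ℕ) : ℤ) : WithBot ℤ) := by
          by_contra hcon
          exact hmem ⟨hξ, hcon⟩
        rw [hv ξ hξ] at h5
        exact (WithBot.coe_injective h5).symm
    · rfl

theorem countable_short (β : W) : {x : AT W | len x < β}.Countable := by
  have h1 : ∀ γ : W, {x : AT W | len x = γ}.Countable := by
    intro γ
    refine Set.MapsTo.countable_of_injOn (f := fun x : AT W => fn x)
      (t := {f | ∃ x : AT W, γ ≤ len x ∧ f = res x γ}) ?_ ?_ (countable_level γ)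
    · intro x hx
      have hx' : len x = γ := hx
      refine ⟨x, hx'.ge, ?_⟩
      ext1 ξ
      unfold res
      split_ifs with h
      · rfl
      · exact (node x).1 ξ (hx' ▸ not_lt.1 h)
    · intro x _ y _ h
      exact ext' h
  refine ((Om.countable_Iio β).biUnion (t := fun γ _ => {x : AT W | len x = γ})
    fun γ _ => h1 γ).mono ?_
  intro x hx
  exact Set.mem_iUnion₂.2 ⟨len x, hx, rfl⟩

/-! ### No uncountable branch -/

theorem not_countable_univ : ¬ (Set.univ : Set W).Countable := by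
  intro h
  obtain ⟨b, hb⟩ := Om.bdd (Set.univ : Set W) h
  exact lt_irrefl _ (hb b trivial)

theorem no_branch (u : W → AT W) (Λ : Set W) (hΛ : ∀ g, ∃ α ∈ Λ, g < α)
    (hlen : ∀ α ∈ Λ, α ≤ len (u α))
    (hcomp : ∀ α ∈ Λ, ∀ β ∈ Λ, α < β → ∀ ξ, ξ < α → fn (u α) ξ = fn (u β) ξ) : False := by
  choose a haΛ ha using hΛ
  have hb : ∀ α ∈ Λ, ∀ ξ, ξ < α → fn (u (a ξ)) ξ = fn (u α) ξ := by
    intro α hα ξ hξ
    rcases lt_trichotomy (a ξ) α with h | h | h
    · exact hcomp _ (haΛ ξ) _ hα h ξ (ha ξ)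
    · rw [h]
    · exact (hcomp _ hα _ (haΛ ξ) h ξ hξ).symm
  have hfin : ∀ k : ℕ, {ξ | fn (u (a ξ)) ξ ≤ ((k : ℤ) : WithBot ℤ)}.Finite := by
    intro k
    by_contra hinf
    have hinf : {ξ | fn (u (a ξ)) ξ ≤ ((k : ℤ) : WithBot ℤ)}.Infinite := hinf
    let g : ℕ → W := fun n => (hinf.natEmbedding _ n : W)
    have hg : Function.Injective g := fun m n h =>
      (hinf.natEmbedding _).injective (Subtype.ext h)
    have hgm : ∀ n, fn (u (a (g n))) (g n) ≤ ((k : ℤ) : WithBot ℤ) := fun n =>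
      (hinf.natEmbedding _ n).2
    obtain ⟨b, hb'⟩ := bdd_range g
    have hα := haΛ b
    have hbα := ha b
    set α := a b with hαdef
    have hf : {ξ | ξ < α ∧ fn (u α) ξ ≤ ((k : ℤ) : WithBot ℤ)}.Finite := by
      refine ((node (u α)).2.2.union (E1 k (len (u α)))).subset ?_
      rintro ξ ⟨h1, h2⟩
      by_cases h3 : fn (u α) ξ = (((e ξ (len (u α)) : ℕ) : ℤ) : WithBot ℤ)
      · right
        refine ⟨h1.trans_le (hlen α hα), ?_⟩
        rw [h3] at h2
        have := WithBot.coe_le_coe.1 h2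
        exact_mod_cast this
      · left
        exact ⟨h1.trans_le (hlen α hα), h3⟩
    apply Set.infinite_range_of_injective hg
    refine hf.subset ?_
    rintro _ ⟨n, rfl⟩
    have h1 : g n < α := (hb' n).trans hbα
    refine ⟨h1, ?_⟩
    rw [← hb α hα _ h1]
    exact hgm n
  have : (Set.univ : Set W) ⊆ ⋃ k : ℕ, {ξ | fn (u (a ξ)) ξ ≤ ((k : ℤ) : WithBot ℤ)} := by
    intro ξ _
    have h1 : ξ < len (u (a ξ)) := (ha ξ).trans_le (hlen _ (haΛ ξ))
    obtain ⟨v, hv⟩ := WithBot.ne_bot_iff_exists.1 (lt_len.1 h1)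
    refine Set.mem_iUnion.2 ⟨v.toNat, ?_⟩
    show fn (u (a ξ)) ξ ≤ _
    rw [← hv]
    exact WithBot.coe_le_coe.2 (Int.self_le_toNat v)
  exact not_countable_univ ((Set.countable_iUnion fun k => (hfin k).countable).mono this)

theorem exists_big (Y : Set (AT W)) (hY : ¬ Y.Countable) (α : W) : ∃ x ∈ Y, α ≤ len x ∧
    ¬ {z | z ∈ Y ∧ α ≤ len z ∧ res z α = res x α}.Countable := by
  by_contra hcon
  push Not at hcon
  apply hY
  have h1 : Y ⊆ {x : AT W | len x < α} ∪
      ⋃ f ∈ {f | ∃ x : AT W, α ≤ len x ∧ f = res x α}, {z | z ∈ Y ∧ α ≤ len z ∧ res z α = f} := by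
    intro x hx
    by_cases h : len x < α
    · exact Or.inl h
    · exact Or.inr (Set.mem_iUnion₂.2 ⟨res x α, ⟨x, not_lt.1 h, rfl⟩, hx, not_lt.1 h, rfl⟩)
  refine Set.Countable.mono h1 ((countable_short α).union ((countable_level α).biUnion ?_))
  intro f _
  by_cases hne : {z | z ∈ Y ∧ α ≤ len z ∧ res z α = f}.Nonempty
  · obtain ⟨x, hx1, hx2, hx3⟩ := hne
    rw [← hx3]
    exact hcon x hx1 hx2
  · rw [Set.not_nonempty_iff_eq_empty.1 hne]
    exact Set.countable_empty

theorem split (Y : Set (AT W)) (hY : ¬ Y.Countable) : ∃ α : W, ∃ x ∈ Y, ∃ y ∈ Y,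
    α ≤ len x ∧ α ≤ len y ∧ res x α ≠ res y α ∧
    ¬ {z | z ∈ Y ∧ α ≤ len z ∧ res z α = res x α}.Countable ∧
    ¬ {z | z ∈ Y ∧ α ≤ len z ∧ res z α = res y α}.Countable := by
  by_contra hcon
  push Not at hcon
  choose x hxY hxlen hx using fun α => exists_big Y hY α
  refine no_branch x Set.univ (fun g => ?_) (fun α _ => hxlen α) ?_
  · obtain ⟨α, hα, -⟩ := exists_succ g
    exact ⟨α, trivial, hα⟩
  · intro α _ β _ hαβ
    rw [← res_eq_iff]
    by_contra hne
    have h1 := hcon α (x α) (hxY α) (x β) (hxY β) (hxlen α) (hαβ.le.trans (hxlen β)) hne (hx α)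
    apply hx β
    refine h1.mono ?_
    rintro z ⟨h2, h3, h4⟩
    exact ⟨h2, hαβ.le.trans h3, res_mono hαβ.le h4⟩

theorem lt_congr {x x' y y' : AT W} {α : W} (hx : res x' α = res x α) (hy : res y' α = res y α)
    (hne : res x α ≠ res y α) (h : x < y) : x' < y' := by
  obtain ⟨ξ, h1, h2⟩ := lt_iff.1 h
  have hξ : ξ < α := by
    by_contra hcon
    apply hne
    rw [res_eq_iff]
    intro η hη
    exact h1 η (hη.trans_le (not_lt.1 hcon))
  rw [res_eq_iff] at hx hy
  rw [lt_iff]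
  refine ⟨ξ, fun η hη => ?_, ?_⟩
  · rw [hx η (hη.trans hξ), hy η (hη.trans hξ)]
    exact h1 η hη
  · rw [hx ξ hξ, hy ξ hξ]
    exact h2

theorem split_lt (Y : Set (AT W)) (hY : ¬ Y.Countable) :
    (∃ y ∈ Y, ¬ {z | z ∈ Y ∧ z < y}.Countable) ∧ (∃ y ∈ Y, ¬ {z | z ∈ Y ∧ y < z}.Countable) := by
  have key : ∀ (α : W) (x y : AT W), x ∈ Y → y ∈ Y → res x α ≠ res y α →
      ¬ {z | z ∈ Y ∧ α ≤ len z ∧ res z α = res x α}.Countable →
      ¬ {z | z ∈ Y ∧ α ≤ len z ∧ res z α = res y α}.Countable → x < y →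
      (∃ y ∈ Y, ¬ {z | z ∈ Y ∧ z < y}.Countable) ∧
        (∃ y ∈ Y, ¬ {z | z ∈ Y ∧ y < z}.Countable) := by
    intro α x y hx hy hne h3 h4 h
    refine ⟨⟨y, hy, fun hc => h3 (hc.mono ?_)⟩, ⟨x, hx, fun hc => h4 (hc.mono ?_)⟩⟩
    · rintro z ⟨h5, -, h6⟩
      exact ⟨h5, lt_congr h6 rfl hne h⟩
    · rintro z ⟨h5, -, h6⟩
      exact ⟨h5, lt_congr rfl h6 hne h⟩
  obtain ⟨α, x, hx, y, hy, -, -, hne, h3, h4⟩ := split Y hY
  rcases lt_trichotomy x y with h | h | h
  · exact key α x y hx hy hne h3 h4 h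
  · exact absurd (by rw [h]) hne
  · exact key α y x hy hx (Ne.symm hne) h4 h3 h

theorem real_type (Y : Set (AT W)) (f : Y → ℝ) (hf : StrictMono f) : Y.Countable := by
  by_contra hY
  have h1 : ∀ α : W, ∃ (y y' : Y) (q : ℚ), α ≤ len y.1 ∧ α ≤ len y'.1 ∧
      res y.1 α = res y'.1 α ∧ f y < q ∧ (q : ℝ) < f y' := by
    intro α
    obtain ⟨x, hx, -, hc⟩ := exists_big Y hY α
    have hnt : ¬ {z | z ∈ Y ∧ α ≤ len z ∧ res z α = res x α}.Subsingleton := fun h =>
      hc h.finite.countable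
    rw [Set.not_subsingleton_iff] at hnt
    obtain ⟨y, ⟨hy1, hy2, hy3⟩, y', ⟨hy1', hy2', hy3'⟩, hne⟩ := hnt
    rcases lt_or_gt_of_ne hne with h | h
    · obtain ⟨q, hq1, hq2⟩ := exists_rat_btwn (hf (show (⟨y, hy1⟩ : Y) < ⟨y', hy1'⟩ from h))
      exact ⟨⟨y, hy1⟩, ⟨y', hy1'⟩, q, hy2, hy2', hy3.trans hy3'.symm, hq1, hq2⟩
    · obtain ⟨q, hq1, hq2⟩ := exists_rat_btwn (hf (show (⟨y', hy1'⟩ : Y) < ⟨y, hy1⟩ from h))
      exact ⟨⟨y', hy1'⟩, ⟨y, hy1⟩, q, hy2', hy2, hy3'.trans hy3.symm, hq1, hq2⟩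
  choose y y' q h2 h3 h4 h5 h6 using h1
  -- one rational number unboundedly often
  obtain ⟨q₀, hq₀⟩ : ∃ q₀ : ℚ, ∀ g : W, ∃ α ∈ {α | q α = q₀}, g < α := by
    by_contra hcon
    push Not at hcon
    choose g hg using hcon
    obtain ⟨b, hb⟩ := bdd_range g
    obtain ⟨b', hb', -⟩ := exists_succ b
    exact absurd (hg (q b) b rfl) (not_le.2 (hb (q b)))
  refine no_branch (fun α => (y α).1) {α | q α = q₀} hq₀ (fun α _ => h2 α) ?_
  intro α hα β hβ hαβ
  rw [← res_eq_iff]
  by_contra hne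
  have hα' : q α = q₀ := hα
  have hβ' : q β = q₀ := hβ
  have e1 : f (y α) < f (y' β) := by
    have a1 := h5 α
    have a2 := h6 β
    rw [hα'] at a1
    rw [hβ'] at a2
    exact a1.trans a2
  have e2 : f (y β) < f (y' α) := by
    have a1 := h5 β
    have a2 := h6 α
    rw [hβ'] at a1
    rw [hα'] at a2
    exact a1.trans a2
  rcases lt_trichotomy (y α).1 (y β).1 with h | h | h
  · have h7 : (y' α).1 < (y β).1 := lt_congr (h4 α).symm rfl hne h
    exact absurd (hf (show y' α < y β from h7)) (not_lt.2 e2.le)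
  · exact hne (by rw [h])
  · have h7 : (y' β).1 < (y α).1 :=
      lt_congr (res_mono hαβ.le (h4 β).symm) rfl (Ne.symm hne) h
    exact absurd (hf (show y' β < y α from h7)) (not_lt.2 e1.le)

theorem uncountable_AT : ¬ (Set.univ : Set (AT W)).Countable := by
  classical
  intro h
  have hnode : ∀ α : W, IsNode (fun ξ => if ξ < α then (((e ξ α : ℕ) : ℤ) : WithBot ℤ) else ⊥) α := by
    intro α
    refine ⟨fun ξ hξ => if_neg (not_lt.2 hξ), fun ξ hξ => ?_, ?_⟩
    · show (if ξ < α then (((e ξ α : ℕ) : ℤ) : WithBot ℤ) else ⊥) ≠ ⊥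
      rw [if_pos hξ]; exact WithBot.coe_ne_bot
    · convert Set.finite_empty (α := W)
      ext ξ
      simp only [Set.mem_ofPred_eq, Set.mem_empty_iff_false, iff_false, not_and, not_not]
      intro hξ
      rw [if_pos hξ]
  apply not_countable_univ (W := W)
  refine Set.MapsTo.countable_of_injOn (f := fun α => mkA _ α (hnode α)) (t := Set.univ)
    (fun _ _ => trivial) ?_ h
  intro α _ β _ hαβ
  have := congrArg len hαβ
  simpa only [len_mkA] using this

/-! ### The game -/

/-- elements between `a` and `a^0` extend `a` by a negative value -/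
theorem between {a x : AT W} (h1 : a < x) (h2 : x < ex a 0) :
    (∀ ξ, ξ < len a → fn x ξ = fn a ξ) ∧ ∃ r : ℤ, r < 0 ∧ fn x (len a) = r := by
  obtain ⟨ξ, h3, h4⟩ := lt_iff.1 h1
  have hξ : len a ≤ ξ := by
    by_contra hcon
    have hcon := not_le.1 hcon
    have : ex a 0 < x := by
      rw [lt_iff]
      refine ⟨ξ, fun η hη => ?_, ?_⟩
      · rw [ex_lt (hη.trans hcon)]; exact h3 η hη
      · rw [ex_lt hcon]; exact h4
    exact lt_asymm h2 this
  have hag : ∀ ξ, ξ < len a → fn x ξ = fn a ξ := fun η hη => (h3 η (hη.trans_le hξ)).symm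
  refine ⟨hag, ?_⟩
  have hne : fn x (len a) ≠ ⊥ := by
    intro hbot
    have hlen : len x ≤ len a := by
      by_contra hcon
      exact lt_len.1 (not_le.1 hcon) hbot
    have : fn x ξ = ⊥ := (node x).1 ξ (hlen.trans hξ)
    rw [this] at h4
    exact not_lt_bot h4
  obtain ⟨r, hr⟩ := WithBot.ne_bot_iff_exists.1 hne
  refine ⟨r, ?_, hr.symm⟩
  by_contra hr0
  have hr0 := not_lt.1 hr0
  obtain ⟨ζ, h5, h6⟩ := lt_iff.1 h2
  rcases lt_trichotomy ζ (len a) with h | h | h
  · rw [ex_lt h, hag ζ h] at h6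
    exact lt_irrefl _ h6
  · rw [h, ex_len, ← hr] at h6
    have := WithBot.coe_lt_coe.1 h6
    omega
  · rw [ex_gt h] at h6
    exact not_lt_bot h6

end Pool.Agent.R359.ALine
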