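import Mathlib
import Pool.Agent.H33R2.ThmC2
import Pool.Agent.H33R2.T3
import Pool.Agent.H391R2.T4.Red

/-!
# Regular realizations over algebraically closed fields, and descent to number fields
-/

set_option autoImplicit false

namespace Pool.Agent.R359

open Polynomial
open Pool.Agent.H391R2.T4 (RegSol)
open H33 H33.T3

/-- Every finite group is a regular Galois group over `k(t)`, `k` algebraically closed of
characteristic zero. -/
theorem reg_closed (k : Type) [Field k] [CharZero k] [IsAlgClosed k] (G : Type) [Group G]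
    [Finite G] : RegSol k k G 1 := by
  classical
  have hne : Monoid.exponent G ≠ 0 := Monoid.exponent_ne_zero_of_finite
  obtain ⟨ζ, hζ⟩ : ∃ ζ : k, IsPrimitiveRoot ζ (Monoid.exponent G) := by
    have : NeZero ((Monoid.exponent G : ℕ) : k) := ⟨by exact_mod_cast hne⟩
    exact HasEnoughRootsOfUnity.exists_primitiveRoot k (Monoid.exponent G)
  have hα : Function.Surjective (1 : G →* (k ≃ₐ[k] k)) := by
    intro σ
    refine ⟨1, ?_⟩
    ext x
    rw [map_one]
    exact (σ.commutes x).symm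
  have hker : (1 : G →* (k ≃ₐ[k] k)).ker = ⊤ := by
    ext g
    simp
  have hcyc : IsCyclic (G ⧸ ((⊥ : Subgroup G) ⊔ (1 : G →* (k ≃ₐ[k] k)).ker)) := by
    have h1 : (⊥ : Subgroup G) ⊔ (1 : G →* (k ≃ₐ[k] k)).ker = ⊤ := by rw [hker]; simp
    have h2 : Subsingleton (G ⧸ ((⊥ : Subgroup G) ⊔ (1 : G →* (k ≃ₐ[k] k)).ker)) := by
      refine ⟨fun a b => ?_⟩
      induction a using QuotientGroup.induction_on with
      | H a =>
        induction b using QuotientGroup.induction_on with
        | H b =>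
          rw [QuotientGroup.eq, h1]
          trivial
    exact isCyclic_of_subsingleton
  exact thmC k k k G (ample_of_isAlgClosed k) hζ 1 hα ⊥ (bot_inf_eq _) hcyc

section lift

variable {Kb : Type} [Field Kb] [CharZero Kb] (K₀ : IntermediateField ℚ Kb)

theorem lift_poly (p : Kb[X]) (hp : ∀ c ∈ p.coeffs, c ∈ K₀) :
    ∃ p₀ : K₀[X], p₀.map (algebraMap K₀ Kb) = p := by
  rw [← Polynomial.mem_lifts, Polynomial.lifts_iff_coeff_lifts]
  intro n
  by_cases h : p.coeff n = 0
  · exact ⟨0, by rw [h, map_zero]⟩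
  · exact ⟨⟨p.coeff n, hp _ (Polynomial.coeff_mem_coeffs h)⟩, rfl⟩

theorem lift_rat (q : RatFunc Kb) (h1 : ∀ c ∈ q.num.coeffs, c ∈ K₀)
    (h2 : ∀ c ∈ q.denom.coeffs, c ∈ K₀) : ∃ q₀ : RatFunc K₀, rmap (algebraMap K₀ Kb) q₀ = q := by
  obtain ⟨a, ha⟩ := lift_poly K₀ _ h1
  obtain ⟨b, hb⟩ := lift_poly K₀ _ h2
  refine ⟨algebraMap _ _ a / algebraMap _ _ b, ?_⟩
  rw [map_div₀, rmap_alg, rmap_alg, ha, hb, RatFunc.num_div_denom]

theorem lift_pr (p : (RatFunc Kb)[X]) (h : ∀ q ∈ p.coeffs, (∀ c ∈ q.num.coeffs, c ∈ K₀) ∧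
    (∀ c ∈ q.denom.coeffs, c ∈ K₀)) :
    ∃ p₀ : (RatFunc K₀)[X], p₀.map (rmap (algebraMap K₀ Kb)) = p := by
  rw [← Polynomial.mem_lifts, Polynomial.lifts_iff_coeff_lifts]
  intro n
  by_cases h0 : p.coeff n = 0
  · exact ⟨0, by rw [h0, map_zero]⟩
  · obtain ⟨h1, h2⟩ := h _ (Polynomial.coeff_mem_coeffs h0)
    exact lift_rat K₀ _ h1 h2

/-- a rational function over `K₀` which becomes a constant over `Kb` is a constant -/
theorem const_of_map (q : RatFunc K₀) (c : Kb) (h : rmap (algebraMap K₀ Kb) q = RatFunc.C c) :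
    ∃ c₀ : K₀, q = RatFunc.C c₀ := by
  have hd : q.denom.map (algebraMap K₀ Kb) ≠ 0 := by
    rw [Ne, Polynomial.map_eq_zero]
    exact q.denom_ne_zero
  have h1 : q.num.map (algebraMap K₀ Kb) = C c * q.denom.map (algebraMap K₀ Kb) := by
    apply RatFunc.algebraMap_injective Kb
    have hr : rmap (algebraMap K₀ Kb) q = algebraMap _ _ (q.num.map (algebraMap K₀ Kb)) /
        algebraMap _ _ (q.denom.map (algebraMap K₀ Kb)) := by
      conv_lhs => rw [← RatFunc.num_div_denom q]
      rw [map_div₀, rmap_alg, rmap_alg]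
    rw [map_mul, RatFunc.algebraMap_C, ← h, hr, div_mul_cancel₀ _ (RatFunc.algebraMap_ne_zero hd)]
  have hm : q.denom.Monic := q.monic_denom
  have h2 : (algebraMap K₀ Kb) (q.num.coeff q.denom.natDegree) = c := by
    have := congrArg (fun r : Kb[X] => r.coeff q.denom.natDegree) h1
    simp only [coeff_map, coeff_C_mul] at this
    rw [this]
    have h3 : q.denom.coeff q.denom.natDegree = 1 := hm
    rw [h3, map_one, mul_one]
  refine ⟨q.num.coeff q.denom.natDegree, ?_⟩
  apply (rmap (algebraMap K₀ Kb)).injective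
  rw [h, rmap_C, h2]

end lift

end Pool.Agent.R359
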