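import Mathlib
import Pool.Agent.R359.Descend

/-!
# Descent of regular realizations to number fields
-/

set_option autoImplicit false

namespace Pool.Agent.R359

open Polynomial
open Pool.Agent.H391R2.T4 (RegSol)
open H33 H33.T3

section descend

variable {G : Type} [Group G] [Finite G] {Kb : Type} [Field Kb] [CharZero Kb]
  [Algebra.IsAlgebraic ℚ Kb]

theorem descend (h : RegSol Kb Kb G 1) :
    ∃ K₀ : IntermediateField ℚ Kb, FiniteDimensional ℚ K₀ ∧ RegSol K₀ K₀ G 1 := by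
  classical
  obtain ⟨F, i1, i2, i3, i4, i5, i6, i7, i8, γ, hγ, hr⟩ := h
  have h34 : i3 = i4 := Algebra.algebra_ext i3 i4 (fun x =>
    (@IsScalarTower.algebraMap_apply Kb Kb F _ _ _ _ i3 i4 i6 x).symm)
  subst h34
  haveI : CharZero (RatFunc Kb) :=
    charZero_of_injective_algebraMap (RatFunc.algebraMap_injective Kb)
  obtain ⟨y, hy⟩ := Field.exists_primitive_element (RatFunc Kb) F
  have hyint : IsIntegral (RatFunc Kb) y := IsIntegral.of_finite _ _
  obtain ⟨f, hf⟩ : ∃ f, f = minpoly (RatFunc Kb) y := ⟨_, rfl⟩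
  have hp : ∀ σ : F ≃ₐ[RatFunc Kb] F, ∃ p : (RatFunc Kb)[X], aeval y p = σ y := by
    intro σ
    have h1 : σ y ∈ IntermediateField.adjoin (RatFunc Kb) {y} := by rw [hy]; trivial
    rw [← IntermediateField.mem_toSubalgebra,
      IntermediateField.adjoin_simple_toSubalgebra_of_isAlgebraic hyint.isAlgebraic,
      Algebra.adjoin_singleton_eq_range_aeval] at h1
    exact h1
  choose p hp using hp
  obtain ⟨Q, hQ⟩ : ∃ Q : Set (RatFunc Kb), Q = {q | q ∈ f.coeffs ∨ ∃ σ, q ∈ (p σ).coeffs} :=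
    ⟨_, rfl⟩
  have hQfin : Q.Finite := by
    rw [hQ]
    have h1 : {q : RatFunc Kb | q ∈ f.coeffs ∨ ∃ σ, q ∈ (p σ).coeffs} =
        (f.coeffs : Set (RatFunc Kb)) ∪ ⋃ σ, ((p σ).coeffs : Set (RatFunc Kb)) := by
      ext q
      simp
    rw [h1]
    exact (Finset.finite_toSet _).union (Set.finite_iUnion fun σ => Finset.finite_toSet _)
  obtain ⟨S, hS⟩ : ∃ S : Set Kb, S = ⋃ q ∈ Q, ((q.num.coeffs : Set Kb) ∪ q.denom.coeffs) :=
    ⟨_, rfl⟩
  have hSfin : S.Finite := by
    rw [hS]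
    exact hQfin.biUnion fun q _ => (Finset.finite_toSet _).union (Finset.finite_toSet _)
  obtain ⟨K₀, hK₀⟩ : ∃ K₀ : IntermediateField ℚ Kb, K₀ = IntermediateField.adjoin ℚ S := ⟨_, rfl⟩
  have hfd : FiniteDimensional ℚ K₀ := by
    rw [hK₀]
    have : Finite S := hSfin
    exact IntermediateField.finiteDimensional_adjoin fun x _ =>
      (Algebra.IsAlgebraic.isAlgebraic x).isIntegral
  have hmem : ∀ q ∈ Q, (∀ c ∈ q.num.coeffs, c ∈ K₀) ∧ (∀ c ∈ q.denom.coeffs, c ∈ K₀) := by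
    intro q hq
    have h1 : ((q.num.coeffs : Set Kb) ∪ q.denom.coeffs) ⊆ K₀ := by
      rw [hK₀]
      refine Set.Subset.trans ?_ (IntermediateField.subset_adjoin ℚ S)
      rw [hS]
      exact Set.subset_biUnion_of_mem (u := fun q : RatFunc Kb =>
        ((q.num.coeffs : Set Kb) ∪ q.denom.coeffs)) hq
    exact ⟨fun c hc => h1 (Or.inl hc), fun c hc => h1 (Or.inr hc)⟩
  obtain ⟨f₀, hf₀⟩ := lift_pr K₀ f fun q hq => hmem q (by rw [hQ]; exact Or.inl hq)
  have hp₀ : ∀ σ, ∃ p₀ : (RatFunc K₀)[X], p₀.map (rmap (algebraMap K₀ Kb)) = p σ := fun σ =>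
    lift_pr K₀ (p σ) fun q hq => hmem q (by rw [hQ]; exact Or.inr ⟨σ, hq⟩)
  choose p₀ hp₀ using hp₀
  -- the base field
  letI a1 : Algebra (RatFunc K₀) (RatFunc Kb) := (rmap (algebraMap K₀ Kb)).toAlgebra
  letI a2 : Algebra (RatFunc K₀) F :=
    ((algebraMap (RatFunc Kb) F).comp (rmap (algebraMap K₀ Kb))).toAlgebra
  haveI t1 : IsScalarTower (RatFunc K₀) (RatFunc Kb) F := IsScalarTower.of_algebraMap_eq fun x => rfl
  have hal : ∀ q : RatFunc K₀, algebraMap (RatFunc K₀) F q =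
      algebraMap (RatFunc Kb) F (rmap (algebraMap K₀ Kb) q) := fun q => rfl
  have haev : ∀ q : (RatFunc K₀)[X], aeval y (q.map (rmap (algebraMap K₀ Kb))) = aeval y q := by
    intro q
    exact Polynomial.aeval_map_algebraMap (RatFunc Kb) y q
  have hf0root : aeval y f₀ = 0 := by
    rw [← haev, hf₀, hf]
    exact minpoly.aeval _ _
  have hfmon : f₀.Monic := by
    refine Polynomial.monic_of_injective (rmap (algebraMap K₀ Kb)).injective ?_
    rw [hf₀, hf]
    exact minpoly.monic hyint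
  have hyint0 : IsIntegral (RatFunc K₀) y := ⟨f₀, hfmon, hf0root⟩
  let F₀ : IntermediateField (RatFunc K₀) F := IntermediateField.adjoin (RatFunc K₀) {y}
  have hyF : y ∈ F₀ := IntermediateField.mem_adjoin_simple_self _ y
  haveI hfdF : FiniteDimensional (RatFunc K₀) F₀ :=
    IntermediateField.adjoin.finiteDimensional hyint0
  have hcard : Nat.card (F ≃ₐ[RatFunc Kb] F) = Module.finrank (RatFunc Kb) F :=
    IsGalois.card_aut_eq_finrank _ _
  have hrank : Module.finrank (RatFunc K₀) F₀ ≤ Nat.card (F ≃ₐ[RatFunc Kb] F) := by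
    rw [IntermediateField.adjoin.finrank hyint0, hcard]
    have h1 : (minpoly (RatFunc K₀) y).natDegree ≤ f₀.natDegree :=
      Polynomial.natDegree_le_of_dvd (minpoly.dvd _ _ hf0root) hfmon.ne_zero
    have h2 : f₀.natDegree = f.natDegree := by
      rw [← hf₀, Polynomial.natDegree_map]
    have h3 : f.natDegree = Module.finrank (RatFunc Kb) F := by
      rw [hf, ← IntermediateField.adjoin.finrank hyint, hy, IntermediateField.finrank_top']
    omega
  -- the action
  have hstab : ∀ (σ : F ≃ₐ[RatFunc Kb] F) (x : F), x ∈ F₀ → σ x ∈ F₀ := by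
    intro σ x hx
    have h1 : IntermediateField.adjoin (RatFunc K₀) {y} ≤
        F₀.comap ((σ : F →ₐ[RatFunc Kb] F).restrictScalars (RatFunc K₀)) := by
      rw [IntermediateField.adjoin_simple_le_iff]
      change σ y ∈ F₀
      rw [← hp σ, ← hp₀ σ, haev]
      have h2 : aeval y (p₀ σ) = ((aeval (⟨y, hyF⟩ : F₀) (p₀ σ) : F₀) : F) := by
        rw [← IntermediateField.aeval_coe]
      rw [h2]
      exact SetLike.coe_mem _
    exact h1 hx
  letI act : MulSemiringAction (F ≃ₐ[RatFunc Kb] F) F₀ :=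
    { smul := fun σ x => ⟨σ x, hstab σ x x.2⟩
      one_smul := fun x => rfl
      mul_smul := fun σ τ x => rfl
      smul_zero := fun σ => Subtype.ext (map_zero σ)
      smul_add := fun σ x z => Subtype.ext (map_add σ _ _)
      smul_one := fun σ => Subtype.ext (map_one σ)
      smul_mul := fun σ x z => Subtype.ext (map_mul σ _ _) }
  have hact : ∀ (σ : F ≃ₐ[RatFunc Kb] F) (x : F₀), ((σ • x : F₀) : F) = σ (x : F) :=
    fun σ x => rfl
  haveI hfaith : FaithfulSMul (F ≃ₐ[RatFunc Kb] F) F₀ := ⟨by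
    intro σ τ h
    have h1 : σ y = τ y := congrArg Subtype.val (h (⟨y, hyF⟩ : F₀))
    have h3 : Algebra.adjoin (RatFunc Kb) {y} = ⊤ := by
      rw [← IntermediateField.adjoin_simple_toSubalgebra_of_isAlgebraic hyint.isAlgebraic, hy,
        IntermediateField.top_toSubalgebra]
    have h2 : (σ : F →ₐ[RatFunc Kb] F) = τ := by
      refine AlgHom.ext_of_adjoin_eq_top h3 ?_
      intro x hx
      rw [Set.mem_singleton_iff] at hx
      rw [hx]
      exact h1
    ext x
    exact congrArg (fun φ : F →ₐ[RatFunc Kb] F => φ x) h2⟩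
  haveI hcomm : SMulCommClass (F ≃ₐ[RatFunc Kb] F) (RatFunc K₀) F₀ := ⟨fun σ r x => by
    apply Subtype.ext
    change σ (r • (x : F)) = r • σ (x : F)
    rw [Algebra.smul_def, Algebra.smul_def, map_mul, hal, AlgEquiv.commutes]⟩
  let ρ : (F ≃ₐ[RatFunc Kb] F) →* (F₀ ≃ₐ[RatFunc K₀] F₀) :=
    MulSemiringAction.toAlgAut (F ≃ₐ[RatFunc Kb] F) (RatFunc K₀) F₀
  have hρa : ∀ σ (x : F₀), ((ρ σ x : F₀) : F) = σ (x : F) := fun σ x => rfl
  have hρ : Function.Injective ρ := by
    intro σ τ e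
    refine FaithfulSMul.eq_of_smul_eq_smul (α := F₀) (fun b => ?_)
    exact congrArg (fun f : F₀ ≃ₐ[RatFunc K₀] F₀ => f b) e
  have hc1 : Nat.card (F ≃ₐ[RatFunc Kb] F) ≤ Nat.card (F₀ ≃ₐ[RatFunc K₀] F₀) :=
    Nat.card_le_card_of_injective _ hρ
  have hc2 : Nat.card (F₀ ≃ₐ[RatFunc K₀] F₀) ≤ Module.finrank (RatFunc K₀) F₀ := by
    rw [Nat.card_eq_fintype_card]
    exact AlgEquiv.card_le
  haveI hgal : IsGalois (RatFunc K₀) F₀ := IsGalois.of_card_aut_eq_finrank _ _ (by omega)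
  have hbij : Function.Bijective ρ := Function.Injective.bijective_of_nat_card_le hρ (by omega)
  let γ₀ : (F₀ ≃ₐ[RatFunc K₀] F₀) ≃* G := (MulEquiv.ofBijective ρ hbij).symm.trans γ
  letI a3 : Algebra K₀ F₀ :=
    ((algebraMap (RatFunc K₀) F₀).comp (algebraMap K₀ (RatFunc K₀))).toAlgebra
  haveI t3 : IsScalarTower K₀ (RatFunc K₀) F₀ := IsScalarTower.of_algebraMap_eq fun x => rfl
  refine ⟨K₀, hfd, F₀, inferInstance, inferInstance, a3, a3, t3, inferInstance, hfdF, hgal, γ₀,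
    ?_, ?_⟩
  · intro σ x
    rw [MonoidHom.one_apply, AlgEquiv.one_apply]
    exact σ.commutes (algebraMap K₀ (RatFunc K₀) x)
  · intro z hz
    -- `z` is a constant of `F`
    have hz1 : IsAlgebraic Kb (z : F) := by
      obtain ⟨P, hP0, hP⟩ := hz
      refine ⟨P.map (algebraMap K₀ Kb), ?_, ?_⟩
      · rwa [Ne, Polynomial.map_eq_zero]
      · have h1 : (algebraMap Kb F).comp (algebraMap K₀ Kb) =
            (F₀.val : F₀ →+* F).comp (algebraMap K₀ F₀) := by
          apply RingHom.ext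
          intro c
          change algebraMap Kb F (algebraMap K₀ Kb c) =
            algebraMap (RatFunc Kb) F (rmap (algebraMap K₀ Kb) (algebraMap K₀ (RatFunc K₀) c))
          rw [RatFunc.algebraMap_eq_C, rmap_C, ← RatFunc.algebraMap_eq_C,
            ← IsScalarTower.algebraMap_apply Kb (RatFunc Kb) F]
        rw [aeval_def, eval₂_map, h1]
        have h2 := Polynomial.hom_eval₂ P (algebraMap K₀ F₀) (F₀.val : F₀ →+* F) z
        have h3 : eval₂ (algebraMap K₀ F₀) z P = 0 := hP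
        rw [h3, map_zero] at h2
        exact h2.symm
    obtain ⟨c, hc⟩ := hr _ hz1
    have hz2 : z ∈ (⊥ : IntermediateField (RatFunc K₀) F₀) := by
      rw [IsGalois.mem_bot_iff_fixed]
      intro τ
      obtain ⟨σ, rfl⟩ := hbij.2 τ
      apply Subtype.ext
      rw [hρa, ← hc]
      rw [IsScalarTower.algebraMap_apply Kb (RatFunc Kb) F, AlgEquiv.commutes]
    obtain ⟨q, hq⟩ := IntermediateField.mem_bot.1 hz2
    obtain ⟨c₀, hc₀⟩ := const_of_map K₀ q c (by
      apply (algebraMap (RatFunc Kb) F).injective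
      rw [← hal]
      have h1 : algebraMap (RatFunc K₀) F q = (z : F) := by
        rw [← hq]
        rfl
      rw [h1, ← hc, IsScalarTower.algebraMap_apply Kb (RatFunc Kb) F]
      rfl)
    refine ⟨c₀, ?_⟩
    rw [← hq, hc₀]
    rfl

end descend

end Pool.Agent.R359
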