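import Mathlib

/-!
# Emu-boundedness of the `ω₁`-ballean of `S_ω`
-/

set_option autoImplicit false
set_option linter.deprecated false

open Cardinal Set

namespace Pool.Agent.R359.Emu

/-- `f` is eventually macro-uniform for the `κ`-ballean of `G`: for every `F ⊆ G` of size `< κ`
there is `B ⊆ G` of size `< κ` such that the sets `f(Fx)`, `x ∉ B`, have uniformly bounded
diameter. -/
def EventuallyMacroUniform (G : Type) [Group G] (κ : Cardinal.{0}) (f : G → ℝ) : Prop :=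
  ∀ F : Set G, #F < κ → ∃ B : Set G, #B < κ ∧
    ∃ C : ℝ, ∀ x ∉ B, ∀ g ∈ F, ∀ g' ∈ F, |f (g * x) - f (g' * x)| ≤ C

/-- The `κ`-ballean of `G` is emu-bounded: every eventually macro-uniform function is bounded
outside a set of size `< κ`. -/
def EmuBounded (G : Type) [Group G] (κ : Cardinal.{0}) : Prop :=
  ∀ f : G → ℝ, EventuallyMacroUniform G κ f → ∃ B : Set G, #B < κ ∧ ∃ C : ℝ, ∀ x ∉ B, |f x| ≤ C

theorem lt_aleph_one {α : Type} {S : Set α} : #S < ℵ₁ ↔ S.Countable :=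
  (countable_iff_lt_aleph_one S).symm

theorem aleph_one_le {α : Type} {S : Set α} : ℵ₁ ≤ #S ↔ ¬ S.Countable := by
  rw [← lt_aleph_one, not_lt]

theorem exists_sub {α : Type} {S : Set α} (h : ¬ S.Countable) : ∃ T ⊆ S, #T = ℵ₁ :=
  le_mk_iff_exists_subset.1 (aleph_one_le.2 h)

theorem not_countable_of_eq {α : Type} {S : Set α} (h : #S = ℵ₁) : ¬ S.Countable :=
  aleph_one_le.1 h.ge

theorem biUnion_le {α β : Type} {X : Set α} (hX : #X ≤ ℵ₁) (N : α → Set β)
    (hN : ∀ x ∈ X, (N x).Countable) : #(⋃ x ∈ X, N x) ≤ ℵ₁ := by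
  refine (mk_biUnion_le N X).trans ?_
  have h1 : (⨆ x : X, #(N x)) ≤ ℵ₀ := by
    apply ciSup_le'
    intro x
    exact le_aleph0_iff_set_countable.2 (hN x x.2)
  calc #X * ⨆ x : X, #(N x) ≤ ℵ₁ * ℵ₀ := mul_le_mul' hX h1
    _ = ℵ₁ := by
      rw [mul_aleph0_eq (aleph0_le_aleph 1)]

theorem union_le {α : Type} {S T : Set α} (hS : #S ≤ ℵ₁) (hT : #T ≤ ℵ₁) :
    #(S ∪ T : Set α) ≤ ℵ₁ := by
  refine (mk_union_le S T).trans ?_
  calc #S + #T ≤ ℵ₁ + ℵ₁ := add_le_add hS hT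
    _ = ℵ₁ := add_eq_self (aleph0_le_aleph 1)

theorem countable_closure {G : Type} [Group G] {S : Set G} (hS : S.Countable) :
    (Subgroup.closure S : Set G).Countable := by
  have h1 : {l : List G | ∀ y ∈ l, y ∈ S ∪ S⁻¹}.Countable := by
    have hinv : (S⁻¹).Countable := by
      have : S⁻¹ = (fun x => x⁻¹) ⁻¹' S := rfl
      rw [this]
      exact hS.preimage inv_injective
    have hc : Countable (S ∪ S⁻¹ : Set G) := (hS.union hinv).to_subtype
    rw [← Set.range_list_map_coe]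
    exact Set.countable_range _
  refine (h1.image List.prod).mono ?_
  intro x hx
  rw [SetLike.mem_coe, ← Subgroup.mem_toSubmonoid, Subgroup.closure_toSubmonoid] at hx
  obtain ⟨l, hl, rfl⟩ := Submonoid.exists_list_of_mem_closure hx
  exact ⟨l, hl, rfl⟩

/-! ### Groups of size `ℵ₁` are not emu-bounded -/

theorem not_emu_of_card {G : Type} [Group G] (hG : #G = ℵ₁) : ¬ EmuBounded G ℵ₁ := by
  classical
  intro hemu
  let W := (ℵ₁ : Cardinal.{0}).ord.ToType
  have hW : #W = ℵ₁ := mk_ord_toType _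
  have hIio : ∀ b : W, (Set.Iio b).Countable := fun b =>
    (countable_iff_lt_aleph_one _).2 (mk_Iio_toType_ord_lt b)
  have hunc : ¬ (Set.univ : Set W).Countable := by
    intro h
    have h2 := (countable_iff_lt_aleph_one _).1 h
    rw [mk_univ, hW] at h2
    exact lt_irrefl _ h2
  have hbdd : ∀ S : Set W, S.Countable → ∃ b, ∀ x ∈ S, x < b := by
    intro S hS
    by_contra hcon
    push Not at hcon
    apply hunc
    refine (hS.biUnion (t := fun x _ => Set.Iic x) fun x _ => ?_).mono ?_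
    · rw [← Set.Iio_insert]
      exact (hIio x).insert x
    · intro b _
      obtain ⟨x, hx, hbx⟩ := hcon b
      exact Set.mem_iUnion₂.2 ⟨x, hx, hbx⟩
  obtain ⟨e⟩ : Nonempty (W ≃ G) := Cardinal.eq.1 (hW.trans hG.symm)
  let H : W → Subgroup G := fun α => Subgroup.closure (e '' Set.Iio α)
  have hHc : ∀ α, (H α : Set G).Countable := fun α => countable_closure ((hIio α).image e)
  have hHm : ∀ α β, α ≤ β → H α ≤ H β := fun α β h =>
    Subgroup.closure_mono (Set.image_mono (Set.Iio_subset_Iio h))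
  have hHe : ∀ x : G, ∃ α, x ∈ H α := by
    intro x
    obtain ⟨b, hb⟩ := hbdd {e.symm x} (Set.countable_singleton _)
    refine ⟨b, Subgroup.subset_closure ⟨e.symm x, hb _ rfl, by simp⟩⟩
  have hHF : ∀ F : Set G, F.Countable → ∃ β, F ⊆ H β := by
    intro F hF
    obtain ⟨b, hb⟩ := hbdd (e.symm '' F) (hF.image _)
    refine ⟨b, fun x hx => Subgroup.subset_closure ⟨e.symm x, hb _ ⟨x, hx, rfl⟩, by simp⟩⟩
  -- the level
  let lev : G → W := fun x => WellFounded.min wellFounded_lt {α | x ∈ H α} (hHe x)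
  have hlev : ∀ x, x ∈ H (lev x) := fun x => WellFounded.min_mem wellFounded_lt _ (hHe x)
  have hlevinv : ∀ β g x, g ∈ H β → x ∉ H β → lev (g * x) = lev x := by
    intro β g x hg hx
    have key : ∀ α, g * x ∈ H α ↔ x ∈ H α := by
      intro α
      rcases le_or_gt β α with h | h
      · exact Subgroup.mul_mem_cancel_left _ (hHm β α h hg)
      · constructor
        · intro h1
          exfalso
          exact hx ((Subgroup.mul_mem_cancel_left _ hg).1 (hHm α β h.le h1))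
        · intro h1
          exact absurd (hHm α β h.le h1) hx
    have : {α | g * x ∈ H α} = {α | x ∈ H α} := by
      ext α; exact key α
    simp only [lev]
    congr 1
  let T : Set W := Set.range lev
  have hT : ¬ T.Countable := by
    intro h
    have h1 : (Set.univ : Set G) ⊆ ⋃ t ∈ T, (H t : Set G) := by
      intro x _
      exact Set.mem_iUnion₂.2 ⟨lev x, ⟨x, rfl⟩, hlev x⟩
    have h2 : (Set.univ : Set G).Countable := (h.biUnion fun t _ => hHc t).mono h1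
    have h3 := lt_aleph_one.2 h2
    rw [mk_univ, hG] at h3
    exact lt_irrefl _ h3
  have hTc : #T = ℵ₁ := by
    apply le_antisymm
    · rw [← hW]; exact mk_set_le T
    · exact aleph_one_le.2 hT
  obtain ⟨e'⟩ : Nonempty (T ≃ W × ℕ) := by
    apply Cardinal.eq.1
    rw [hTc, mk_prod, lift_id, lift_id, hW, mk_nat, mul_aleph0_eq (aleph0_le_aleph 1)]
  let f : G → ℝ := fun x => ((e' ⟨lev x, x, rfl⟩).2 : ℝ)
  have hf : ∀ x y, lev x = lev y → f x = f y := by
    intro x y h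
    simp only [f]
    congr 4
  obtain ⟨B, hB, C, hC⟩ := hemu f (by
    intro F hF
    obtain ⟨β, hβ⟩ := hHF F (lt_aleph_one.1 hF)
    refine ⟨H β, lt_aleph_one.2 (hHc β), 0, ?_⟩
    intro x hx g hg g' hg'
    have e1 := hlevinv β g x (hβ hg) hx
    have e2 := hlevinv β g' x (hβ hg') hx
    rw [hf (g * x) (g' * x) (e1.trans e2.symm), sub_self, abs_zero])
  obtain ⟨n, hn⟩ := exists_nat_gt C
  -- uncountably many `x` with `f x = n`
  have h1 : ∀ w : W, ∃ x : G, e' ⟨lev x, x, rfl⟩ = (w, n) := by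
    intro w
    obtain ⟨x, hx⟩ := (e'.symm (w, n)).2
    refine ⟨x, ?_⟩
    have : (⟨lev x, x, rfl⟩ : T) = e'.symm (w, n) := Subtype.ext hx
    rw [this, Equiv.apply_symm_apply]
  choose x hx using h1
  have hxinj : Function.Injective x := by
    intro w w' h
    have e1 := hx w
    have e2 := hx w'
    simp only [h] at e1
    rw [e1] at e2
    exact (Prod.mk.inj e2).1
  have h2 : ¬ (Set.range x).Countable := by
    intro h
    apply hunc
    exact Set.MapsTo.countable_of_injOn (f := x) (t := Set.range x) (fun w _ => ⟨w, rfl⟩)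
      hxinj.injOn h
  obtain ⟨y, ⟨w, rfl⟩, hyB⟩ : ∃ y ∈ Set.range x, y ∉ B := by
    by_contra hcon
    push Not at hcon
    exact h2 ((lt_aleph_one.1 hB).mono hcon)
  have h3 := hC _ hyB
  have h4 : f (x w) = n := by simp only [f, hx w]
  rw [h4] at h3
  have := le_abs_self (n : ℝ)
  linarith

/-! ### The symmetric group, `ℵ₁ < 𝔠` -/

/-- permutations supported in `Σ` -/
def Hs (S : Set ℕ) : Set (Equiv.Perm ℕ) := {g | ∀ n, n ∉ S → g n = n}

theorem card_Hs {S : Set ℕ} (hS : S.Infinite) : 𝔠 ≤ #(Hs S) := by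
  classical
  have hinf : Infinite S := hS.to_subtype
  have h1 : #(Equiv.Perm S) = 𝔠 := by
    rw [mk_perm_eq_two_power, mk_eq_aleph0, two_power_aleph0]
  rw [← h1]
  refine mk_le_of_injective (f := fun g : Equiv.Perm S =>
    (⟨Equiv.Perm.ofSubtype (p := fun n => n ∈ S) g, ?_⟩ : Hs S)) ?_
  · intro n hn
    exact Equiv.Perm.ofSubtype_apply_of_not_mem g hn
  · intro g g' h
    exact Equiv.Perm.ofSubtype_injective (congrArg Subtype.val h)

theorem exists_notMem (hc : (ℵ₁ : Cardinal.{0}) < 𝔠) {S : Set ℕ} (hS : S.Infinite) {E : Set (Equiv.Perm ℕ)}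
    (hE : #E ≤ ℵ₁) : ∃ g ∈ Hs S, g ∉ E := by
  by_contra hcon
  push Not at hcon
  have h1 : #(Hs S) ≤ #E := mk_le_mk_of_subset hcon
  exact absurd ((card_Hs hS).trans (h1.trans hE)) (not_le.2 hc)

theorem Hs_commute {S : Set ℕ} {g h : Equiv.Perm ℕ} (hg : g ∈ Hs S) (hh : h ∈ Hs Sᶜ) :
    g * h = h * g := by
  have : Equiv.Perm.Disjoint g h := by
    intro n
    by_cases hn : n ∈ S
    · right; exact hh n (fun hn' => hn' hn)
    · left; exact hg n hn
  exact this.commute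

section

variable (hc : (ℵ₁ : Cardinal.{0}) < 𝔠) (f : Equiv.Perm ℕ → ℝ) (n₀ : ℝ) (hn₀ : 0 ≤ n₀)
  (E : Equiv.Perm ℕ → Set (Equiv.Perm ℕ)) (hEc : ∀ g, (E g).Countable)
  (hE : ∀ g, ∀ x ∉ E g, |f (g * x) - f x| ≤ n₀)

include hc hn₀ hEc hE

omit hn₀ in
theorem two_step {S : Set ℕ} (hS : Sᶜ.Infinite) {X : Set (Equiv.Perm ℕ)} (hX : X ⊆ Hs S)
    (hXc : #X ≤ ℵ₁) {D : Set (Equiv.Perm ℕ)} (hD : #D ≤ ℵ₁) :
    ∃ x₀ ∈ Hs Sᶜ, x₀ ∉ D ∧ {h | h ∈ X ∧ 2 * n₀ < |f h - f x₀|}.Countable := by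
  obtain ⟨x₀, hx₀, hx₀'⟩ := exists_notMem hc hS
    (union_le hD (biUnion_le hXc E fun h _ => hEc h))
  rw [Set.mem_union, not_or] at hx₀'
  refine ⟨x₀, hx₀, hx₀'.1, (hEc x₀).mono ?_⟩
  rintro h ⟨hh, hlt⟩
  by_contra hcon
  have h1 : x₀ ∉ E h := fun h' => hx₀'.2 (Set.mem_iUnion₂.2 ⟨h, hh, h'⟩)
  have h2 := hE h x₀ h1
  have h3 := hE x₀ h hcon
  rw [← Hs_commute (hX hh) hx₀] at h3
  have : |f h - f x₀| ≤ 2 * n₀ := by
    calc |f h - f x₀| = |(f (h * x₀) - f x₀) - (f (h * x₀) - f h)| := by congr 1; ring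
      _ ≤ |f (h * x₀) - f x₀| + |f (h * x₀) - f h| := abs_sub _ _
      _ ≤ 2 * n₀ := by linarith
  linarith

omit hn₀ in
theorem exists_const {S : Set ℕ} (hS : S.Infinite) (hS' : Sᶜ.Infinite) :
    ∃ c : ℝ, {h | h ∈ Hs S ∧ 4 * n₀ + 1 < |f h - c|}.Countable := by
  have hunc : ¬ (Hs S).Countable := by
    rw [← aleph_one_le]; exact hc.le.trans (card_Hs hS)
  obtain ⟨k, hk⟩ : ∃ k : ℤ, ¬ {h | h ∈ Hs S ∧ ⌊f h⌋ = k}.Countable := by
    by_contra hcon
    push Not at hcon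
    apply hunc
    refine (Set.countable_iUnion hcon).mono ?_
    intro h hh
    exact Set.mem_iUnion.2 ⟨⌊f h⌋, hh, rfl⟩
  refine ⟨k, ?_⟩
  by_contra hB
  obtain ⟨A', hA', hA'c⟩ := exists_sub hk
  obtain ⟨B', hB', hB'c⟩ := exists_sub hB
  have hAS : A' ⊆ Hs S := fun h hh => (hA' hh).1
  have hBS : B' ⊆ Hs S := fun h hh => (hB' hh).1
  obtain ⟨x₀, -, -, hx₀⟩ := two_step hc f n₀ E hEc hE hS' (X := A' ∪ B')
    (Set.union_subset hAS hBS) (union_le hA'c.le hB'c.le) (D := ∅) (by simp)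
  have hex : ∀ T ⊆ A' ∪ B', #T = ℵ₁ → ∃ t ∈ T, |f t - f x₀| ≤ 2 * n₀ := by
    intro T hT hTc
    by_contra hcon
    push Not at hcon
    refine not_countable_of_eq hTc (hx₀.mono ?_)
    intro t ht
    exact ⟨hT ht, hcon t ht⟩
  obtain ⟨a, ha, ha'⟩ := hex A' Set.subset_union_left hA'c
  obtain ⟨b, hb, hb'⟩ := hex B' Set.subset_union_right hB'c
  have h1 : |f a - k| ≤ 1 := by
    have := (hA' ha).2
    rw [Int.floor_eq_iff] at this
    rw [abs_le]
    constructor <;> linarith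
  have h2 := (hB' hb).2
  have : |f b - k| ≤ 4 * n₀ + 1 := by
    calc |f b - k| = |(f b - f x₀) - (f a - f x₀) + (f a - k)| := by congr 1; ring
      _ ≤ |(f b - f x₀) - (f a - f x₀)| + |f a - k| := abs_add_le _ _
      _ ≤ (|f b - f x₀| + |f a - f x₀|) + |f a - k| := by
          have := abs_sub (f b - f x₀) (f a - f x₀); linarith
      _ ≤ 4 * n₀ + 1 := by linarith
  linarith

omit hn₀ in
theorem compare_compl {S : Set ℕ} (hS : S.Infinite) (hS' : Sᶜ.Infinite) {c c' K : ℝ}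
    (h1 : {h | h ∈ Hs S ∧ K < |f h - c|}.Countable)
    (h2 : {h | h ∈ Hs Sᶜ ∧ K < |f h - c'|}.Countable) : |c - c'| ≤ 2 * K + 2 * n₀ := by
  have hunc : ¬ (Hs S).Countable := by
    rw [← aleph_one_le]; exact hc.le.trans (card_Hs hS)
  obtain ⟨X, hX, hXc⟩ := exists_sub hunc
  obtain ⟨x₀, hx₀, hx₀', hx₀c⟩ := two_step hc f n₀ E hEc hE hS' hX hXc.le
    (D := {h | h ∈ Hs Sᶜ ∧ K < |f h - c'|}) (lt_aleph_one.2 h2).le
  have h3 : |f x₀ - c'| ≤ K := by
    by_contra hcon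
    exact hx₀' ⟨hx₀, not_le.1 hcon⟩
  obtain ⟨h, hh, h4, h5⟩ : ∃ h ∈ X, |f h - f x₀| ≤ 2 * n₀ ∧ |f h - c| ≤ K := by
    by_contra hcon
    push Not at hcon
    apply not_countable_of_eq hXc
    refine (hx₀c.union h1).mono ?_
    intro h hh
    by_cases h6 : |f h - f x₀| ≤ 2 * n₀
    · exact Or.inr ⟨hX hh, hcon h hh h6⟩
    · exact Or.inl ⟨hh, not_le.1 h6⟩
  calc |c - c'| = |(f h - f x₀) - (f h - c) + (f x₀ - c')| := by congr 1; ring
    _ ≤ |(f h - f x₀) - (f h - c)| + |f x₀ - c'| := abs_add_le _ _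
    _ ≤ (|f h - f x₀| + |f h - c|) + |f x₀ - c'| := by
        have := abs_sub (f h - f x₀) (f h - c); linarith
    _ ≤ 2 * K + 2 * n₀ := by linarith

omit hn₀ hEc hE in
theorem compare_inter {S S' : Set ℕ} (hS : (S ∩ S').Infinite) {c c' K : ℝ}
    (h1 : {h | h ∈ Hs S ∧ K < |f h - c|}.Countable)
    (h2 : {h | h ∈ Hs S' ∧ K < |f h - c'|}.Countable) : |c - c'| ≤ 2 * K := by
  obtain ⟨g, hg, hg'⟩ := exists_notMem hc hS (union_le (lt_aleph_one.2 h1).le
    (lt_aleph_one.2 h2).le)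
  rw [Set.mem_union, not_or] at hg'
  have h3 : |f g - c| ≤ K := by
    by_contra hcon
    exact hg'.1 ⟨fun n hn => hg n fun h => hn h.1, not_le.1 hcon⟩
  have h4 : |f g - c'| ≤ K := by
    by_contra hcon
    exact hg'.2 ⟨fun n hn => hg n fun h => hn h.2, not_le.1 hcon⟩
  calc |c - c'| = |(f g - c') - (f g - c)| := by congr 1; ring
    _ ≤ |f g - c'| + |f g - c| := abs_sub _ _
    _ ≤ 2 * K := by linarith

theorem bounded : ∃ B : Set (Equiv.Perm ℕ), B.Countable ∧ ∃ C : ℝ, ∀ x ∉ B, |f x| ≤ C := by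
  -- a moiety
  obtain ⟨S₀, hS₀, hS₀'⟩ : ∃ S₀ : Set ℕ, S₀.Infinite ∧ S₀ᶜ.Infinite := by
    refine ⟨Set.range fun n => 2 * n, Set.infinite_range_of_injective fun a b h => ?_, ?_⟩
    · have h' : 2 * a = 2 * b := h
      omega
    · refine (Set.infinite_range_of_injective (f := fun n => 2 * n + 1) fun a b h => ?_).mono ?_
      · have h' : 2 * a + 1 = 2 * b + 1 := h
        omega
      · rintro _ ⟨n, rfl⟩ ⟨m, hm⟩
        have h' : 2 * m = 2 * n + 1 := hm
        omega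
  set K : ℝ := 4 * n₀ + 1 with hK
  obtain ⟨c₀, hc₀⟩ := exists_const hc f n₀ E hEc hE hS₀ hS₀'
  obtain ⟨c₁, hc₁⟩ := exists_const hc f n₀ E hEc hE (S := S₀ᶜ) hS₀' (by rwa [compl_compl])
  have hc₀₁ := compare_compl hc f n₀ E hEc hE hS₀ hS₀' hc₀ hc₁
  set K₁ : ℝ := 5 * K + 2 * n₀ with hK₁
  have hall : ∀ S : Set ℕ, S.Infinite → Sᶜ.Infinite →
      {h | h ∈ Hs S ∧ K₁ < |f h - c₀|}.Countable := by
    intro S hS hS'
    obtain ⟨c, hcS⟩ := exists_const hc f n₀ E hEc hE hS hS'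
    have hclose : |c - c₀| ≤ 4 * K + 2 * n₀ := by
      by_cases hi : (S ∩ S₀).Infinite
      · have := compare_inter hc f hi hcS hc₀
        linarith
      · have hi' : (S ∩ S₀ᶜ).Infinite := by
          intro hfin
          apply hS
          have : S = (S ∩ S₀) ∪ (S ∩ S₀ᶜ) := by
            rw [← Set.inter_union_distrib_left, Set.union_compl_self, Set.inter_univ]
          rw [this]
          exact (Set.not_infinite.1 hi).union hfin
        have h1 := compare_inter hc f hi' hcS hc₁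
        calc |c - c₀| = |(c - c₁) - (c₀ - c₁)| := by congr 1; ring
          _ ≤ |c - c₁| + |c₀ - c₁| := abs_sub _ _
          _ ≤ 4 * K + 2 * n₀ := by linarith
    refine hcS.mono ?_
    rintro h ⟨hh, hlt⟩
    refine ⟨hh, ?_⟩
    have : |f h - c₀| ≤ |f h - c| + |c - c₀| := by
      calc |f h - c₀| = |(f h - c) + (c - c₀)| := by congr 1; ring
        _ ≤ _ := abs_add_le _ _
    linarith
  -- right cosets
  have hcos : ∀ x : Equiv.Perm ℕ, {s | s ∈ Hs S₀ ∧ K₁ + n₀ < |f (s * x) - c₀|}.Countable := by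
    intro x
    have hinf : ∀ T : Set ℕ, T.Infinite → (x ⁻¹' T).Infinite := by
      intro T hT
      exact hT.preimage (by rw [x.surjective.range_eq]; exact Set.subset_univ _)
    have hbad := hall (x ⁻¹' S₀) (hinf _ hS₀) (by rw [← Set.preimage_compl]; exact hinf _ hS₀')
    refine Set.MapsTo.countable_of_injOn (f := fun s => x⁻¹ * s * x)
      (t := E x ∪ {h | h ∈ Hs (x ⁻¹' S₀) ∧ K₁ < |f h - c₀|}) ?_ ?_ ((hEc x).union hbad)
    · rintro s ⟨hs, hlt⟩
      by_contra hcon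
      rw [Set.mem_union, not_or] at hcon
      have hmem : x⁻¹ * s * x ∈ Hs (x ⁻¹' S₀) := by
        intro n hn
        have : s (x n) = x n := hs _ hn
        simp [Equiv.Perm.mul_apply, this]
      have h1 := hE x _ hcon.1
      have h2 : |f (x⁻¹ * s * x) - c₀| ≤ K₁ := by
        by_contra hcon'
        exact hcon.2 ⟨hmem, not_le.1 hcon'⟩
      have h3 : x * (x⁻¹ * s * x) = s * x := by group
      rw [h3] at h1
      have : |f (s * x) - c₀| ≤ K₁ + n₀ := by
        calc |f (s * x) - c₀| = |(f (s * x) - f (x⁻¹ * s * x)) + (f (x⁻¹ * s * x) - c₀)| := by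
              congr 1; ring
          _ ≤ |f (s * x) - f (x⁻¹ * s * x)| + |f (x⁻¹ * s * x) - c₀| := abs_add_le _ _
          _ ≤ K₁ + n₀ := by linarith
      linarith
    · intro s _ s' _ h
      have h' : x⁻¹ * s * x = x⁻¹ * s' * x := h
      exact mul_left_cancel (mul_right_cancel h')
  refine ⟨{x | K₁ + 2 * n₀ < |f x - c₀|}, ?_, |c₀| + (K₁ + 2 * n₀), ?_⟩
  · by_contra hunc
    obtain ⟨X, hX, hXc⟩ := exists_sub hunc
    obtain ⟨s, hs, hs'⟩ := exists_notMem hc hS₀ (biUnion_le hXc.le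
      (fun x => {s | s ∈ Hs S₀ ∧ K₁ + n₀ < |f (s * x) - c₀|}) fun x _ => hcos x)
    obtain ⟨x, hx, hxE⟩ : ∃ x ∈ X, x ∉ E s := by
      by_contra hcon
      push Not at hcon
      exact not_countable_of_eq hXc ((hEc s).mono hcon)
    have h1 := hE s x hxE
    have h2 : |f (s * x) - c₀| ≤ K₁ + n₀ := by
      by_contra hcon
      exact hs' (Set.mem_iUnion₂.2 ⟨x, hx, hs, not_le.1 hcon⟩)
    have h3 : K₁ + 2 * n₀ < |f x - c₀| := hX hx
    have : |f x - c₀| ≤ K₁ + 2 * n₀ := by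
      calc |f x - c₀| = |(f (s * x) - c₀) - (f (s * x) - f x)| := by congr 1; ring
        _ ≤ |f (s * x) - c₀| + |f (s * x) - f x| := abs_sub _ _
        _ ≤ K₁ + 2 * n₀ := by linarith
    linarith
  · intro x hx
    have hx' : |f x - c₀| ≤ K₁ + 2 * n₀ := not_lt.1 hx
    calc |f x| = |(f x - c₀) + c₀| := by congr 1; ring
      _ ≤ |f x - c₀| + |c₀| := abs_add_le _ _
      _ ≤ _ := by linarith

end

theorem emu_of_lt (hc : (ℵ₁ : Cardinal.{0}) < 𝔠) : EmuBounded (Equiv.Perm ℕ) ℵ₁ := by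
  intro f hf
  -- uniform constant
  have h1 : ∃ n₀ : ℕ, ∀ g : Equiv.Perm ℕ, ∃ E : Set (Equiv.Perm ℕ), E.Countable ∧
      ∀ x ∉ E, |f (g * x) - f x| ≤ n₀ := by
    by_contra hcon
    push Not at hcon
    choose g hg using hcon
    obtain ⟨B, hB, C, hC⟩ := hf (insert 1 (Set.range g))
      (lt_aleph_one.2 ((Set.countable_range g).insert 1))
    obtain ⟨n, hn⟩ := exists_nat_gt C
    obtain ⟨x, hx, hlt⟩ := hg n B (lt_aleph_one.1 hB)
    have := hC x hx (g n) (Set.mem_insert_of_mem _ ⟨n, rfl⟩) 1 (Set.mem_insert _ _)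
    rw [one_mul] at this
    linarith
  obtain ⟨n₀, h2⟩ := h1
  choose E hEc hE using h2
  obtain ⟨B, hB, C, hC⟩ := bounded hc f n₀ (Nat.cast_nonneg n₀) E hEc hE
  exact ⟨B, lt_aleph_one.2 hB, C, hC⟩

theorem main : EmuBounded (Equiv.Perm ℕ) ℵ₁ ↔ (ℵ₁ : Cardinal.{0}) < 𝔠 := by
  constructor
  · intro h
    by_contra hcon
    apply not_emu_of_card (G := Equiv.Perm ℕ) _ h
    rw [mk_perm_eq_two_power, mk_nat, two_power_aleph0]
    exact le_antisymm (not_lt.1 hcon) aleph_one_le_continuum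
  · exact emu_of_lt

end Pool.Agent.R359.Emu
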