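import Mathlib

/-!
# Fricke trace polynomials: the worst-case sparse bit size is `Θ(n⁴)`
-/

set_option autoImplicit false
set_option linter.deprecated false

open MvPolynomial Matrix

namespace Pool.Agent.R359.Fricke

/-- `SL(2, ℂ)` -/
abbrev SL2 := Matrix.SpecialLinearGroup (Fin 2) ℂ

/-- the value `w(A, B)` of a word of the free group on two generators -/
noncomputable def wordVal (A B : SL2) : FreeGroup (Fin 2) →* SL2 := FreeGroup.lift ![A, B]

/-- the point `(Tr A, Tr B, Tr AB)` of `ℂ³` -/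
noncomputable def traces (A B : SL2) : Fin 3 → ℂ :=
  ![Matrix.trace A.1, Matrix.trace B.1, Matrix.trace (A * B).1]

/-- `f ∈ ℤ[x, y, z]` is a Fricke trace polynomial of `w`:
`Tr w(A, B) = f(Tr A, Tr B, Tr AB)` for all `A, B ∈ SL(2, ℂ)`. -/
def IsFricke (w : FreeGroup (Fin 2)) (f : MvPolynomial (Fin 3) ℤ) : Prop :=
  ∀ A B : SL2, Matrix.trace (wordVal A B w).1 = MvPolynomial.aeval (traces A B) f

/-- `w` has cyclically reduced length `n`: it is conjugate to (the class of) a cyclically reduced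
word with `n` letters. -/
def CycLen (w : FreeGroup (Fin 2)) (n : ℕ) : Prop :=
  ∃ L : List (Fin 2 × Bool), FreeGroup.IsCyclicallyReduced L ∧ L.length = n ∧
    IsConj (FreeGroup.mk L) w

/-- The total binary size of the nonzero coefficients of `f`. -/
def bitSize (f : MvPolynomial (Fin 3) ℤ) : ℕ :=
  ∑ m ∈ f.support, Nat.size (coeff m f).natAbs

/-- the bit sizes of the trace polynomials of the words of cyclically reduced length `n` -/
def sizes (n : ℕ) : Set ℕ :=
  {s | ∃ w f, CycLen w n ∧ IsFricke w f ∧ s = bitSize f}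

/-- `S(n)` -/
noncomputable def S (n : ℕ) : ℕ := sSup (sizes n)

/-! ### Uniqueness -/

theorem exists_traces (v : Fin 3 → ℂ) : ∃ A B : SL2, traces A B = v := by
  obtain ⟨s, hs⟩ := IsAlgClosed.exists_pow_nat_eq ((v 2) ^ 2 - 4) (n := 2) (by norm_num)
  obtain ⟨t, ht0, ht⟩ : ∃ t : ℂ, t ≠ 0 ∧ t ^ 2 - v 2 * t + 1 = 0 := by
    refine ⟨(v 2 + s) / 2, ?_, ?_⟩
    · intro h
      have h1 : s = - v 2 := by linear_combination 2 * h
      rw [h1] at hs
      norm_num at hs
      have : (4 : ℂ) = 0 := by linear_combination hs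
      norm_num at this
    · linear_combination (1 / 4) * hs
  refine ⟨⟨!![v 0, -1; 1, 0], by simp [Matrix.det_fin_two]⟩,
    ⟨!![0, t; -t⁻¹, v 1], by simp [Matrix.det_fin_two, ht0]⟩, ?_⟩
  ext i
  fin_cases i
  · simp [traces, Matrix.trace_fin_two]
  · simp [traces, Matrix.trace_fin_two]
  · show Matrix.trace (!![v 0, -1; 1, 0] * !![0, t; -t⁻¹, v 1]) = v 2
    rw [Matrix.trace_fin_two]
    simp only [Matrix.mul_apply, Fin.sum_univ_two, Matrix.of_apply, Matrix.cons_val']
    simp
    field_simp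
    linear_combination ht

theorem fricke_unique {w : FreeGroup (Fin 2)} {f g : MvPolynomial (Fin 3) ℤ} (hf : IsFricke w f)
    (hg : IsFricke w g) : f = g := by
  have h : MvPolynomial.map (Int.castRingHom ℂ) f = MvPolynomial.map (Int.castRingHom ℂ) g := by
    apply MvPolynomial.funext
    intro v
    obtain ⟨A, B, rfl⟩ := exists_traces v
    have h1 := (hf A B).symm.trans (hg A B)
    rw [MvPolynomial.eval_map, MvPolynomial.eval_map]
    exact h1
  exact MvPolynomial.map_injective _ Int.cast_injective h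

theorem IsFricke.conj {w w' : FreeGroup (Fin 2)} {f : MvPolynomial (Fin 3) ℤ}
    (h : IsFricke w f) (hc : IsConj w w') : IsFricke w' f := by
  intro A B
  obtain ⟨c, rfl⟩ := isConj_iff.1 hc
  rw [← h A B, map_mul, map_mul, map_inv]
  rw [Matrix.SpecialLinearGroup.coe_mul, Matrix.trace_mul_comm, ← Matrix.SpecialLinearGroup.coe_mul,
    ← mul_assoc, inv_mul_cancel, one_mul]

/-! ### Bounds for the coefficients -/

/-- all coefficients are at most `M` in absolute value, all exponents of monomials with nonzero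
coefficient are at most `d` -/
def Bd (d M : ℕ) (f : MvPolynomial (Fin 3) ℤ) : Prop :=
  ∀ m, (coeff m f).natAbs ≤ M ∧ (coeff m f ≠ 0 → ∀ i, m i ≤ d)

theorem Bd.mono {d M d' M' : ℕ} {f : MvPolynomial (Fin 3) ℤ} (h : Bd d M f) (hd : d ≤ d')
    (hM : M ≤ M') : Bd d' M' f := fun m =>
  ⟨(h m).1.trans hM, fun h0 i => ((h m).2 h0 i).trans hd⟩

theorem Bd.zero (d M : ℕ) : Bd d M 0 := fun m => by simp

theorem Bd.one (d : ℕ) : Bd d 1 1 := by
  intro m
  rw [coeff_one]
  split_ifs with h
  · subst h; simp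
  · simp

theorem Bd.neg {d M : ℕ} {f : MvPolynomial (Fin 3) ℤ} (h : Bd d M f) : Bd d M (-f) := by
  intro m
  rw [coeff_neg, Int.natAbs_neg]
  exact ⟨(h m).1, fun h0 => (h m).2 (neg_ne_zero.1 h0)⟩

theorem Bd.add {d M M' : ℕ} {f g : MvPolynomial (Fin 3) ℤ} (h : Bd d M f) (h' : Bd d M' g) :
    Bd d (M + M') (f + g) := by
  intro m
  rw [coeff_add]
  refine ⟨(Int.natAbs_add_le _ _).trans (add_le_add (h m).1 (h' m).1), fun h0 => ?_⟩
  by_cases h1 : coeff m f = 0
  · refine (h' m).2 fun h2 => h0 ?_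
    rw [h1, h2, add_zero]
  · exact (h m).2 h1

theorem Bd.sub {d M M' : ℕ} {f g : MvPolynomial (Fin 3) ℤ} (h : Bd d M f) (h' : Bd d M' g) :
    Bd d (M + M') (f - g) := by
  rw [sub_eq_add_neg]; exact h.add h'.neg

theorem Bd.X_mul {d M : ℕ} {f : MvPolynomial (Fin 3) ℤ} (h : Bd d M f) (i : Fin 3) :
    Bd (d + 1) M (X i * f) := by
  classical
  intro m
  rw [coeff_X_mul']
  split_ifs with hi
  · refine ⟨(h _).1, fun h0 j => ?_⟩
    have h1 := (h _).2 h0 j
    rw [Finsupp.tsub_apply, Finsupp.single_apply] at h1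
    split_ifs at h1 <;> omega
  · simp

/-! ### The recursion -/

section rec

variable (A B : SL2)

theorem det_eq (A : SL2) : A.1 0 0 * A.1 1 1 - A.1 0 1 * A.1 1 0 = 1 := by
  rw [← Matrix.det_fin_two]; exact A.2

theorem left_A (g0 g1 g2 g3 : ℂ) :
    A.1 * (g0 • 1 + g1 • A.1 + g2 • B.1 + g3 • (A.1 * B.1)) =
      (-g1) • 1 + (g0 + traces A B 0 * g1) • A.1 + (-g3) • B.1 +
        (g2 + traces A B 0 * g3) • (A.1 * B.1) := by
  have hA := det_eq A
  ext i j
  fin_cases i <;> fin_cases j <;>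
    simp [traces, Matrix.mul_apply, Fin.sum_univ_two, Matrix.trace_fin_two, Matrix.one_apply]
  · linear_combination (-g1 - g3 * B.1 0 0) * hA
  · linear_combination (- g3 * B.1 0 1) * hA
  · linear_combination (- g3 * B.1 1 0) * hA
  · linear_combination (-g1 - g3 * B.1 1 1) * hA

theorem left_B (g0 g1 g2 g3 : ℂ) :
    B.1 * (g0 • 1 + g1 • A.1 + g2 • B.1 + g3 • (A.1 * B.1)) =
      (traces A B 2 * g1 - traces A B 0 * (traces A B 1 * g1) - g2 - traces A B 0 * g3) • 1 +
      (traces A B 1 * g1 + g3) • A.1 +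
      (g0 + traces A B 0 * g1 + traces A B 1 * g2 + traces A B 2 * g3) • B.1 +
        (-g1) • (A.1 * B.1) := by
  have hB := det_eq B
  ext i j
  fin_cases i <;> fin_cases j <;>
    simp [traces, Matrix.mul_apply, Fin.sum_univ_two, Matrix.trace_fin_two, Matrix.one_apply]
  · linear_combination (-g2 + g3 * (A.1 0 0 - (A.1 0 0 + A.1 1 1))) * hB
  · linear_combination (g3 * A.1 0 1) * hB
  · linear_combination (g3 * A.1 1 0) * hB
  · linear_combination (-g2 + g3 * (A.1 1 1 - (A.1 0 0 + A.1 1 1))) * hB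

theorem inv_eq (A : SL2) : (A⁻¹).1 = Matrix.trace A.1 • (1 : Matrix (Fin 2) (Fin 2) ℂ) - A.1 := by
  rw [Matrix.SpecialLinearGroup.coe_inv, Matrix.adjugate_fin_two]
  ext i j
  fin_cases i <;> fin_cases j <;> simp [Matrix.trace_fin_two, Matrix.one_apply]

end rec

/-- a word is represented by four polynomials -/
def Rep (L : List (Fin 2 × Bool)) (g : Fin 4 → MvPolynomial (Fin 3) ℤ) : Prop :=
  ∀ A B : SL2, (wordVal A B (FreeGroup.mk L)).1 =
    (aeval (traces A B) (g 0)) • (1 : Matrix (Fin 2) (Fin 2) ℂ) +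
    (aeval (traces A B) (g 1)) • A.1 + (aeval (traces A B) (g 2)) • B.1 +
    (aeval (traces A B) (g 3)) • (A.1 * B.1)

theorem wordVal_cons (A B : SL2) (x : Fin 2 × Bool) (L : List (Fin 2 × Bool)) :
    wordVal A B (FreeGroup.mk (x :: L)) =
      (cond x.2 (![A, B] x.1) (![A, B] x.1)⁻¹) * wordVal A B (FreeGroup.mk L) := by
  simp [wordVal, FreeGroup.lift_mk]

theorem exists_rep (L : List (Fin 2 × Bool)) : ∃ g : Fin 4 → MvPolynomial (Fin 3) ℤ,
    Rep L g ∧ ∀ j, Bd (2 * L.length) (5 ^ L.length) (g j) := by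
  induction L with
  | nil =>
    refine ⟨![1, 0, 0, 0], fun A B => ?_, fun j => ?_⟩
    · simp [wordVal, FreeGroup.lift_mk]
    · fin_cases j
      · exact Bd.one _
      · exact Bd.zero _ _
      · exact Bd.zero _ _
      · exact Bd.zero _ _
  | cons x L ih =>
    obtain ⟨g, hg, hb⟩ := ih
    obtain ⟨l, e⟩ := x
    rw [List.length_cons]
    set n := L.length with hn
    set M := 5 ^ n with hM
    have hM5 : 5 ^ (n + 1) = 5 * M := by rw [pow_succ]; ring
    rw [hM5]
    -- the polynomials of the left multiplication by `A` and `B`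
    let gA : Fin 4 → MvPolynomial (Fin 3) ℤ :=
      ![-g 1, g 0 + X 0 * g 1, -g 3, g 2 + X 0 * g 3]
    let gB : Fin 4 → MvPolynomial (Fin 3) ℤ :=
      ![X 2 * g 1 - X 0 * (X 1 * g 1) - g 2 - X 0 * g 3, X 1 * g 1 + g 3,
        g 0 + X 0 * g 1 + X 1 * g 2 + X 2 * g 3, -g 1]
    have hb0 : ∀ j, Bd (2 * (n + 1)) M (g j) := fun j => (hb j).mono (by omega) le_rfl
    have hb1 : ∀ i j, Bd (2 * (n + 1)) M (X i * g j) := fun i j =>
      ((hb j).X_mul i).mono (by omega) le_rfl
    have hb2 : ∀ i i' j, Bd (2 * (n + 1)) M (X i * (X i' * g j)) := fun i i' j =>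
      (((hb j).X_mul i').X_mul i).mono (by omega) le_rfl
    have hbA : ∀ j, Bd (2 * (n + 1)) (4 * M) (gA j) := by
      intro j
      fin_cases j
      · exact (hb0 1).neg.mono le_rfl (by omega)
      · exact ((hb0 0).add (hb1 0 1)).mono le_rfl (by omega)
      · exact (hb0 3).neg.mono le_rfl (by omega)
      · exact ((hb0 2).add (hb1 0 3)).mono le_rfl (by omega)
    have hbB : ∀ j, Bd (2 * (n + 1)) (4 * M) (gB j) := by
      intro j
      fin_cases j
      · exact ((((hb1 2 1).sub (hb2 0 1 1)).sub (hb0 2)).sub (hb1 0 3)).mono le_rfl (by omega)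
      · exact ((hb1 1 1).add (hb0 3)).mono le_rfl (by omega)
      · exact ((((hb0 0).add (hb1 0 1)).add (hb1 1 2)).add (hb1 2 3)).mono le_rfl (by omega)
      · exact (hb0 1).neg.mono le_rfl (by omega)
    have hA : ∀ A B : SL2, A.1 * (wordVal A B (FreeGroup.mk L)).1 =
        (aeval (traces A B) (gA 0)) • (1 : Matrix (Fin 2) (Fin 2) ℂ) +
        (aeval (traces A B) (gA 1)) • A.1 + (aeval (traces A B) (gA 2)) • B.1 +
        (aeval (traces A B) (gA 3)) • (A.1 * B.1) := by
      intro A B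
      rw [hg A B, left_A A B]
      simp [gA]
    have hB : ∀ A B : SL2, B.1 * (wordVal A B (FreeGroup.mk L)).1 =
        (aeval (traces A B) (gB 0)) • (1 : Matrix (Fin 2) (Fin 2) ℂ) +
        (aeval (traces A B) (gB 1)) • A.1 + (aeval (traces A B) (gB 2)) • B.1 +
        (aeval (traces A B) (gB 3)) • (A.1 * B.1) := by
      intro A B
      rw [hg A B, left_B A B]
      simp [gB]
    have key : ∀ (i : Fin 3) (gC : Fin 4 → MvPolynomial (Fin 3) ℤ) (N : SL2 → SL2 → SL2),
        (∀ A B, traces A B i = Matrix.trace (N A B).1) →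
        (∀ A B : SL2, (N A B).1 * (wordVal A B (FreeGroup.mk L)).1 =
        (aeval (traces A B) (gC 0)) • (1 : Matrix (Fin 2) (Fin 2) ℂ) +
        (aeval (traces A B) (gC 1)) • A.1 + (aeval (traces A B) (gC 2)) • B.1 +
        (aeval (traces A B) (gC 3)) • (A.1 * B.1)) →
        ∀ A B : SL2, ((N A B)⁻¹ * (wordVal A B (FreeGroup.mk L))).1 =
        (aeval (traces A B) (X i * g 0 - gC 0)) • (1 : Matrix (Fin 2) (Fin 2) ℂ) +
        (aeval (traces A B) (X i * g 1 - gC 1)) • A.1 +
        (aeval (traces A B) (X i * g 2 - gC 2)) • B.1 +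
        (aeval (traces A B) (X i * g 3 - gC 3)) • (A.1 * B.1) := by
      intro i gC N h1 h2 A B
      rw [Matrix.SpecialLinearGroup.coe_mul, inv_eq, Matrix.sub_mul, h2 A B, smul_mul_assoc, one_mul,
        hg A B, ← h1 A B]
      simp only [map_sub, map_mul, aeval_X]
      module
    have hl : l = 0 ∨ l = 1 := by fin_cases l <;> simp
    rcases hl with rfl | rfl
    · cases e
      · refine ⟨fun j => X 0 * g j - gA j, fun A B => ?_, fun j => ?_⟩
        · rw [wordVal_cons]
          exact key 0 gA (fun A _ => A) (fun A B => by simp [traces]) hA A B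
        · exact ((hb1 0 j).sub (hbA j)).mono le_rfl (by omega)
      · refine ⟨gA, fun A B => ?_, fun j => (hbA j).mono le_rfl (by omega)⟩
        rw [wordVal_cons, ← hA A B]
        rfl
    · cases e
      · refine ⟨fun j => X 1 * g j - gB j, fun A B => ?_, fun j => ?_⟩
        · rw [wordVal_cons]
          exact key 1 gB (fun _ B => B) (fun A B => by simp [traces]) hB A B
        · exact ((hb1 1 j).sub (hbB j)).mono le_rfl (by omega)
      · refine ⟨gB, fun A B => ?_, fun j => (hbB j).mono le_rfl (by omega)⟩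
        rw [wordVal_cons, ← hB A B]
        rfl

theorem exists_fricke (L : List (Fin 2 × Bool)) : ∃ f : MvPolynomial (Fin 3) ℤ,
    IsFricke (FreeGroup.mk L) f ∧ Bd (2 * L.length + 1) (5 ^ (L.length + 1)) f := by
  obtain ⟨g, hg, hb⟩ := exists_rep L
  refine ⟨g 0 + g 0 + X 0 * g 1 + X 1 * g 2 + X 2 * g 3, fun A B => ?_, ?_⟩
  · rw [hg A B]
    simp only [map_add, map_mul, aeval_X, Matrix.trace_add, Matrix.trace_smul, Matrix.trace_one,
      Fintype.card_fin, smul_eq_mul]
    have h0 : traces A B 0 = Matrix.trace A.1 := rfl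
    have h1 : traces A B 1 = Matrix.trace B.1 := rfl
    have h2 : traces A B 2 = Matrix.trace (A.1 * B.1) := rfl
    rw [h0, h1, h2]
    push_cast
    ring
  · have hb0 := fun j => (hb j).mono (Nat.le_succ _) le_rfl
    have hM5 : 5 ^ (L.length + 1) = 5 * 5 ^ L.length := by rw [pow_succ]; ring
    rw [hM5]
    exact (((((hb0 0).add (hb0 0)).add ((hb 1).X_mul 0)).add ((hb 2).X_mul 1)).add
      ((hb 3).X_mul 2)).mono le_rfl (by omega)

theorem bitSize_le {d M k : ℕ} {f : MvPolynomial (Fin 3) ℤ} (h : Bd d M f) (hM : M < 2 ^ k) :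
    bitSize f ≤ (d + 1) ^ 3 * k := by
  classical
  have h1 : bitSize f ≤ f.support.card * k := by
    rw [bitSize, ← smul_eq_mul]
    apply Finset.sum_le_card_nsmul
    intro m _
    rw [Nat.size_le]
    exact (h m).1.trans_lt hM
  refine h1.trans (Nat.mul_le_mul_right _ ?_)
  have h2 : f.support.card ≤ (Fintype.piFinset fun _ : Fin 3 => Finset.range (d + 1)).card := by
    apply Finset.card_le_card_of_injOn (fun m : Fin 3 →₀ ℕ => (⇑m : Fin 3 → ℕ))
    · intro m hm
      rw [Finset.mem_coe, Fintype.mem_piFinset]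
      intro i
      rw [Finset.mem_range, Nat.lt_succ_iff]
      exact (h m).2 (mem_support_iff.1 hm) i
    · intro m _ m' _ hmm
      exact DFunLike.coe_injective hmm
  refine h2.trans ?_
  rw [Fintype.card_piFinset]
  simp

theorem sizes_le {n s : ℕ} (hs : s ∈ sizes n) : s ≤ 24 * (n + 1) ^ 4 := by
  obtain ⟨w, f, ⟨L, -, hL, hc⟩, hf, rfl⟩ := hs
  obtain ⟨f', hf', hb⟩ := exists_fricke L
  have := fricke_unique hf (hf'.conj hc)
  subst this
  rw [hL] at hb
  refine (bitSize_le hb (k := 3 * (n + 1)) ?_).trans ?_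
  · rw [pow_mul]
    exact Nat.pow_lt_pow_left (by norm_num) (by omega)
  · have : (2 * n + 1 + 1) ^ 3 * (3 * (n + 1)) = 24 * (n + 1) ^ 4 := by ring
    exact this.le

/-! ### The polynomials `V n` (`V (n+1)` is the rescaled Chebyshev polynomial `S_n`) -/

/-- `V 0 = 0`, `V 1 = 1`, `V (n+2) = X V (n+1) - V n` -/
noncomputable def V : ℕ → Polynomial ℤ
  | 0 => 0
  | 1 => 1
  | (n + 2) => Polynomial.X * V (n + 1) - V n

theorem V_add_two (n : ℕ) : V (n + 2) = Polynomial.X * V (n + 1) - V n := by rw [V]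

theorem V_coeff_zero_of_le (n : ℕ) : ∀ t, n ≤ t → (V n).coeff t = 0 := by
  induction n using Nat.strong_induction_on with
  | _ n ih =>
    match n, ih with
    | 0, _ => intro t _; simp [V]
    | 1, _ =>
      intro t ht
      rw [V, Polynomial.coeff_one, if_neg (by omega)]
    | n + 2, ih =>
      intro t ht
      obtain ⟨t, rfl⟩ : ∃ s, t = s + 1 := ⟨t - 1, by omega⟩
      rw [V_add_two, Polynomial.coeff_sub, Polynomial.coeff_X_mul, ih (n + 1) (by omega) _ (by omega),
        ih n (by omega) _ (by omega), sub_zero]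

theorem V_coeff_parity (n : ℕ) : ∀ t, Even (n + t) → (V n).coeff t = 0 := by
  induction n using Nat.strong_induction_on with
  | _ n ih =>
    match n, ih with
    | 0, _ => intro t _; simp [V]
    | 1, _ =>
      intro t ht
      rw [V, Polynomial.coeff_one, if_neg]
      rintro rfl
      exact absurd ht (by decide)
    | n + 2, ih =>
      intro t ht
      have h2 : (V n).coeff t = 0 := by
        apply ih n (by omega)
        rw [Nat.even_iff] at ht ⊢
        omega
      cases t with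
      | zero => rw [V_add_two, Polynomial.coeff_sub, Polynomial.mul_coeff_zero, h2]; simp
      | succ t =>
        rw [V_add_two, Polynomial.coeff_sub, Polynomial.coeff_X_mul, h2, ih (n + 1) (by omega),
          sub_zero]
        rw [Nat.even_iff] at ht ⊢
        omega

theorem V_coeff (i : ℕ) : ∀ t, (V (t + 2 * i + 1)).coeff t = (-1) ^ i * ((t + i).choose i : ℤ) := by
  induction i with
  | zero =>
    intro t
    induction t with
    | zero => simp [V]
    | succ t ih =>
      have h1 : t + 1 + 2 * 0 + 1 = t + 2 := by ring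
      rw [h1, V_add_two, Polynomial.coeff_sub, Polynomial.coeff_X_mul,
        V_coeff_zero_of_le t _ (by omega)]
      simpa using ih
  | succ i ihi =>
    intro t
    induction t with
    | zero =>
      have h1 : 0 + 2 * (i + 1) + 1 = (2 * i + 1) + 2 := by ring
      rw [h1, V_add_two, Polynomial.coeff_sub, Polynomial.mul_coeff_zero]
      have h2 := ihi 0
      rw [zero_add] at h2
      rw [h2]
      simp [pow_succ]
    | succ t iht =>
      have h1 : t + 1 + 2 * (i + 1) + 1 = (t + 2 * i + 2) + 2 := by ring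
      have h2 : t + 2 * (i + 1) + 1 = t + 2 * i + 2 + 1 := by ring
      have h3 : t + 1 + 2 * i + 1 = t + 2 * i + 2 := by ring
      have h4 := ihi (t + 1)
      rw [h3] at h4
      rw [h2] at iht
      rw [h1, V_add_two, Polynomial.coeff_sub, Polynomial.coeff_X_mul, iht, h4]
      have h5 : t + 1 + (i + 1) = (t + i + 1) + 1 := by ring
      have h6 : t + (i + 1) = t + i + 1 := by ring
      have h7 : t + 1 + i = t + i + 1 := by ring
      rw [h5, h6, h7, Nat.choose_succ_succ (t + i + 1) i]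
      push_cast
      ring

/-! ### Products of one-variable polynomials -/

/-- `P(x) Q(y) R(z)` -/
noncomputable def T (P Q R : Polynomial ℤ) : MvPolynomial (Fin 3) ℤ :=
  Polynomial.aeval (X 0) P * Polynomial.aeval (X 1) Q * Polynomial.aeval (X 2) R

theorem coeff_T_monomial (a b c : ℕ) (u v w : ℤ) (m : Fin 3 →₀ ℕ) :
    coeff m (T (Polynomial.monomial a u) (Polynomial.monomial b v) (Polynomial.monomial c w)) =
      (Polynomial.monomial a u).coeff (m 0) * (Polynomial.monomial b v).coeff (m 1) *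
        (Polynomial.monomial c w).coeff (m 2) := by
  classical
  have h1 : T (Polynomial.monomial a u) (Polynomial.monomial b v) (Polynomial.monomial c w) =
      MvPolynomial.monomial (Finsupp.single 0 a + Finsupp.single 1 b + Finsupp.single 2 c)
        (u * v * w) := by
    simp only [T, Polynomial.aeval_monomial, MvPolynomial.algebraMap_eq]
    rw [MvPolynomial.X_pow_eq_monomial, MvPolynomial.X_pow_eq_monomial,
      MvPolynomial.X_pow_eq_monomial, MvPolynomial.C_mul_monomial, MvPolynomial.C_mul_monomial,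
      MvPolynomial.C_mul_monomial, MvPolynomial.monomial_mul, MvPolynomial.monomial_mul]
    simp
  have h2 : (Finsupp.single 0 a + Finsupp.single 1 b + Finsupp.single 2 c = m) ↔
      a = m 0 ∧ b = m 1 ∧ c = m 2 := by
    constructor
    · rintro rfl
      simp
    · rintro ⟨h0, h1, h2⟩
      ext i
      fin_cases i <;> simp [h0, h1, h2]
  rw [h1, MvPolynomial.coeff_monomial]
  simp only [Polynomial.coeff_monomial]
  by_cases h : (Finsupp.single 0 a + Finsupp.single 1 b + Finsupp.single 2 c = m)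
  · have h' := h2.1 h
    rw [if_pos h, if_pos h'.1, if_pos h'.2.1, if_pos h'.2.2]
  · rw [if_neg h]
    rw [h2] at h
    push Not at h
    by_cases h0 : a = m 0
    · by_cases h1 : b = m 1
      · rw [if_neg (h h0 h1), mul_zero]
      · rw [if_neg h1, mul_zero, zero_mul]
    · rw [if_neg h0, zero_mul, zero_mul]

theorem coeff_T (P Q R : Polynomial ℤ) (m : Fin 3 →₀ ℕ) :
    coeff m (T P Q R) = P.coeff (m 0) * Q.coeff (m 1) * R.coeff (m 2) := by
  induction P using Polynomial.induction_on' with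
  | add P P' hP hP' =>
    have : T (P + P') Q R = T P Q R + T P' Q R := by simp only [T, map_add]; ring
    rw [this, coeff_add, hP, hP', Polynomial.coeff_add]; ring
  | monomial a u =>
    induction Q using Polynomial.induction_on' with
    | add Q Q' hQ hQ' =>
      have : T (Polynomial.monomial a u) (Q + Q') R =
        T (Polynomial.monomial a u) Q R + T (Polynomial.monomial a u) Q' R := by
        simp only [T, map_add]; ring
      rw [this, coeff_add, hQ, hQ', Polynomial.coeff_add]; ring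
    | monomial b v =>
      induction R using Polynomial.induction_on' with
      | add R R' hR hR' =>
        have : T (Polynomial.monomial a u) (Polynomial.monomial b v) (R + R') =
          T (Polynomial.monomial a u) (Polynomial.monomial b v) R +
          T (Polynomial.monomial a u) (Polynomial.monomial b v) R' := by
          simp only [T, map_add]; ring
        rw [this, coeff_add, hR, hR', Polynomial.coeff_add]; ring
      | monomial c w => exact coeff_T_monomial a b c u v w m

/-! ### The words `a^p b^q (ab)^r` -/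

theorem pow_eq (M : SL2) (k : ℕ) : ((M ^ (k + 1) : SL2)).1 =
    (Polynomial.aeval (Matrix.trace M.1) (V (k + 1))) • M.1 -
      (Polynomial.aeval (Matrix.trace M.1) (V k)) • (1 : Matrix (Fin 2) (Fin 2) ℂ) := by
  induction k with
  | zero => simp [V]
  | succ k ih =>
    rw [pow_succ, Matrix.SpecialLinearGroup.coe_mul, ih, Matrix.sub_mul, smul_mul_assoc,
      smul_mul_assoc, one_mul, V_add_two]
    have h2 : M.1 * M.1 = Matrix.trace M.1 • M.1 - (1 : Matrix (Fin 2) (Fin 2) ℂ) := by
      have hA := det_eq M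
      ext i j
      fin_cases i <;> fin_cases j <;>
        simp [Matrix.mul_apply, Fin.sum_univ_two, Matrix.trace_fin_two]
      · linear_combination - hA
      · ring
      · ring
      · linear_combination - hA
    rw [h2]
    simp only [map_sub, map_mul, Polynomial.aeval_X]
    module

/-- the positive word `a^p b^q (ab)^r` -/
def word (p q r : ℕ) : List (Fin 2 × Bool) :=
  List.replicate p (0, true) ++ List.replicate q (1, true) ++
    (List.replicate r [((0 : Fin 2), true), (1, true)]).flatten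

theorem word_length (p q r : ℕ) : (word p q r).length = p + q + 2 * r := by
  simp [word]
  ring

theorem word_pos (p q r : ℕ) : ∀ x ∈ word p q r, x.2 = true := by
  intro x hx
  simp only [word, List.mem_append, List.mem_replicate, List.mem_flatten] at hx
  rcases hx with (⟨-, rfl⟩ | ⟨-, rfl⟩) | ⟨l, ⟨-, rfl⟩, hx⟩
  · rfl
  · rfl
  · simp at hx
    rcases hx with rfl | rfl <;> rfl

theorem cycRed_of_pos {L : List (Fin 2 × Bool)} (h : ∀ x ∈ L, x.2 = true) :
    FreeGroup.IsCyclicallyReduced L := by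
  refine ⟨?_, ?_⟩
  · apply List.Pairwise.isChain
    rw [List.pairwise_iff_forall_sublist]
    intro a b hab _
    have ha := hab.subset (List.mem_cons_self)
    have hb := hab.subset (List.mem_cons_of_mem _ List.mem_cons_self)
    rw [h a ha, h b hb]
  · intro a ha b hb _
    rw [h a (List.mem_of_getLast? ha), h b (List.mem_of_head? hb)]

theorem wordVal_word (A B : SL2) (p q r : ℕ) :
    wordVal A B (FreeGroup.mk (word p q r)) = A ^ p * B ^ q * (A * B) ^ r := by
  rw [wordVal, FreeGroup.lift_mk, word, List.map_append, List.map_append, List.prod_append,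
    List.prod_append]
  congr 1
  · simp
  · induction r with
    | zero => simp
    | succ r ih =>
      rw [List.replicate_succ, List.flatten_cons, List.map_append, List.prod_append, ih, pow_succ']
      simp

theorem trace_formula (A B : SL2) (P P₁ Q Q₁ R R₁ : ℂ) :
    Matrix.trace ((P • A.1 - P₁ • (1 : Matrix (Fin 2) (Fin 2) ℂ)) *
      (Q • B.1 - Q₁ • (1 : Matrix (Fin 2) (Fin 2) ℂ)) *
      (R • (A * B).1 - R₁ • (1 : Matrix (Fin 2) (Fin 2) ℂ))) =
    P * Q * (traces A B 2 * (traces A B 2 * R - R₁)) - 2 * (P * Q * R)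
      - (traces A B 0 * P) * Q₁ * (traces A B 2 * R) + P * (traces A B 1 * Q₁) * R
      + (traces A B 0 * P) * Q₁ * R₁ - P₁ * (traces A B 1 * Q) * (traces A B 2 * R)
      + (traces A B 0 * P₁) * Q * R + P₁ * (traces A B 1 * Q) * R₁ + P₁ * Q₁ * (traces A B 2 * R)
      - 2 * (P₁ * Q₁ * R₁) := by
  have hA := det_eq A
  have hB := det_eq B
  simp only [traces, Matrix.trace_fin_two, Matrix.SpecialLinearGroup.coe_mul, Matrix.mul_apply,
    Fin.sum_univ_two, Matrix.sub_apply, Matrix.smul_apply, smul_eq_mul, Matrix.one_apply]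
  simp
  linear_combination (-2 * P * Q * R * (B.1 0 0 * B.1 1 1 - B.1 0 1 * B.1 1 0) +
    P * Q₁ * R * (B.1 0 0 + B.1 1 1)) * hA +
    (-2 * P * Q * R + P₁ * Q * R * (A.1 0 0 + A.1 1 1)) * hB

/-- the trace polynomial of `a^(p+1) b^(q+1) (ab)^(r+1)` -/
noncomputable def F (p q r : ℕ) : MvPolynomial (Fin 3) ℤ :=
  T (V (p + 1)) (V (q + 1)) (Polynomial.X * V (r + 2)) - 2 * T (V (p + 1)) (V (q + 1)) (V (r + 1))
  - T (Polynomial.X * V (p + 1)) (V q) (Polynomial.X * V (r + 1))
  + T (V (p + 1)) (Polynomial.X * V q) (V (r + 1))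
  + T (Polynomial.X * V (p + 1)) (V q) (V r)
  - T (V p) (Polynomial.X * V (q + 1)) (Polynomial.X * V (r + 1))
  + T (Polynomial.X * V p) (V (q + 1)) (V (r + 1))
  + T (V p) (Polynomial.X * V (q + 1)) (V r)
  + T (V p) (V q) (Polynomial.X * V (r + 1))
  - 2 * T (V p) (V q) (V r)

theorem aeval_T (v : Fin 3 → ℂ) (P Q R : Polynomial ℤ) :
    aeval v (T P Q R) = Polynomial.aeval (v 0) P * Polynomial.aeval (v 1) Q *
      Polynomial.aeval (v 2) R := by
  simp only [T, map_mul]
  rw [← Polynomial.aeval_algHom_apply, ← Polynomial.aeval_algHom_apply,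
    ← Polynomial.aeval_algHom_apply, aeval_X, aeval_X, aeval_X]

theorem isFricke_F (p q r : ℕ) :
    IsFricke (FreeGroup.mk (word (p + 1) (q + 1) (r + 1))) (F p q r) := by
  intro A B
  rw [wordVal_word, Matrix.SpecialLinearGroup.coe_mul, Matrix.SpecialLinearGroup.coe_mul,
    pow_eq, pow_eq, pow_eq, trace_formula]
  have h0 : Matrix.trace A.1 = traces A B 0 := rfl
  have h1 : Matrix.trace B.1 = traces A B 1 := rfl
  have h2 : Matrix.trace (A * B).1 = traces A B 2 := rfl
  rw [h0, h1, h2, F]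
  simp only [map_sub, map_add, map_mul, aeval_T, V_add_two, Polynomial.aeval_X, map_ofNat]

theorem X_mul_V_coeff (n t : ℕ) : (Polynomial.X * V (n + 1)).coeff t =
    (V (n + 2)).coeff t + (V n).coeff t := by
  rw [V_add_two, Polynomial.coeff_sub]; ring

theorem X_mul_V_parity (n t : ℕ) (h : Odd (n + t)) : (Polynomial.X * V n).coeff t = 0 := by
  cases t with
  | zero => simp
  | succ t =>
    rw [Polynomial.coeff_X_mul, V_coeff_parity]
    rw [Nat.odd_iff] at h
    rw [Nat.even_iff]
    omega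

theorem coeff_F (a b c i j k : ℕ) (m : Fin 3 →₀ ℕ) (h0 : m 0 = a) (h1 : m 1 = b)
    (h2 : m 2 = c + 1) :
    coeff m (F (a + 2 * i + 2) (b + 2 * j + 2) (c + 2 * k + 1)) = (-1) ^ (i + j + k + 1) *
      (((a + (i + 1)).choose (i + 1) * (b + (j + 1)).choose (j + 1) * (c + (k + 1)).choose (k + 1) +
        (c + 1 + k).choose k * ((a + (i + 1)).choose (i + 1) * (b + j).choose j +
          (b + (j + 1)).choose (j + 1) * (a + i).choose i) : ℕ) : ℤ) := by
  have hP := V_coeff (i + 1) a
  have hP' := V_coeff i a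
  have hQ := V_coeff (j + 1) b
  have hQ' := V_coeff j b
  have hR := V_coeff k (c + 1)
  have hR2 := V_coeff (k + 1) c
  have eP : a + 2 * (i + 1) + 1 = a + 2 * i + 2 + 1 := by ring
  have eQ : b + 2 * (j + 1) + 1 = b + 2 * j + 2 + 1 := by ring
  have eR : c + 1 + 2 * k + 1 = c + 2 * k + 1 + 1 := by ring
  have eR2 : c + 2 * (k + 1) + 1 = c + 2 * k + 1 + 2 := by ring
  rw [eP] at hP
  rw [eQ] at hQ
  rw [eR] at hR
  rw [eR2] at hR2
  have hXP : (Polynomial.X * V (a + 2 * i + 2)).coeff a =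
      (V (a + 2 * i + 2 + 1)).coeff a + (V (a + 2 * i + 1)).coeff a :=
    X_mul_V_coeff (a + 2 * i + 1) a
  have hXQ : (Polynomial.X * V (b + 2 * j + 2)).coeff b =
      (V (b + 2 * j + 2 + 1)).coeff b + (V (b + 2 * j + 1)).coeff b :=
    X_mul_V_coeff (b + 2 * j + 1) b
  have hz1 : (Polynomial.X * V (a + 2 * i + 2 + 1)).coeff a = 0 := by
    apply X_mul_V_parity
    rw [Nat.odd_iff]; omega
  have hz2 : (V (a + 2 * i + 2)).coeff a = 0 := by
    apply V_coeff_parity
    rw [Nat.even_iff]; omega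
  have htwo : ∀ f : MvPolynomial (Fin 3) ℤ, coeff m (2 * f) = 2 * coeff m f := by
    intro f
    rw [two_mul, coeff_add, two_mul]
  rw [F]
  simp only [coeff_add, coeff_sub, htwo, coeff_T, h0, h1, h2, Polynomial.coeff_X_mul (n := c)]
  rw [hz1, hz2, hXP, hXQ, hR2, hR, hP, hQ, hP', hQ']
  push_cast
  ring

theorem two_pow_le_choose {a i : ℕ} (h : i ≤ a) : 2 ^ i ≤ (a + i).choose i := by
  have h1 : ∀ n : ℕ, 2 ^ n ≤ Nat.centralBinom n := by
    intro n
    induction n with
    | zero => simp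
    | succ n ih =>
      have h2 := Nat.succ_mul_centralBinom_succ n
      have h3 : (n + 1) * (2 * Nat.centralBinom n) ≤ (n + 1) * Nat.centralBinom (n + 1) := by
        rw [h2]
        nlinarith [Nat.zero_le (Nat.centralBinom n)]
      have h4 := Nat.le_of_mul_le_mul_left h3 (Nat.succ_pos n)
      rw [pow_succ]
      omega
  refine (h1 i).trans ?_
  rw [Nat.centralBinom, two_mul]
  exact Nat.choose_le_choose i (by omega)

theorem size_coeff_F (a b c i j k : ℕ) (hi : i + 1 ≤ a) (m : Fin 3 →₀ ℕ) (h0 : m 0 = a)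
    (h1 : m 1 = b) (h2 : m 2 = c + 1) :
    i + 1 < Nat.size (coeff m (F (a + 2 * i + 2) (b + 2 * j + 2) (c + 2 * k + 1))).natAbs := by
  rw [Nat.lt_size, coeff_F a b c i j k m h0 h1 h2, Int.natAbs_mul, Int.natAbs_pow,
    Int.natAbs_neg, Int.natAbs_one, one_pow, one_mul, Int.natAbs_natCast]
  have h3 := two_pow_le_choose hi
  have h4 : 0 < (b + (j + 1)).choose (j + 1) := Nat.choose_pos (by omega)
  have h5 : 0 < (c + (k + 1)).choose (k + 1) := Nat.choose_pos (by omega)
  calc 2 ^ (i + 1) ≤ (a + (i + 1)).choose (i + 1) := h3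
    _ ≤ (a + (i + 1)).choose (i + 1) * ((b + (j + 1)).choose (j + 1) *
        (c + (k + 1)).choose (k + 1)) := Nat.le_mul_of_pos_right _ (Nat.mul_pos h4 h5)
    _ = (a + (i + 1)).choose (i + 1) * (b + (j + 1)).choose (j + 1) *
        (c + (k + 1)).choose (k + 1) := by ring
    _ ≤ _ := Nat.le_add_right _ _

theorem bitSize_F (p q r u : ℕ) (hp : 6 * u ≤ p) (hq : 2 * u ≤ q) (hr : 2 * u ≤ r) :
    u ^ 4 ≤ bitSize (F p q r) := by
  classical
  let mm : ℕ × ℕ × ℕ → (Fin 3 →₀ ℕ) := fun t =>
    Finsupp.single 0 (p - 2 * (u + t.1) - 2) + Finsupp.single 1 (q - 2 * t.2.1 - 2) +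
      Finsupp.single 2 (r - 2 * t.2.2)
  have hmm0 : ∀ t, mm t 0 = p - 2 * (u + t.1) - 2 := fun t => by simp [mm]
  have hmm1 : ∀ t, mm t 1 = q - 2 * t.2.1 - 2 := fun t => by simp [mm]
  have hmm2 : ∀ t, mm t 2 = r - 2 * t.2.2 := fun t => by simp [mm]
  let I : Finset (ℕ × ℕ × ℕ) := Finset.range u ×ˢ (Finset.range u ×ˢ Finset.range u)
  have hI : ∀ t ∈ I, t.1 < u ∧ t.2.1 < u ∧ t.2.2 < u := by
    intro t ht
    simpa [I, Finset.mem_product] using ht
  have hsize : ∀ t ∈ I, u ≤ Nat.size (coeff (mm t) (F p q r)).natAbs := by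
    intro t ht
    obtain ⟨h1, h2, h3⟩ := hI t ht
    have h4 := size_coeff_F (p - 2 * (u + t.1) - 2) (q - 2 * t.2.1 - 2) (r - 2 * t.2.2 - 1)
      (u + t.1) t.2.1 t.2.2 (by omega) (mm t) (hmm0 t) (hmm1 t) (by rw [hmm2 t]; omega)
    have e1 : p - 2 * (u + t.1) - 2 + 2 * (u + t.1) + 2 = p := by omega
    have e2 : q - 2 * t.2.1 - 2 + 2 * t.2.1 + 2 = q := by omega
    have e3 : r - 2 * t.2.2 - 1 + 2 * t.2.2 + 1 = r := by omega
    rw [e1, e2, e3] at h4
    omega
  have hinj : Set.InjOn mm I := by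
    intro t ht t' ht' h
    obtain ⟨h1, h2, h3⟩ := hI t ht
    obtain ⟨h1', h2', h3'⟩ := hI t' ht'
    have e0 := DFunLike.congr_fun h 0
    have e1 := DFunLike.congr_fun h 1
    have e2 := DFunLike.congr_fun h 2
    rw [hmm0, hmm0] at e0
    rw [hmm1, hmm1] at e1
    rw [hmm2, hmm2] at e2
    ext
    · omega
    · omega
    · omega
  rcases Nat.eq_zero_or_pos u with rfl | hu
  · simp
  have hsub : I.image mm ⊆ (F p q r).support := by
    intro m hm
    obtain ⟨t, ht, rfl⟩ := Finset.mem_image.1 hm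
    rw [mem_support_iff]
    intro h0
    have := hsize t ht
    rw [h0] at this
    simp at this
    omega
  calc u ^ 4 = I.card * u := by
        simp only [I, Finset.card_product, Finset.card_range]; ring
    _ = ∑ t ∈ I, u := by rw [Finset.sum_const, smul_eq_mul]
    _ ≤ ∑ t ∈ I, Nat.size (coeff (mm t) (F p q r)).natAbs := Finset.sum_le_sum hsize
    _ = ∑ m ∈ I.image mm, Nat.size (coeff m (F p q r)).natAbs := by
        rw [Finset.sum_image hinj]
    _ ≤ bitSize (F p q r) := Finset.sum_le_sum_of_subset hsub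

theorem bddAbove_sizes (n : ℕ) : BddAbove (sizes n) := ⟨24 * (n + 1) ^ 4, fun _ hs => sizes_le hs⟩

theorem pos_mem_sizes {L : List (Fin 2 × Bool)} (h : ∀ x ∈ L, x.2 = true) {f}
    (hf : IsFricke (FreeGroup.mk L) f) : bitSize f ∈ sizes L.length :=
  ⟨FreeGroup.mk L, f, ⟨L, cycRed_of_pos h, rfl, IsConj.refl _⟩, hf, rfl⟩

theorem sizes_nonempty (n : ℕ) : (sizes n).Nonempty := by
  obtain ⟨f, hf, -⟩ := exists_fricke (List.replicate n (0, true))
  refine ⟨bitSize f, ?_⟩
  have := pos_mem_sizes (L := List.replicate n (0, true)) (by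
    intro x hx
    rw [(List.mem_replicate.1 hx).2]) hf
  rwa [List.length_replicate] at this

theorem lower (n : ℕ) (hn : 16 ≤ n) : (n / 16) ^ 4 ≤ S n := by
  set u := n / 16 with hu
  have h1 : 16 * u ≤ n := Nat.mul_div_le n 16
  have h2 := bitSize_F (n - 4 - 6 * u) (2 * u) (2 * u) u (by omega) le_rfl le_rfl
  refine h2.trans (le_csSup (bddAbove_sizes n) ?_)
  have h3 := pos_mem_sizes (word_pos (n - 4 - 6 * u + 1) (2 * u + 1) (2 * u + 1))
    (isFricke_F _ _ _)
  rw [word_length] at h3
  have h4 : n - 4 - 6 * u + 1 + (2 * u + 1) + 2 * (2 * u + 1) = n := by omega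
  rwa [h4] at h3

theorem upper (n : ℕ) : S n ≤ 24 * (n + 1) ^ 4 :=
  csSup_le (sizes_nonempty n) fun _ hs => sizes_le hs

theorem exists_unique_fricke (w : FreeGroup (Fin 2)) : ∃! f, IsFricke w f := by
  obtain ⟨f, hf, -⟩ := exists_fricke w.toWord
  rw [FreeGroup.mk_toWord] at hf
  exact ⟨f, hf, fun g hg => fricke_unique hg hf⟩

theorem isGreatest (n : ℕ) : IsGreatest (sizes n) (S n) :=
  ⟨Nat.sSup_mem (sizes_nonempty n) (bddAbove_sizes n), fun _ hs => le_csSup (bddAbove_sizes n) hs⟩

theorem growth : (fun n : ℕ => (S n : ℝ)) =Θ[Filter.atTop] fun n : ℕ => (n : ℝ) ^ 4 := by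
  constructor
  · refine Asymptotics.IsBigO.of_bound 384 ?_
    filter_upwards [Filter.eventually_ge_atTop 1] with n hn
    rw [Real.norm_of_nonneg (Nat.cast_nonneg _), Real.norm_of_nonneg (by positivity)]
    have h1 : S n ≤ 384 * n ^ 4 := by
      refine (upper n).trans ?_
      calc 24 * (n + 1) ^ 4 ≤ 24 * (n + n) ^ 4 := by gcongr
        _ = 384 * n ^ 4 := by ring
    exact_mod_cast h1
  · refine Asymptotics.IsBigO.of_bound (32 ^ 4) ?_
    filter_upwards [Filter.eventually_ge_atTop 16] with n hn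
    rw [Real.norm_of_nonneg (by positivity), Real.norm_of_nonneg (Nat.cast_nonneg _)]
    have h1 : n ^ 4 ≤ 32 ^ 4 * S n := by
      calc n ^ 4 ≤ (32 * (n / 16)) ^ 4 := by
            apply Nat.pow_le_pow_left
            omega
        _ = 32 ^ 4 * (n / 16) ^ 4 := by ring
        _ ≤ 32 ^ 4 * S n := Nat.mul_le_mul_left _ (lower n hn)
    exact_mod_cast h1

end Pool.Agent.R359.Fricke
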