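import Pool.Agent.R684.VG.Stm

set_option autoImplicit false

/-!
# Derivations of groups of given deficiency into permutation modules (piece ZD of project GP)
-/

namespace Pool.Agent.R359.GPZD

open Pool.Agent.R684.VG

namespace ZDaux

variable {X : Type} (rels : Set (FreeGroup X)) (H : Subgroup (PresentedGroup rels))

/-- the permutation module -/
abbrev Mm := (PresentedGroup rels ⧸ H) → ℂ

/-- the projection -/
abbrev pr : FreeGroup X →* PresentedGroup rels := PresentedGroup.mk rels

/-- the action on functions -/
def act (g : PresentedGroup rels) (m : Mm rels H) : Mm rels H := fun x => m (g⁻¹ • x)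

theorem act_apply (g : PresentedGroup rels) (m : Mm rels H) (x : PresentedGroup rels ⧸ H) :
    act rels H g m x = m (g⁻¹ • x) := rfl

theorem act_mul (g h : PresentedGroup rels) (m : Mm rels H) :
    act rels H (g * h) m = act rels H g (act rels H h m) := by
  funext x
  rw [act_apply, act_apply, act_apply, mul_inv_rev, mul_smul]

theorem act_one (m : Mm rels H) : act rels H 1 m = m := by
  funext x
  rw [act_apply, inv_one, one_smul]

theorem act_inv_act (g : PresentedGroup rels) (m : Mm rels H) :
    act rels H g⁻¹ (act rels H g m) = m := by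
  rw [← act_mul, inv_mul_cancel, act_one]

theorem act_act_inv (g : PresentedGroup rels) (m : Mm rels H) :
    act rels H g (act rels H g⁻¹ m) = m := by
  rw [← act_mul, mul_inv_cancel, act_one]

theorem act_add (g : PresentedGroup rels) (m n : Mm rels H) :
    act rels H g (m + n) = act rels H g m + act rels H g n := rfl
theorem act_sub (g : PresentedGroup rels) (m n : Mm rels H) :
    act rels H g (m - n) = act rels H g m - act rels H g n := rfl
theorem act_neg (g : PresentedGroup rels) (m : Mm rels H) :
    act rels H g (-m) = -act rels H g m := rfl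
theorem act_smul (g : PresentedGroup rels) (a : ℂ) (m : Mm rels H) :
    act rels H g (a • m) = a • act rels H g m := rfl
theorem act_zero (g : PresentedGroup rels) : act rels H g 0 = 0 := rfl

/-- affine permutation -/
def A1 (φ : Mm rels H) (g : PresentedGroup rels) : Equiv.Perm (Mm rels H) where
  toFun m := φ + act rels H g m
  invFun m := act rels H g⁻¹ (m - φ)
  left_inv m := by
    show act rels H g⁻¹ (φ + act rels H g m - φ) = m
    rw [add_sub_cancel_left, act_inv_act]
  right_inv m := by
    show φ + act rels H g (act rels H g⁻¹ (m - φ)) = m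
    rw [act_act_inv, add_sub_cancel]

/-- the affine action -/
def Aff (φ : X → Mm rels H) : FreeGroup X →* Equiv.Perm (Mm rels H) :=
  FreeGroup.lift (fun x => A1 rels H (φ x) (pr rels (FreeGroup.of x)))

theorem Aff_of (φ : X → Mm rels H) (x : X) (m : Mm rels H) :
    Aff rels H φ (FreeGroup.of x) m = φ x + act rels H (pr rels (FreeGroup.of x)) m := by
  unfold Aff
  rw [FreeGroup.lift_apply_of]
  rfl

theorem Aff_eq (φ : X → Mm rels H) (g : FreeGroup X) :
    ∀ m, Aff rels H φ g m = Aff rels H φ g 0 + act rels H (pr rels g) m := by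
  have hinv : ∀ g : FreeGroup X,
      (∀ m, Aff rels H φ g m = Aff rels H φ g 0 + act rels H (pr rels g) m) →
      ∀ m, Aff rels H φ g⁻¹ m = Aff rels H φ g⁻¹ 0 + act rels H (pr rels g⁻¹) m := by
    intro g hg
    have h1 : ∀ m, Aff rels H φ g⁻¹ m = act rels H (pr rels g)⁻¹ (m - Aff rels H φ g 0) := by
      intro m
      have h2 : Aff rels H φ g (act rels H (pr rels g)⁻¹ (m - Aff rels H φ g 0)) = m := by
        rw [hg, act_act_inv, add_sub_cancel]
      rw [map_inv]
      rw [Equiv.Perm.inv_eq_iff_eq]
      exact h2.symm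
    intro m
    rw [h1 m, h1 0, act_sub, act_sub, act_zero, zero_sub, map_inv]
    abel
  induction g using FreeGroup.induction_on with
  | C1 => intro m; rw [map_one, map_one, act_one]; simp
  | of x =>
    intro m
    have e1 := Aff_of rels H φ x m
    have e2 := Aff_of rels H φ x 0
    rw [act_zero, add_zero] at e2
    exact e1.trans (by rw [← e2])
  | inv_of x h => exact hinv _ h
  | mul g h hg hh =>
    intro m
    rw [map_mul, map_mul, Equiv.Perm.mul_apply, Equiv.Perm.mul_apply, hg,
      hg (Aff rels H φ h 0), hh m, act_add, act_mul, add_assoc]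

theorem D_mul (φ : X → Mm rels H) (g h : FreeGroup X) :
    Aff rels H φ (g * h) 0 = Aff rels H φ g 0 + act rels H (pr rels g) (Aff rels H φ h 0) := by
  rw [map_mul, Equiv.Perm.mul_apply, Aff_eq rels H φ g (Aff rels H φ h 0)]

theorem D_one (φ : X → Mm rels H) : Aff rels H φ 1 0 = 0 := by
  rw [map_one]; rfl

theorem D_of (φ : X → Mm rels H) (x : X) : Aff rels H φ (FreeGroup.of x) 0 = φ x := by
  rw [Aff_of, act_zero, add_zero]

theorem D_inv (φ : X → Mm rels H) (g : FreeGroup X) :
    Aff rels H φ g⁻¹ 0 = -act rels H (pr rels g⁻¹) (Aff rels H φ g 0) := by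
  have h := D_mul rels H φ g⁻¹ g
  rw [inv_mul_cancel, D_one] at h
  exact eq_neg_of_add_eq_zero_left h.symm

theorem D_add (φ ψ : X → Mm rels H) (g : FreeGroup X) :
    Aff rels H (φ + ψ) g 0 = Aff rels H φ g 0 + Aff rels H ψ g 0 := by
  induction g using FreeGroup.induction_on with
  | C1 => rw [D_one, D_one, D_one, add_zero]
  | of x => rw [D_of, D_of, D_of]; rfl
  | inv_of x h => rw [D_inv, D_inv, D_inv, h, act_add, neg_add]
  | mul g h hg hh =>
    rw [D_mul, D_mul, D_mul, hg, hh, act_add]
    abel

theorem D_smul (a : ℂ) (φ : X → Mm rels H) (g : FreeGroup X) :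
    Aff rels H (a • φ) g 0 = a • Aff rels H φ g 0 := by
  induction g using FreeGroup.induction_on with
  | C1 => rw [D_one, D_one, smul_zero]
  | of x => rw [D_of, D_of]; rfl
  | inv_of x h => rw [D_inv, D_inv, h, act_smul, smul_neg]
  | mul g h hg hh => rw [D_mul, D_mul, hg, hh, act_smul, smul_add]

/-- evaluation on the generators -/
def ev : Zp (PresentedGroup rels) H →ₗ[ℂ] (X → Mm rels H) where
  toFun c := fun x => c.1 (pr rels (FreeGroup.of x))
  map_add' _ _ := rfl
  map_smul' _ _ := rfl

theorem ev_inj : Function.Injective (ev rels H) := by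
  rw [injective_iff_map_eq_zero]
  intro c hc
  have h0 : c.1 1 = 0 := by
    funext x
    have := c.2 1 1 x
    rw [mul_one, inv_one, one_smul] at this
    exact left_eq_add.mp this
  have hinv : ∀ g : PresentedGroup rels, c.1 g = 0 → c.1 g⁻¹ = 0 := by
    intro g hg
    funext x
    have := c.2 g⁻¹ g x
    rw [inv_mul_cancel, h0, hg] at this
    simp only [Pi.zero_apply, add_zero] at this
    exact this.symm
  have key : ∀ g : FreeGroup X, c.1 (pr rels g) = 0 := by
    intro g
    induction g using FreeGroup.induction_on with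
    | C1 => rw [map_one]; exact h0
    | of x => exact congrFun hc x
    | inv_of x h => rw [map_inv]; exact hinv _ h
    | mul g h hg hh =>
      funext x
      have := c.2 (pr rels g) (pr rels h) x
      rw [hg, hh] at this
      rw [map_mul]
      simpa using this
  apply Subtype.ext
  funext g
  obtain ⟨w, hw⟩ := PresentedGroup.mk_surjective rels g
  show c.1 g = 0
  rw [← hw]
  exact key w

theorem ev_range (φ : X → Mm rels H) (hφ : ∀ r ∈ rels, Aff rels H φ r 0 = 0) :
    φ ∈ LinearMap.range (ev rels H) := by
  have hk : ∀ r ∈ rels, FreeGroup.lift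
      (fun x => A1 rels H (φ x) (pr rels (FreeGroup.of x))) r = 1 := by
    intro r hr
    ext1 m
    have h1 := Aff_eq rels H φ r m
    have h2 : pr rels r = 1 := PresentedGroup.one_of_mem hr
    rw [hφ r hr, h2, act_one, zero_add] at h1
    exact h1
  let T : PresentedGroup rels →* Equiv.Perm (Mm rels H) := PresentedGroup.toGroup hk
  have hT : ∀ g : FreeGroup X, T (pr rels g) = Aff rels H φ g := by
    intro g
    have h3 : T.comp (pr rels) = Aff rels H φ := by
      ext1 x
      show T (PresentedGroup.of x) = _
      rw [PresentedGroup.toGroup.of]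
      unfold Aff
      rw [FreeGroup.lift_apply_of]
    rw [← h3]
    rfl
  refine ⟨⟨fun g => T g 0, ?_⟩, ?_⟩
  · intro g h x
    obtain ⟨w, rfl⟩ := PresentedGroup.mk_surjective rels g
    obtain ⟨w', rfl⟩ := PresentedGroup.mk_surjective rels h
    have h4 : T (pr rels w * pr rels w') 0 =
        T (pr rels w) 0 + act rels H (pr rels w) (T (pr rels w') 0) := by
      rw [← map_mul, hT, hT, hT, D_mul]
    show T (pr rels w * pr rels w') 0 x = _
    rw [h4]
    rfl
  · funext x
    show T (pr rels (FreeGroup.of x)) 0 = φ x
    rw [hT, D_of]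

end ZDaux

open ZDaux

def S_ZD : Prop := ∀ (X : Type) [Fintype X] (rels : Finset (FreeGroup X))
  (H : Subgroup (PresentedGroup (rels : Set (FreeGroup X)))) [H.FiniteIndex],
  Fintype.card X * H.index ≤
    Module.finrank ℂ (Pool.Agent.R684.VG.Zp (PresentedGroup (rels : Set (FreeGroup X))) H) + rels.card * H.index

theorem t_ZD : S_ZD := by
  intro X _ rels H _
  classical
  have hf : Finite (PresentedGroup (rels : Set (FreeGroup X)) ⧸ H) := inferInstance
  have hft : Fintype (PresentedGroup (rels : Set (FreeGroup X)) ⧸ H) := Fintype.ofFinite _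
  let Res : (X → Mm (rels : Set (FreeGroup X)) H) →ₗ[ℂ] (rels → Mm (rels : Set (FreeGroup X)) H) :=
    { toFun := fun φ r => Aff _ H φ r.1 0
      map_add' := fun φ ψ => by funext r; exact D_add _ H φ ψ r.1
      map_smul' := fun a φ => by funext r; exact D_smul _ H a φ r.1 }
  have h1 := LinearMap.finrank_range_add_finrank_ker Res
  have h2 : Module.finrank ℂ (LinearMap.range Res) ≤
      Module.finrank ℂ (rels → Mm (rels : Set (FreeGroup X)) H) := Submodule.finrank_le _
  have h3 : Module.finrank ℂ (LinearMap.ker Res) ≤
      Module.finrank ℂ (LinearMap.range (ev (rels : Set (FreeGroup X)) H)) := by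
    apply Submodule.finrank_mono
    intro φ hφ
    apply ev_range
    intro r hr
    exact congrFun (LinearMap.mem_ker.mp hφ) ⟨r, hr⟩
  have h4 : Module.finrank ℂ (LinearMap.range (ev (rels : Set (FreeGroup X)) H)) =
      Module.finrank ℂ (Zp (PresentedGroup (rels : Set (FreeGroup X))) H) :=
    LinearMap.finrank_range_of_inj (ev_inj _ H)
  have h5 : Module.finrank ℂ (X → Mm (rels : Set (FreeGroup X)) H) = Fintype.card X * H.index := by
    rw [Module.finrank_pi_fintype, Finset.sum_const, Finset.card_univ,
      Module.finrank_fintype_fun_eq_card, smul_eq_mul, Subgroup.index, Nat.card_eq_fintype_card]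
  have h6 : Module.finrank ℂ (rels → Mm (rels : Set (FreeGroup X)) H) = rels.card * H.index := by
    rw [Module.finrank_pi_fintype, Finset.sum_const, Finset.card_univ,
      Module.finrank_fintype_fun_eq_card, smul_eq_mul, Subgroup.index, Nat.card_eq_fintype_card,
      Fintype.card_coe]
  omega

end Pool.Agent.R359.GPZD
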