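import Mathlib

/-!
# Nabla products and monotone normality: `Δ(ω+1)` implies `Δ(ω·ω+1)`
-/

open Set Filter Topology Ordinal TopologicalSpace

namespace Pool.Agent.R359.NablaMN

universe u v

/-- The box topology on `ℕ → X`. -/
@[reducible] def boxTop (X : Type u) [TopologicalSpace X] : TopologicalSpace (ℕ → X) :=
  TopologicalSpace.generateFrom {S | ∃ U : ℕ → Set X, (∀ n, IsOpen (U n)) ∧ S = Set.univ.pi U}

/-- Equality at all but finitely many coordinates. -/
def nablaSetoid (X : Type u) : Setoid (ℕ → X) where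
  r x y := {n | x n ≠ y n}.Finite
  iseqv := by
    refine ⟨fun x => by simp, fun {x y} h => ?_, fun {x y z} h h' => ?_⟩
    · have : {n | y n ≠ x n} = {n | x n ≠ y n} := by
        ext n; exact ne_comm
      rw [this]; exact h
    · refine (h.union h').subset ?_
      intro n hn
      by_contra hcon
      simp only [Set.mem_union, Set.mem_ofPred_eq, not_or, not_not] at hcon
      exact hn (hcon.1.trans hcon.2)

/-- The nabla product `∇X^ω`. -/
def Nabla (X : Type u) : Type u := Quotient (nablaSetoid X)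

/-- the quotient map -/
def mk {X : Type u} (x : ℕ → X) : Nabla X := Quotient.mk (nablaSetoid X) x

/-- The quotient topology of the box topology. -/
instance (X : Type u) [TopologicalSpace X] : TopologicalSpace (Nabla X) :=
  @TopologicalSpace.coinduced _ _ mk (boxTop X)

/-- Monotone normality. -/
def MonotonicallyNormal (Z : Type u) [TopologicalSpace Z] : Prop :=
  ∃ H : Z → Set Z → Set Z,
    (∀ x U, IsOpen U → x ∈ U → IsOpen (H x U) ∧ x ∈ H x U ∧ H x U ⊆ U) ∧
    ∀ x U y V, IsOpen U → x ∈ U → IsOpen V → y ∈ V → (H x U ∩ H y V).Nonempty → x ∈ V ∨ y ∈ U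

theorem mk_eq {X : Type u} {x y : ℕ → X} : mk x = mk y ↔ {n | x n ≠ y n}.Finite :=
  Quotient.eq (r := nablaSetoid X)

theorem exists_mk {X : Type u} (z : Nabla X) : ∃ x, mk x = z :=
  ⟨Quotient.out z, Quotient.out_eq z⟩

theorem isOpen_nabla {X : Type u} [TopologicalSpace X] {O : Set (Nabla X)} :
    IsOpen O ↔ @IsOpen _ (boxTop X) (mk ⁻¹' O) := Iff.rfl

theorem box_basis (X : Type u) [TopologicalSpace X] :
    @IsTopologicalBasis _ (boxTop X)
      {S | ∃ U : ℕ → Set X, (∀ n, IsOpen (U n)) ∧ S = Set.univ.pi U} := by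
  let _ := boxTop X
  refine ⟨?_, ?_, rfl⟩
  · rintro _ ⟨U, hU, rfl⟩ _ ⟨V, hV, rfl⟩ x ⟨hxU, hxV⟩
    refine ⟨Set.univ.pi fun n => U n ∩ V n, ⟨_, fun n => (hU n).inter (hV n), rfl⟩, ?_, ?_⟩
    · intro n hn; exact ⟨hxU n hn, hxV n hn⟩
    · intro y hy
      exact ⟨fun n hn => (hy n hn).1, fun n hn => (hy n hn).2⟩
  · refine Set.eq_univ_of_univ_subset ?_
    exact Set.subset_sUnion_of_mem ⟨fun _ => univ, fun _ => isOpen_univ, by simp⟩

/-- basic open sets in the nabla product -/
def Nb {X : Type u} (U : ℕ → Set X) : Set (Nabla X) :=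
  {z | ∃ x, mk x = z ∧ {n | x n ∉ U n}.Finite}

theorem mem_Nb {X : Type u} {U : ℕ → Set X} {x : ℕ → X} :
    mk x ∈ Nb U ↔ {n | x n ∉ U n}.Finite := by
  constructor
  · rintro ⟨y, hy, hf⟩
    refine ((mk_eq.1 hy).union hf).subset ?_
    intro n hn
    by_contra hcon
    simp only [Set.mem_union, Set.mem_ofPred_eq, not_or, not_not] at hcon
    rw [hcon.1] at hcon
    exact hn hcon.2
  · intro h
    exact ⟨x, rfl, h⟩

theorem isOpen_Nb {X : Type u} [TopologicalSpace X] {U : ℕ → Set X} (hU : ∀ n, IsOpen (U n)) :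
    IsOpen (Nb U) := by
  classical
  rw [isOpen_nabla]
  let _ := boxTop X
  have : mk ⁻¹' (Nb U) = ⋃ F : Finset ℕ, Set.univ.pi fun n => if n ∈ F then univ else U n := by
    ext x
    rw [Set.mem_preimage, mem_Nb, Set.mem_iUnion]
    constructor
    · intro h
      refine ⟨h.toFinset, fun n _ => ?_⟩
      show x n ∈ (if n ∈ h.toFinset then Set.univ else U n)
      split_ifs with hn
      · trivial
      · simp only [Set.Finite.mem_toFinset, Set.mem_ofPred_eq, not_not] at hn
        exact hn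
    · rintro ⟨F, hF⟩
      refine F.finite_toSet.subset ?_
      intro n hn
      by_contra hcon
      have : x n ∈ (if n ∈ F then Set.univ else U n) := hF n (Set.mem_univ n)
      simp only [Finset.mem_coe] at hcon
      rw [if_neg hcon] at this
      exact hn this
  rw [this]
  refine isOpen_iUnion fun F => ?_
  refine (box_basis X).isOpen ⟨_, fun n => ?_, rfl⟩
  split_ifs
  · exact isOpen_univ
  · exact hU n

theorem exists_Nb {X : Type u} [TopologicalSpace X] {O : Set (Nabla X)} (hO : IsOpen O)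
    {x : ℕ → X} (hx : mk x ∈ O) :
    ∃ U : ℕ → Set X, (∀ n, IsOpen (U n)) ∧ (∀ n, x n ∈ U n) ∧ Nb U ⊆ O := by
  classical
  rw [isOpen_nabla] at hO
  let _ := boxTop X
  obtain ⟨_, ⟨U, hU, rfl⟩, hxU, hsub⟩ := (box_basis X).exists_subset_of_mem_open
    (show x ∈ mk ⁻¹' O from hx) hO
  refine ⟨U, hU, fun n => hxU n (Set.mem_univ n), ?_⟩
  rintro z ⟨y, rfl, hy⟩
  have h1 : (fun n => if y n ∈ U n then y n else x n) ∈ Set.univ.pi U := by
    intro n _
    show (if y n ∈ U n then y n else x n) ∈ U n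
    split_ifs with h
    · exact h
    · exact hxU n (Set.mem_univ n)
  have h2 : mk (fun n => if y n ∈ U n then y n else x n) = mk y := by
    rw [mk_eq]
    refine hy.subset ?_
    intro n hn hcon
    apply hn
    show (if y n ∈ U n then y n else x n) = y n
    rw [if_pos hcon]
  have h3 := hsub h1
  rw [Set.mem_preimage, h2] at h3
  exact h3

/-- interleaving of the two coordinates -/
def il {Y : Type u} {A : Type v} (φ : Y → A × A) (y : ℕ → Y) : ℕ → A :=
  fun n => if n % 2 = 0 then (φ (y (n / 2))).1 else (φ (y (n / 2))).2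

theorem il_even {Y : Type u} {A : Type v} (φ : Y → A × A) (y : ℕ → Y) (n : ℕ) :
    il φ y (2 * n) = (φ (y n)).1 := by
  unfold il
  have h1 : 2 * n % 2 = 0 := by omega
  have h2 : 2 * n / 2 = n := by omega
  rw [if_pos h1, h2]

theorem il_odd {Y : Type u} {A : Type v} (φ : Y → A × A) (y : ℕ → Y) (n : ℕ) :
    il φ y (2 * n + 1) = (φ (y n)).2 := by
  unfold il
  have h1 : ¬ (2 * n + 1) % 2 = 0 := by omega
  have h2 : (2 * n + 1) / 2 = n := by omega
  rw [if_neg h1, h2]

theorem finite_il (P : ℕ → Prop) :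
    {n | P n}.Finite ↔ {n | P (2 * n) ∨ P (2 * n + 1)}.Finite := by
  constructor
  · intro h
    refine (h.image (fun n => n / 2)).subset ?_
    rintro n (hn | hn)
    · exact ⟨2 * n, hn, by simp⟩
    · exact ⟨2 * n + 1, hn, by show (2 * n + 1) / 2 = n; omega⟩
  · intro h
    refine ((h.image (fun n => 2 * n)).union (h.image (fun n => 2 * n + 1))).subset ?_
    intro n hn
    rcases Nat.even_or_odd' n with ⟨k, hk | hk⟩
    · left; exact ⟨k, Or.inl (hk ▸ hn), hk.symm⟩
    · right; exact ⟨k, Or.inr (hk ▸ hn), hk.symm⟩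

/-- the induced map of nabla products -/
def G {Y : Type u} {A : Type v} (φ : Y → A × A) : Nabla Y → Nabla A :=
  Quotient.lift (fun y => mk (il φ y)) (by
    intro y y' h
    show mk (il φ y) = mk (il φ y')
    rw [mk_eq, finite_il]
    refine Set.Finite.subset h ?_
    intro n hn hcon
    simp only [il_even, il_odd, Set.mem_ofPred_eq] at hn
    rw [hcon] at hn
    simp at hn)

theorem G_mk {Y : Type u} {A : Type v} (φ : Y → A × A) (y : ℕ → Y) :
    G φ (mk y) = mk (il φ y) := rfl

theorem inducing_G {Y : Type u} {A : Type v} [TopologicalSpace Y] [TopologicalSpace A]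
    (φ : Y → A × A) (hφ : IsInducing φ) : IsInducing (G φ) := by
  have key : ∀ (V : ℕ → Set A) (y : ℕ → Y), mk (il φ y) ∈ Nb V ↔
      mk y ∈ Nb (fun n => φ ⁻¹' (V (2 * n) ×ˢ V (2 * n + 1))) := by
    intro V y
    rw [mem_Nb, mem_Nb, finite_il]
    simp only [il_even, il_odd, Set.mem_preimage, Set.mem_prod, not_and_or]
  have hcont : Continuous (G φ) := by
    refine continuous_def.2 fun W hW => ?_
    rw [isOpen_iff_forall_mem_open]
    intro z hz
    obtain ⟨y, rfl⟩ := exists_mk z
    have hz' : mk (il φ y) ∈ W := hz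
    obtain ⟨V, hV, hyV, hVW⟩ := exists_Nb hW hz'
    refine ⟨Nb (fun n => φ ⁻¹' (V (2 * n) ×ˢ V (2 * n + 1))), ?_, ?_, ?_⟩
    · intro z' hz'
      obtain ⟨y', rfl⟩ := exists_mk z'
      rw [← key] at hz'
      exact hVW hz'
    · exact isOpen_Nb fun n => ((hV _).prod (hV _)).preimage hφ.continuous
    · rw [← key, mem_Nb]
      simp [hyV]
  refine ⟨le_antisymm hcont.le_induced ?_⟩
  intro O hO
  rw [isOpen_induced_iff]
  refine ⟨⋃₀ {W | IsOpen W ∧ G φ ⁻¹' W ⊆ O}, isOpen_sUnion fun W hW => hW.1, ?_⟩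
  apply Set.Subset.antisymm
  · rintro z ⟨W, ⟨-, hW⟩, hz⟩
    exact hW hz
  · intro z hz
    obtain ⟨y, rfl⟩ := exists_mk z
    obtain ⟨U, hU, hyU, hUO⟩ := exists_Nb hO hz
    have hloc : ∀ n, ∃ V V' : Set A, IsOpen V ∧ IsOpen V' ∧ (φ (y n)).1 ∈ V ∧
        (φ (y n)).2 ∈ V' ∧ φ ⁻¹' (V ×ˢ V') ⊆ U n := by
      intro n
      obtain ⟨O', hO', hO''⟩ := hφ.isOpen_iff.1 (hU n)
      have hmem : φ (y n) ∈ O' := by
        have := hyU n
        rw [← hO''] at this
        exact this
      obtain ⟨V, V', hV, hV', h1, h2, h3⟩ := isOpen_prod_iff.1 hO' _ _ hmem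
      refine ⟨V, V', hV, hV', h1, h2, ?_⟩
      rw [← hO'']
      exact Set.preimage_mono h3
    choose V V' hV hV' h1 h2 h3 using hloc
    let W : ℕ → Set A := fun n => if n % 2 = 0 then V (n / 2) else V' (n / 2)
    have hW0 : ∀ n, W (2 * n) = V n := by
      intro n
      have e1 : 2 * n % 2 = 0 := by omega
      have e2 : 2 * n / 2 = n := by omega
      simp only [W]
      rw [if_pos e1, e2]
    have hW1 : ∀ n, W (2 * n + 1) = V' n := by
      intro n
      have e1 : ¬ (2 * n + 1) % 2 = 0 := by omega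
      have e2 : (2 * n + 1) / 2 = n := by omega
      simp only [W]
      rw [if_neg e1, e2]
    have hWo : ∀ n, IsOpen (W n) := by
      intro n
      simp only [W]
      split_ifs
      · exact hV _
      · exact hV' _
    refine ⟨Nb W, ⟨isOpen_Nb hWo, ?_⟩, ?_⟩
    · intro z' hz'
      obtain ⟨y', rfl⟩ := exists_mk z'
      have hz'' : mk (il φ y') ∈ Nb W := hz'
      rw [key, mem_Nb] at hz''
      apply hUO
      rw [mem_Nb]
      refine hz''.subset ?_
      intro n hn hcon
      rw [hW0, hW1] at hcon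
      exact hn (h3 n hcon)
    · show mk (il φ y) ∈ Nb W
      rw [key, mem_Nb]
      have : {n | y n ∉ φ ⁻¹' (W (2 * n) ×ˢ W (2 * n + 1))} = ∅ := by
        ext n
        simp only [hW0, hW1, Set.mem_preimage, Set.mem_prod, Set.mem_ofPred_eq,
          Set.mem_empty_iff_false, iff_false, not_not]
        exact ⟨h1 n, h2 n⟩
      rw [this]
      exact Set.finite_empty

/-- Monotone normality is pulled back by inducing maps. -/
theorem mn_of_inducing {Z : Type u} {Z' : Type v} [TopologicalSpace Z] [TopologicalSpace Z']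
    (g : Z' → Z) (hg : IsInducing g) (h : MonotonicallyNormal Z) : MonotonicallyNormal Z' := by
  classical
  obtain ⟨H, h1, h2⟩ := h
  let st : Set Z' → Set Z := fun U => ⋃₀ {W | IsOpen W ∧ g ⁻¹' W ⊆ U}
  have hst : ∀ U, IsOpen (st U) := fun U => isOpen_sUnion fun W hW => hW.1
  have hst' : ∀ U, IsOpen U → g ⁻¹' (st U) = U := by
    intro U hU
    apply Set.Subset.antisymm
    · rintro z ⟨W, ⟨-, hW⟩, hz⟩
      exact hW hz
    · obtain ⟨W, hW, rfl⟩ := hg.isOpen_iff.1 hU
      exact Set.preimage_mono (Set.subset_sUnion_of_mem ⟨hW, Set.Subset.rfl⟩)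
  have hmem : ∀ x U, IsOpen U → x ∈ U → g x ∈ st U := by
    intro x U hU hx
    rw [← hst' U hU] at hx
    exact hx
  refine ⟨fun x U => g ⁻¹' (H (g x) (st U)), ?_, ?_⟩
  · intro x U hU hx
    obtain ⟨a, b, c⟩ := h1 (g x) (st U) (hst U) (hmem x U hU hx)
    refine ⟨a.preimage hg.continuous, b, ?_⟩
    calc g ⁻¹' (H (g x) (st U)) ⊆ g ⁻¹' (st U) := Set.preimage_mono c
      _ = U := hst' U hU
  · rintro x U y V hU hx hV hy ⟨z, hz1, hz2⟩
    rcases h2 (g x) (st U) (g y) (st V) (hst U) (hmem x U hU hx) (hst V) (hmem y V hV hy)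
      ⟨g z, hz1, hz2⟩ with h | h
    · left
      rw [← hst' V hV]; exact h
    · right
      rw [← hst' U hU]; exact h

/-! ### The embedding of `ω·ω+1` into `(ω+1)²` -/

/-- points of `ω+1` -/
noncomputable def pt : Option ℕ → Set.Iio (ω + 1 : Ordinal.{0})
  | none => ⟨ω, by simp⟩
  | some n => ⟨n, (natCast_lt_omega0 n).trans (by simp)⟩

theorem pt_inj : Function.Injective pt := by
  rintro (_ | m) (_ | n) h
  · rfl
  · have := congrArg Subtype.val h
    exact absurd this (natCast_lt_omega0 n).ne'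
  · have := congrArg Subtype.val h
    exact absurd this (natCast_lt_omega0 m).ne
  · have := congrArg Subtype.val h
    simp only [pt, Nat.cast_inj] at this
    rw [this]

theorem continuous_pt {Y : Type u} [TopologicalSpace Y] (f : Y → Option ℕ)
    (hf : ∀ n, IsClopen {y | f y = some n}) : Continuous (fun y => pt (f y)) := by
  classical
  refine continuous_def.2 fun U hU => ?_
  by_cases hω : pt none ∈ U
  · obtain ⟨U', hU', rfl⟩ := isOpen_induced_iff.1 hU
    have hlim : Order.IsSuccLimit (ω : Ordinal.{0}) := isSuccLimit_omega0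
    obtain ⟨a, ha, hsub⟩ := SuccOrder.isOpen_iff.1 hU' ω hω hlim
    obtain ⟨N, rfl⟩ := lt_omega0.1 ha
    have hN : ∀ n, N < n → pt (some n) ∈ Subtype.val ⁻¹' U' := by
      intro n hn
      have hn' : (N : Ordinal) < (n : Ordinal) := by exact_mod_cast hn
      exact hsub ⟨hn', natCast_lt_omega0 n⟩
    have hcompl : ((fun y => pt (f y)) ⁻¹' (Subtype.val ⁻¹' U'))ᶜ =
        ⋃ n ∈ {n | n ≤ N ∧ pt (some n) ∉ Subtype.val ⁻¹' U'}, {y | f y = some n} := by
      ext y
      simp only [Set.mem_compl_iff, Set.mem_preimage, Set.mem_iUnion, Set.mem_ofPred_eq]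
      constructor
      · intro h
        rcases hfy : f y with _ | n
        · rw [hfy] at h; exact absurd hω h
        · rw [hfy] at h
          refine ⟨n, ⟨?_, h⟩, rfl⟩
          by_contra hcon
          exact h (hN n (not_le.1 hcon))
      · rintro ⟨n, ⟨-, hn⟩, hfy⟩
        rw [hfy]; exact hn
    rw [← isClosed_compl_iff, hcompl]
    refine Set.Finite.isClosed_biUnion ?_ fun n _ => (hf n).1
    exact (Set.finite_Iic N).subset fun n hn => hn.1
  · have : (fun y => pt (f y)) ⁻¹' U = ⋃ n ∈ {n | pt (some n) ∈ U}, {y | f y = some n} := by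
      ext y
      simp only [Set.mem_preimage, Set.mem_iUnion, Set.mem_ofPred_eq]
      constructor
      · intro h
        rcases hfy : f y with _ | n
        · rw [hfy] at h; exact absurd h hω
        · rw [hfy] at h; exact ⟨n, h, rfl⟩
      · rintro ⟨n, hn, hfy⟩
        rw [hfy]; exact hn
    rw [this]
    exact isOpen_biUnion fun n _ => (hf n).2

/-- the space `ω·ω+1` -/
abbrev Y : Type 1 := Set.Iio (ω * ω + 1 : Ordinal.{0})

theorem isClopen_Iic (b : Ordinal.{0}) : IsClopen {y : Y | (y : Ordinal) ≤ b} := by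
  refine ⟨isClosed_Iic.preimage continuous_subtype_val, ?_⟩
  have : {y : Y | (y : Ordinal) ≤ b} = Subtype.val ⁻¹' (Set.Iio (Order.succ b)) := by
    ext y
    simp
  rw [this]
  exact isOpen_Iio.preimage continuous_subtype_val

open Classical in
/-- first coordinate: the number of the block -/
noncomputable def f1 (y : Y) : Option ℕ :=
  if h : ∃ k : ℕ, (y : Ordinal) ≤ ω * (k + 1) then some (Nat.find h) else none

theorem f1_some (y : Y) (n : ℕ) :
    f1 y = some n ↔ (y : Ordinal) ≤ ω * (n + 1) ∧ ∀ m < n, ¬ (y : Ordinal) ≤ ω * (m + 1) := by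
  classical
  unfold f1
  split_ifs with h
  · rw [Option.some.injEq, Nat.find_eq_iff]
  · constructor
    · intro h'; exact absurd h' (by simp)
    · rintro ⟨h', -⟩; exact absurd ⟨n, h'⟩ h

theorem f1_clopen (n : ℕ) : IsClopen {y | f1 y = some n} := by
  have : {y | f1 y = some n} = {y : Y | (y : Ordinal) ≤ ω * (n + 1)} ∩
      ⋂ m ∈ Set.Iio n, {y : Y | (y : Ordinal) ≤ ω * (m + 1)}ᶜ := by
    ext y
    simp only [Set.mem_ofPred_eq, f1_some, Set.mem_inter_iff, Set.mem_iInter, Set.mem_Iio,
      Set.mem_compl_iff]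
  rw [this]
  refine (isClopen_Iic _).inter ?_
  exact (Set.finite_Iio n).isClopen_biInter fun m _ => (isClopen_Iic _).compl

/-- coding of ordinals below `ω·ω` -/
theorem exists_code : ∃ e : Y → ℕ, ∀ y y' : Y, (y : Ordinal) < ω * ω → (y' : Ordinal) < ω * ω →
    e y = e y' → y = y' := by
  have h : ∀ y : Y, (y : Ordinal) < ω * ω → ∃ k j : ℕ, (y : Ordinal) = ω * k + j := by
    intro y hy
    have h1 : (y : Ordinal) / ω < ω := by
      exact (Ordinal.lt_mul_iff_div_lt omega0_ne_zero).1 hy
    have h2 : (y : Ordinal) % ω < ω := Ordinal.mod_lt _ omega0_ne_zero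
    obtain ⟨k, hk⟩ := lt_omega0.1 h1
    obtain ⟨j, hj⟩ := lt_omega0.1 h2
    refine ⟨k, j, ?_⟩
    rw [← hk, ← hj, Ordinal.div_add_mod]
  choose! k j hkj using h
  refine ⟨fun y => Nat.pair (k y) (j y), fun y y' hy hy' he => ?_⟩
  have he' := Nat.pair_eq_pair.1 he
  apply Subtype.ext
  rw [hkj y hy, hkj y' hy', he'.1, he'.2]

open Classical in
/-- second coordinate: enumeration of the isolated points -/
noncomputable def f2 (y : Y) : Option ℕ :=
  if IsOpen ({y} : Set Y) then some (exists_code.choose y) else none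

theorem isolated_iff (y : Y) (h : ¬ Order.IsSuccLimit (y : Ordinal)) : IsOpen ({y} : Set Y) := by
  have : ({y} : Set Y) = Subtype.val ⁻¹' ({(y : Ordinal)} : Set Ordinal) := by
    ext z
    simp [Subtype.ext_iff]
  rw [this]
  exact (SuccOrder.isOpen_singleton_iff.2 h).preimage continuous_subtype_val

theorem top_not_isolated (y : Y) (h : IsOpen ({y} : Set Y)) : (y : Ordinal) < ω * ω := by
  have hy : (y : Ordinal) ≤ ω * ω := Order.lt_add_one_iff.1 y.2
  rcases hy.lt_or_eq with h' | h'
  · exact h'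
  · exfalso
    obtain ⟨U, hU, hUy⟩ := isOpen_induced_iff.1 h
    have hyU : (y : Ordinal) ∈ U := by
      have : y ∈ Subtype.val ⁻¹' U := by rw [hUy]; rfl
      exact this
    have hlim : Order.IsSuccLimit (y : Ordinal) := by
      rw [h', Ordinal.isSuccLimit_iff]
      refine ⟨(mul_pos omega0_pos omega0_pos).ne', ?_⟩
      rw [isSuccPrelimit_iff_omega0_dvd]
      exact Dvd.intro _ rfl
    obtain ⟨a, ha, hsub⟩ := SuccOrder.isOpen_iff.1 hU _ hyU hlim
    have hs : Order.succ a < (y : Ordinal) := hlim.succ_lt ha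
    have hz : (⟨Order.succ a, hs.trans y.2⟩ : Y) ∈ Subtype.val ⁻¹' U :=
      hsub ⟨Order.lt_succ a, hs⟩
    rw [hUy] at hz
    have := congrArg Subtype.val (Set.mem_singleton_iff.1 hz)
    exact absurd this hs.ne

theorem f2_clopen (n : ℕ) : IsClopen {y | f2 y = some n} := by
  classical
  by_cases h : ∃ y, f2 y = some n
  · obtain ⟨y, hy⟩ := h
    have hiso : ∀ z, f2 z = some n → IsOpen ({z} : Set Y) ∧ exists_code.choose z = n := by
      intro z hz
      unfold f2 at hz
      split_ifs at hz with h1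
      exact ⟨h1, Option.some.inj hz⟩
    have : {z | f2 z = some n} = {y} := by
      ext z
      simp only [Set.mem_ofPred_eq, Set.mem_singleton_iff]
      constructor
      · intro hz
        obtain ⟨a, b⟩ := hiso z hz
        obtain ⟨a', b'⟩ := hiso y hy
        exact exists_code.choose_spec z y (top_not_isolated z a) (top_not_isolated y a')
          (b.trans b'.symm)
      · rintro rfl; exact hy
    rw [this]
    exact ⟨isClosed_singleton, (hiso y hy).1⟩
  · have : {z | f2 z = some n} = ∅ := by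
      ext z
      simp only [Set.mem_ofPred_eq, Set.mem_empty_iff_false, iff_false]
      exact fun hz => h ⟨z, hz⟩
    rw [this]
    exact isClopen_empty

theorem f_inj (y y' : Y) (h1 : f1 y = f1 y') (h2 : f2 y = f2 y') : y = y' := by
  classical
  by_cases hy : IsOpen ({y} : Set Y)
  · unfold f2 at h2
    rw [if_pos hy] at h2
    split_ifs at h2 with hy'
    exact exists_code.choose_spec y y' (top_not_isolated y hy) (top_not_isolated y' hy')
      (Option.some.inj h2)
  · have hy' : ¬ IsOpen ({y'} : Set Y) := by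
      intro hcon
      unfold f2 at h2
      rw [if_neg hy, if_pos hcon] at h2
      exact absurd h2 (by simp)
    have hl : ∀ z : Y, ¬ IsOpen ({z} : Set Y) → ∃ c : Ordinal, c ≠ 0 ∧ (z : Ordinal) = ω * c := by
      intro z hz
      by_contra hcon
      apply hz
      apply isolated_iff
      intro hlim
      rw [Ordinal.isSuccLimit_iff, isSuccPrelimit_iff_omega0_dvd] at hlim
      obtain ⟨c, hc⟩ := hlim.2
      refine hcon ⟨c, ?_, hc⟩
      rintro rfl
      exact hlim.1 (by rw [hc, mul_zero])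
    obtain ⟨c, hc0, hc⟩ := hl y hy
    obtain ⟨c', hc0', hc'⟩ := hl y' hy'
    have hle : ∀ (z : Y) (c : Ordinal), (z : Ordinal) = ω * c → c ≤ ω := by
      intro z c hz
      have hz2 : (z : Ordinal) < ω * ω + 1 := z.2
      have := Order.lt_add_one_iff.1 hz2
      rw [hz] at this
      exact (mul_le_mul_iff_right₀ omega0_pos).1 this
    have hval : ∀ (z : Y) (c : Ordinal), (z : Ordinal) = ω * c → c ≠ 0 → ∀ k : ℕ,
        f1 z = some k → c = k + 1 := by
      intro z c hz hc0 k hk
      rw [f1_some] at hk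
      rw [hz] at hk
      have h3 : c ≤ (k : Ordinal) + 1 := (mul_le_mul_iff_right₀ omega0_pos).1 hk.1
      apply le_antisymm h3
      rcases Nat.eq_zero_or_pos k with rfl | hk0
      · simp only [Nat.cast_zero, zero_add]
        exact Order.one_le_iff_pos.2 (pos_iff_ne_zero.2 hc0)
      · have h4 := hk.2 (k - 1) (by omega)
        rw [mul_le_mul_iff_right₀ omega0_pos, not_le] at h4
        have h5 : ((k - 1 : ℕ) : Ordinal) + 1 = k := by
          have : (k - 1) + 1 = k := by omega
          exact_mod_cast congrArg (Nat.cast : ℕ → Ordinal.{0}) this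
        rw [h5] at h4
        exact Order.add_one_le_of_lt h4
    have hnone : ∀ (z : Y) (c : Ordinal), (z : Ordinal) = ω * c → f1 z = none → c = ω := by
      intro z c hz hn
      apply le_antisymm (hle z c hz)
      by_contra hcon
      obtain ⟨k, hk⟩ := lt_omega0.1 (not_le.1 hcon)
      unfold f1 at hn
      split_ifs at hn with h
      apply h
      refine ⟨k, ?_⟩
      rw [hz, hk, mul_le_mul_iff_right₀ omega0_pos]
      exact le_add_right le_rfl
    apply Subtype.ext
    rw [hc, hc']
    congr 1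
    rcases hf : f1 y with _ | k
    · rw [hnone y c hc hf, hnone y' c' hc' (h1 ▸ hf)]
    · rw [hval y c hc hc0 k hf, hval y' c' hc' hc0' k (h1 ▸ hf)]

theorem compactY : CompactSpace Y := by
  have h : (Set.Iio (ω * ω + 1 : Ordinal.{0})) = Set.Icc 0 (ω * ω) := by
    ext x
    simp [← Order.succ_eq_add_one]
  rw [← isCompact_iff_compactSpace, h]
  exact isCompact_Icc

theorem exists_inducing : ∃ φ : Y → Set.Iio (ω + 1 : Ordinal.{0}) × Set.Iio (ω + 1 : Ordinal.{0}),
    IsInducing φ := by
  refine ⟨fun y => (pt (f1 y), pt (f2 y)), ?_⟩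
  have := compactY
  have hc : Continuous (fun y => (pt (f1 y), pt (f2 y))) :=
    (continuous_pt f1 f1_clopen).prodMk (continuous_pt f2 f2_clopen)
  have hi : Function.Injective (fun y => (pt (f1 y), pt (f2 y))) := by
    intro y y' h
    have h' := Prod.mk.inj h
    exact f_inj y y' (pt_inj h'.1) (pt_inj h'.2)
  exact (hc.isClosedEmbedding hi).isInducing

end Pool.Agent.R359.NablaMN
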