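import Mathlib

/-!
# A normal extension of the logic of `(ω ^ n, ≤)` without the finite model property
-/

namespace Pool.Agent.R359.OmegaExt

universe u

/-- Unimodal formulas. -/
inductive Form : Type
  | var (n : ℕ) : Form
  | bot : Form
  | imp (φ ψ : Form) : Form
  | box (φ : Form) : Form

/-- Truth of a formula at a point of the frame `(W, R)` under the valuation `θ`. -/
def Sat {W : Type u} (R : W → W → Prop) (θ : ℕ → W → Prop) : Form → W → Prop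
  | .var n, w => θ n w
  | .bot, _ => False
  | .imp φ ψ, w => Sat R θ φ w → Sat R θ ψ w
  | .box φ, w => ∀ v, R w v → Sat R θ φ v

/-- The logic of the frame `(W, R)`: the set of formulas valid in it. -/
def Log {W : Type u} (R : W → W → Prop) : Set Form :=
  {φ | ∀ (θ : ℕ → W → Prop) (w : W), Sat R θ φ w}

/-- Uniform substitution. -/
def Form.subst (σ : ℕ → Form) : Form → Form
  | .var n => σ n
  | .bot => .bot
  | .imp φ ψ => .imp (φ.subst σ) (ψ.subst σ)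
  | .box φ => .box (φ.subst σ)

/-- Classical tautologies (boxed formulas are treated as atoms). -/
def Tautology (φ : Form) : Prop :=
  ∀ v : Form → Prop, ¬ v .bot → (∀ α β, v (.imp α β) ↔ (v α → v β)) → v φ

/-- Normal modal logics. -/
structure IsNormal (L : Set Form) : Prop where
  taut : ∀ φ, Tautology φ → φ ∈ L
  axK : ∀ φ ψ, Form.imp (.box (.imp φ ψ)) (.imp (.box φ) (.box ψ)) ∈ L
  mp : ∀ φ ψ, Form.imp φ ψ ∈ L → φ ∈ L → ψ ∈ L
  nec : ∀ φ, φ ∈ L → Form.box φ ∈ L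
  subst : ∀ φ, φ ∈ L → ∀ σ : ℕ → Form, φ.subst σ ∈ L

/-- The finite model property: every formula outside `L` is refuted in a finite frame
validating `L`. -/
def HasFMP (L : Set Form) : Prop :=
  ∀ φ, φ ∉ L → ∃ (F : Type) (_ : Finite F) (S : F → F → Prop), L ⊆ Log S ∧ φ ∉ Log S

/-! ### Basic semantics -/

section Basic

variable {W : Type u} (R : W → W → Prop) (θ : ℕ → W → Prop)

theorem sat_subst (σ : ℕ → Form) : ∀ (φ : Form) (w : W),
    Sat R θ (φ.subst σ) w ↔ Sat R (fun n => Sat R θ (σ n)) φ w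
  | .var _, _ => Iff.rfl
  | .bot, _ => Iff.rfl
  | .imp φ ψ, w => by
    simp only [Form.subst, Sat]
    rw [sat_subst σ φ w, sat_subst σ ψ w]
  | .box φ, w => by
    simp only [Form.subst, Sat]
    exact forall_congr' fun v => imp_congr Iff.rfl (sat_subst σ φ v)

theorem isNormal_log : IsNormal (Log R) where
  taut φ h θ w := h (fun ψ => Sat R θ ψ w) (fun h => h) (fun _ _ => Iff.rfl)
  axK φ ψ θ w h1 h2 v hv := h1 v hv (h2 v hv)
  mp φ ψ h1 h2 θ w := h1 θ w (h2 θ w)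
  nec φ h θ w v _ := h θ v
  subst φ h σ θ w := (sat_subst R θ σ φ w).2 (h _ w)

/-- Negation. -/
def neg (φ : Form) : Form := .imp φ .bot

/-- Conjunction. -/
def conj (φ ψ : Form) : Form := neg (.imp φ (neg ψ))

/-- Diamond. -/
def dia (φ : Form) : Form := neg (.box (neg φ))

theorem sat_neg (φ : Form) (w : W) : Sat R θ (neg φ) w ↔ ¬ Sat R θ φ w := Iff.rfl

theorem sat_conj (φ ψ : Form) (w : W) :
    Sat R θ (conj φ ψ) w ↔ Sat R θ φ w ∧ Sat R θ ψ w := by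
  simp only [conj, sat_neg, Sat]; tauto

theorem sat_dia (φ : Form) (w : W) :
    Sat R θ (dia φ) w ↔ ∃ v, R w v ∧ Sat R θ φ v := by
  simp only [dia, sat_neg, Sat]; push Not; rfl

theorem sat_box (φ : Form) (w : W) :
    Sat R θ (.box φ) w ↔ ∀ v, R w v → Sat R θ φ v := Iff.rfl

theorem sat_imp (φ ψ : Form) (w : W) :
    Sat R θ (.imp φ ψ) w ↔ (Sat R θ φ w → Sat R θ ψ w) := Iff.rfl

theorem sat_var (n : ℕ) (w : W) : Sat R θ (.var n) w ↔ θ n w := Iff.rfl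

end Basic

/-! ### The frame -/

/-- The points of the frame `G`: the infinite descending Rieger-Nishimura ladder
`w 0, w 1, …` with a greatest point `t`, and below the whole ladder the poset
`{r, a₁ < a₂ < a₃, b}` with least point `r` and `b` incomparable with `a₁, a₂, a₃`. -/
inductive Pt : Type
  | r : Pt
  | a1 : Pt
  | a2 : Pt
  | a3 : Pt
  | b : Pt
  | w (n : ℕ) : Pt
  | t : Pt

/-- The order of `G`. -/
def le : Pt → Pt → Prop
  | .r, _ => True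
  | .a1, .r => False
  | .a1, .b => False
  | .a1, _ => True
  | .a2, .r => False
  | .a2, .a1 => False
  | .a2, .b => False
  | .a2, _ => True
  | .a3, .a3 => True
  | .a3, .w _ => True
  | .a3, .t => True
  | .a3, _ => False
  | .b, .b => True
  | .b, .w _ => True
  | .b, .t => True
  | .b, _ => False
  | .w m, .w k => k = m ∨ k + 2 ≤ m
  | .w _, .t => True
  | .w _, _ => False
  | .t, .t => True
  | .t, _ => False

theorem le_rfl' (p : Pt) : le p p := by cases p <;> simp [le]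

theorem le_trans' {p q s : Pt} (h1 : le p q) (h2 : le q s) : le p s := by
  cases p <;> cases q <;> cases s <;> simp_all [le] <;> omega

theorem inc_w {k : ℕ} {y : Pt} (h1 : ¬ le y (.w k)) (h2 : ¬ le (.w k) y) :
    ∃ m, y = .w m ∧ (m + 1 = k ∨ m = k + 1) := by
  cases y <;> simp_all [le]
  omega

theorem inc_b {y : Pt} (h1 : ¬ le y .b) (h2 : ¬ le .b y) : y = .a1 ∨ y = .a2 ∨ y = .a3 := by
  cases y <;> simp_all [le]

theorem inc_a1 {y : Pt} (h1 : ¬ le y .a1) (h2 : ¬ le .a1 y) : y = .b := by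
  cases y <;> simp_all [le]

theorem inc_a2 {y : Pt} (h1 : ¬ le y .a2) (h2 : ¬ le .a2 y) : y = .b := by
  cases y <;> simp_all [le]

theorem inc_a3 {y : Pt} (h1 : ¬ le y .a3) (h2 : ¬ le .a3 y) : y = .b := by
  cases y <;> simp_all [le]

theorem root_of {g : Pt} (h1 : le g .a1) (h2 : le g .b) : g = .r := by
  cases g <;> simp_all [le]

theorem chain_cases {y1 y2 y3 z : Pt} (h12 : le y1 y2) (h23 : le y2 y3) (n12 : y1 ≠ y2)
    (n23 : y2 ≠ y3) (i1 : ¬ le y1 z) (j1 : ¬ le z y1) (i2 : ¬ le y2 z) (j2 : ¬ le z y2)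
    (i3 : ¬ le y3 z) (j3 : ¬ le z y3) : z = .b ∧ y1 = .a1 ∧ y2 = .a2 ∧ y3 = .a3 := by
  cases z with
  | r => exact absurd (by simp [le]) j1
  | t => exact absurd (by cases y1 <;> simp [le]) i1
  | a1 => exact absurd ((inc_a1 i1 j1).trans (inc_a1 i2 j2).symm) n12
  | a2 => exact absurd ((inc_a2 i1 j1).trans (inc_a2 i2 j2).symm) n12
  | a3 => exact absurd ((inc_a3 i1 j1).trans (inc_a3 i2 j2).symm) n12
  | b =>
    refine ⟨rfl, ?_⟩
    rcases inc_b i1 j1 with rfl | rfl | rfl <;> rcases inc_b i2 j2 with rfl | rfl | rfl <;>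
      rcases inc_b i3 j3 with rfl | rfl | rfl <;> simp_all [le]
  | w k =>
    exfalso
    obtain ⟨m1, rfl, h1⟩ := inc_w i1 j1
    obtain ⟨m2, rfl, h2⟩ := inc_w i2 j2
    obtain ⟨m3, rfl, h3⟩ := inc_w i3 j3
    simp only [le] at h12 h23
    simp only [ne_eq, Pt.w.injEq] at n12 n23
    omega

/-! ### The formula -/

/-- `φ` excludes `ψ`. -/
def excl (φ ψ : Form) : Form := .imp φ (neg ψ)

/-- `φ` and `ψ` do not see each other. -/
def inc (φ ψ : Form) : Form := conj (.imp φ (neg (dia ψ))) (.imp ψ (neg (dia φ)))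

/-- The formula describing `G` from its root. -/
def delta : Form :=
  conj (dia (.var 0)) <| conj (dia (.var 3)) <| .box <|
    conj (.imp (.var 0) (dia (.var 1))) <|
    conj (.imp (.var 1) (dia (.var 2))) <|
    conj (excl (.var 0) (.var 1)) <|
    conj (excl (.var 1) (.var 2)) <|
    conj (inc (.var 0) (.var 3)) <|
    conj (inc (.var 1) (.var 3)) <|
    conj (inc (.var 2) (.var 3)) <|
    conj (.imp (.var 2) (dia (.var 5))) <|
    conj (.imp (.var 2) (dia (.var 6))) <|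
    conj (.imp (.var 6) (dia (.var 4))) <|
    conj (excl (.var 4) (.var 6)) <|
    conj (inc (.var 4) (.var 5)) (inc (.var 6) (.var 5))

theorem sat_delta {W : Type u} (R : W → W → Prop) (θ : ℕ → W → Prop) (g : W) :
    Sat R θ delta g ↔ (∃ y, R g y ∧ θ 0 y) ∧ (∃ y, R g y ∧ θ 3 y) ∧
      ∀ y, R g y →
        (θ 0 y → ∃ z, R y z ∧ θ 1 z) ∧ (θ 1 y → ∃ z, R y z ∧ θ 2 z) ∧
        (θ 0 y → ¬ θ 1 y) ∧ (θ 1 y → ¬ θ 2 y) ∧
        ((θ 0 y → ¬ ∃ z, R y z ∧ θ 3 z) ∧ (θ 3 y → ¬ ∃ z, R y z ∧ θ 0 z)) ∧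
        ((θ 1 y → ¬ ∃ z, R y z ∧ θ 3 z) ∧ (θ 3 y → ¬ ∃ z, R y z ∧ θ 1 z)) ∧
        ((θ 2 y → ¬ ∃ z, R y z ∧ θ 3 z) ∧ (θ 3 y → ¬ ∃ z, R y z ∧ θ 2 z)) ∧
        (θ 2 y → ∃ z, R y z ∧ θ 5 z) ∧ (θ 2 y → ∃ z, R y z ∧ θ 6 z) ∧
        (θ 6 y → ∃ z, R y z ∧ θ 4 z) ∧ (θ 4 y → ¬ θ 6 y) ∧
        ((θ 4 y → ¬ ∃ z, R y z ∧ θ 5 z) ∧ (θ 5 y → ¬ ∃ z, R y z ∧ θ 4 z)) ∧
        ((θ 6 y → ¬ ∃ z, R y z ∧ θ 5 z) ∧ (θ 5 y → ¬ ∃ z, R y z ∧ θ 6 z)) := by
  simp only [delta, sat_conj, sat_dia, sat_box, excl, inc, sat_imp, sat_neg, sat_var]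

/-- The formula is satisfied at the root of `G`. -/
theorem delta_root : ∃ θ : ℕ → Pt → Prop, Sat le θ delta .r := by
  refine ⟨fun n p => (n = 0 ∧ p = .a1) ∨ (n = 1 ∧ p = .a2) ∨ (n = 2 ∧ p = .a3) ∨
    (n = 3 ∧ p = .b) ∨ (n = 4 ∧ p = .w 0) ∨ (n = 5 ∧ p = .w 1) ∨ (n = 6 ∧ p = .w 2), ?_⟩
  rw [sat_delta]
  refine ⟨⟨.a1, by simp [le], by simp⟩, ⟨.b, by simp [le], by simp⟩, ?_⟩
  intro y _
  cases y <;> simp [le]
  omega

/-- In `G` the formula fixes the ladder up to a shift. -/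
theorem delta_ladder (θ : ℕ → Pt → Prop) (g : Pt) (h : Sat le θ delta g) :
    ∃ k : ℕ, g = .r ∧ (∀ y, θ 4 y ↔ y = .w k) ∧ (∀ y, θ 5 y ↔ y = .w (k + 1)) ∧
      (∀ y, θ 6 y ↔ y = .w (k + 2)) := by
  rw [sat_delta] at h
  obtain ⟨⟨y1, hg1, hy1⟩, ⟨z, hgz, hz⟩, H⟩ := h
  obtain ⟨y2, h12, hy2⟩ := (H y1 hg1).1 hy1
  have hg2 := le_trans' hg1 h12
  obtain ⟨y3, h23, hy3⟩ := (H y2 hg2).2.1 hy2
  have hg3 := le_trans' hg2 h23
  have n12 : y1 ≠ y2 := by
    rintro rfl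
    exact (H y1 hg1).2.2.1 hy1 hy2
  have n23 : y2 ≠ y3 := by
    rintro rfl
    exact (H y2 hg2).2.2.2.1 hy2 hy3
  obtain ⟨rfl, rfl, rfl, rfl⟩ := chain_cases h12 h23 n12 n23
    (fun hc => (H y1 hg1).2.2.2.2.1.1 hy1 ⟨z, hc, hz⟩)
    (fun hc => (H z hgz).2.2.2.2.1.2 hz ⟨y1, hc, hy1⟩)
    (fun hc => (H y2 hg2).2.2.2.2.2.1.1 hy2 ⟨z, hc, hz⟩)
    (fun hc => (H z hgz).2.2.2.2.2.1.2 hz ⟨y2, hc, hy2⟩)
    (fun hc => (H y3 hg3).2.2.2.2.2.2.1.1 hy3 ⟨z, hc, hz⟩)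
    (fun hc => (H z hgz).2.2.2.2.2.2.1.2 hz ⟨y3, hc, hy3⟩)
  obtain rfl := root_of hg1 hgz
  have hall : ∀ y, le .r y := fun y => by simp [le]
  obtain ⟨x1, h31, hx1⟩ := (H .a3 hg3).2.2.2.2.2.2.2.1 hy3
  obtain ⟨x2, h32, hx2⟩ := (H .a3 hg3).2.2.2.2.2.2.2.2.1 hy3
  obtain ⟨x0, h20, hx0⟩ := (H x2 (hall _)).2.2.2.2.2.2.2.2.2.1 hx2
  have hex : ∀ y, θ 4 y → ¬ θ 6 y := fun y => (H y (hall y)).2.2.2.2.2.2.2.2.2.2.1
  have i45 : ∀ y y', θ 4 y → θ 5 y' → ¬ le y y' ∧ ¬ le y' y := fun y y' h h' =>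
    ⟨fun hc => (H y (hall y)).2.2.2.2.2.2.2.2.2.2.2.1.1 h ⟨y', hc, h'⟩,
      fun hc => (H y' (hall y')).2.2.2.2.2.2.2.2.2.2.2.1.2 h' ⟨y, hc, h⟩⟩
  have i65 : ∀ y y', θ 6 y → θ 5 y' → ¬ le y y' ∧ ¬ le y' y := fun y y' h h' =>
    ⟨fun hc => (H y (hall y)).2.2.2.2.2.2.2.2.2.2.2.2.1 h ⟨y', hc, h'⟩,
      fun hc => (H y' (hall y')).2.2.2.2.2.2.2.2.2.2.2.2.2 h' ⟨y, hc, h⟩⟩
  have n20 : x2 ≠ x0 := by
    rintro rfl
    exact hex _ hx0 hx2
  -- `x1` is on the ladder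
  have hx1w : ∃ m, x1 = .w m := by
    cases x1 with
    | w m => exact ⟨m, rfl⟩
    | r => simp [le] at h31
    | a1 => simp [le] at h31
    | a2 => simp [le] at h31
    | b => simp [le] at h31
    | t => exact absurd (by cases x2 <;> simp [le]) (i65 x2 .t hx2 hx1).1
    | a3 =>
      have e2 := inc_a3 (i65 x2 .a3 hx2 hx1).1 (i65 x2 .a3 hx2 hx1).2
      have e0 := inc_a3 (i45 x0 .a3 hx0 hx1).1 (i45 x0 .a3 hx0 hx1).2
      exact absurd (e2.trans e0.symm) n20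
  obtain ⟨m, rfl⟩ := hx1w
  obtain ⟨m2, rfl, hm2⟩ := inc_w (i65 _ _ hx2 hx1).1 (i65 _ _ hx2 hx1).2
  obtain ⟨m0, rfl, hm0⟩ := inc_w (i45 _ _ hx0 hx1).1 (i45 _ _ hx0 hx1).2
  simp only [le] at h20
  simp only [ne_eq, Pt.w.injEq] at n20
  have e1 : m = m0 + 1 := by omega
  have e2 : m2 = m0 + 2 := by omega
  subst e1 e2
  refine ⟨m0, rfl, ?_, ?_, ?_⟩
  · intro y
    constructor
    · intro hy
      obtain ⟨j, rfl, hj⟩ := inc_w (i45 _ _ hy hx1).1 (i45 _ _ hy hx1).2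
      rcases hj with hj | hj
      · rw [show j = m0 by omega]
      · exact absurd (show θ 6 (.w j) by rw [show j = m0 + 2 by omega]; exact hx2) (hex _ hy)
    · rintro rfl
      exact hx0
  · intro y
    constructor
    · intro hy
      obtain ⟨j, rfl, hj⟩ := inc_w (k := m0) (y := y) (i45 _ _ hx0 hy).2 (i45 _ _ hx0 hy).1
      obtain ⟨j', hj', hj''⟩ := inc_w (k := m0 + 2) (y := .w j) (i65 _ _ hx2 hy).2
        (i65 _ _ hx2 hy).1
      simp only [Pt.w.injEq] at hj'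
      rw [show j = m0 + 1 by omega]
    · rintro rfl
      exact hx1
  · intro y
    constructor
    · intro hy
      obtain ⟨j, rfl, hj⟩ := inc_w (i65 _ _ hy hx1).1 (i65 _ _ hy hx1).2
      rcases hj with hj | hj
      · exact absurd (show θ 6 (.w m0) by rw [show m0 = j by omega]; exact hy) (hex _ hx0)
      · rw [show j = m0 + 2 by omega]
    · rintro rfl
      exact hx2

/-- The formulas defining the rungs of the ladder. -/
def alpha : ℕ → Form
  | 0 => .var 4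
  | 1 => .var 5
  | 2 => .var 6
  | n + 3 => conj (dia (alpha (n + 1))) (conj (dia (alpha n)) (neg (dia (alpha (n + 2)))))

theorem alpha_ladder (θ : ℕ → Pt → Prop) (k : ℕ) (h0 : ∀ y, θ 4 y ↔ y = .w k)
    (h1 : ∀ y, θ 5 y ↔ y = .w (k + 1)) (h2 : ∀ y, θ 6 y ↔ y = .w (k + 2)) :
    ∀ (n : ℕ) (y : Pt), Sat le θ (alpha n) y ↔ y = .w (k + n)
  | 0, y => h0 y
  | 1, y => h1 y
  | 2, y => h2 y
  | n + 3, y => by
    have e0 := alpha_ladder θ k h0 h1 h2 n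
    have e1 := alpha_ladder θ k h0 h1 h2 (n + 1)
    have e2 := alpha_ladder θ k h0 h1 h2 (n + 2)
    simp only [alpha, sat_conj, sat_dia, sat_neg, e0, e1, e2, exists_eq_right]
    cases y <;> simp [le]
    omega

/-- `Log G` lacks the finite model property. -/
theorem not_hasFMP : ¬ HasFMP (Log le) := by
  intro hF
  have hn : neg delta ∉ Log le := by
    intro h
    obtain ⟨θ, hθ⟩ := delta_root
    exact h θ .r hθ
  obtain ⟨F, hFin, S, hL, hS⟩ := hF _ hn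
  have h1 : ∃ (η : ℕ → F → Prop) (s : F), Sat S η delta s := by
    by_contra hcon
    push Not at hcon
    exact hS fun η s => hcon η s
  obtain ⟨η, s, hs⟩ := h1
  have A : ∀ n, ∃ y, S s y ∧ Sat S η (alpha n) y := by
    intro n
    have h2 : Form.imp delta (dia (alpha n)) ∈ Log le := by
      intro θ g hg
      obtain ⟨k, rfl, h4, h5, h6⟩ := delta_ladder θ g hg
      rw [sat_dia]
      exact ⟨.w (k + n), by simp [le], (alpha_ladder θ k h4 h5 h6 n _).2 rfl⟩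
    have h3 := hL h2 η s hs
    rwa [sat_dia] at h3
  have B : ∀ n m, n ≠ m → ∀ y, S s y → Sat S η (alpha n) y → ¬ Sat S η (alpha m) y := by
    intro n m hnm
    have h2 : Form.imp delta (.box (.imp (alpha n) (neg (alpha m)))) ∈ Log le := by
      intro θ g hg y _ hy1 hy2
      obtain ⟨k, rfl, h4, h5, h6⟩ := delta_ladder θ g hg
      have e1 := (alpha_ladder θ k h4 h5 h6 n _).1 hy1
      have e2 := (alpha_ladder θ k h4 h5 h6 m _).1 hy2
      rw [e1, Pt.w.injEq] at e2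
      omega
    exact hL h2 η s hs
  choose y hy1 hy2 using A
  have hinj : Function.Injective y := by
    intro n m hnm
    by_contra hne
    exact B n m hne (y n) (hy1 n) (hy2 n) (hnm ▸ hy2 m)
  exact not_injective_infinite_finite y hinj

end Pool.Agent.R359.OmegaExt
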