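import Mathlib
import Pool.Agent.R359.OmegaExt

/-!
# The logic of `G` extends the logic of `(ω ^ n, ≤)` for `n ≥ 2`
-/

namespace Pool.Agent.R359.OmegaExt

/-- The rung `w (m - s)`, or the top point when `s > m`. -/
def rung (s m : ℕ) : Pt := if s ≤ m then .w (m - s) else .t

/-- The map from the quadrant onto the part of `G` without the rungs below `w N`. -/
def f (N x y : ℕ) : Pt :=
  if x ≤ N + 3 then
    if y ≤ N + 3 then
      if y = 0 then
        if x = 0 then .r else if x = 1 then .a1 else if x = 2 then .a2 else .a3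
      else if x = 0 then .b else if x ≤ y then rung (2 * x) (N + 2) else rung (2 * y) (N + 2)
    else rung (3 * (y - (N + 3)) + 2 * x) (N + 2)
  else
    if y ≤ N + 3 then rung (3 * (x - (N + 3)) + 2 * y) (N + 2) else .t

theorem f_mono_right (N x y : ℕ) : le (f N x y) (f N (x + 1) y) := by
  unfold f rung
  split_ifs <;> first | (exfalso; omega) | (simp only [le]; omega) | (simp [le])

theorem f_mono_up (N x y : ℕ) : le (f N x y) (f N x (y + 1)) := by
  unfold f rung
  split_ifs <;> first | (exfalso; omega) | (simp only [le]; omega) | (simp [le])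

/-- All values of `f N` avoid the rungs below `w N`. -/
theorem f_ne (N x y k : ℕ) (hk : N < k) : f N x y ≠ .w k := by
  unfold f rung
  split_ifs <;> simp <;> omega

/-- Far from the origin `f N` is the top point. -/
theorem f_far (N x y : ℕ) (h : 6 * N + 20 ≤ x + y) : f N x y = .t := by
  unfold f rung
  split_ifs <;> first | (exfalso; omega) | rfl

theorem f_row {N x : ℕ} (h : 3 ≤ x) (h' : x ≤ N + 3) : f N x 0 = .a3 := by
  unfold f
  rw [if_pos h', if_pos (by omega), if_pos rfl, if_neg (by omega), if_neg (by omega),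
    if_neg (by omega)]

theorem f_col {N y : ℕ} (h : 1 ≤ y) (h' : y ≤ N + 3) : f N 0 y = .b := by
  unfold f
  rw [if_pos (by omega), if_pos h', if_neg (by omega), if_pos rfl]

theorem f_in1 {N x y : ℕ} (h : 1 ≤ x) (h' : x ≤ y) (h'' : y ≤ N + 3) :
    f N x y = rung (2 * x) (N + 2) := by
  unfold f
  rw [if_pos (by omega), if_pos h'', if_neg (by omega), if_neg (by omega), if_pos h']

theorem f_in2 {N x y : ℕ} (h : 1 ≤ y) (h' : y ≤ x) (h'' : x ≤ N + 3) :
    f N x y = rung (2 * y) (N + 2) := by
  rcases Nat.eq_or_lt_of_le h' with rfl | h1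
  · exact f_in1 h (by omega) h''
  · unfold f
    rw [if_pos (by omega), if_pos (by omega), if_neg (by omega), if_neg (by omega),
      if_neg (by omega)]

theorem f_top {N x y : ℕ} (h : x ≤ N + 3) (h' : N + 3 < y) :
    f N x y = rung (3 * (y - (N + 3)) + 2 * x) (N + 2) := by
  unfold f
  rw [if_pos (by omega), if_neg (by omega)]

theorem f_right {N x y : ℕ} (h : y ≤ N + 3) (h' : N + 3 < x) :
    f N x y = rung (3 * (x - (N + 3)) + 2 * y) (N + 2) := by
  unfold f
  rw [if_neg (by omega), if_pos (by omega)]

theorem f_out {N x y : ℕ} (h : N + 3 < y) (h' : N + 3 < x) : f N x y = .t := by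
  unfold f
  rw [if_neg (by omega), if_neg (by omega)]

theorem rung_le {s m k : ℕ} :
    le (rung s m) (.w k) ↔ s ≤ m ∧ (k = m - s ∨ k + 2 ≤ m - s) := by
  unfold rung
  split_ifs with h
  · simp [le, h]
  · simp [le, h]

theorem rung_le_K {s m : ℕ} {g : Pt} (hg : g = .r ∨ g = .a1 ∨ g = .a2 ∨ g = .a3 ∨ g = .b) :
    ¬ le (rung s m) g := by
  unfold rung
  rcases hg with rfl | rfl | rfl | rfl | rfl <;> split_ifs <;> simp [le]

theorem f_eq_r {N x y : ℕ} (h : f N x y = .r) : x = 0 ∧ y = 0 := by
  revert h
  unfold f rung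
  split_ifs <;> simp <;> omega

theorem f_eq_a1 {N x y : ℕ} (h : f N x y = .a1) : x = 1 ∧ y = 0 := by
  revert h
  unfold f rung
  split_ifs <;> simp <;> omega

theorem f_eq_a2 {N x y : ℕ} (h : f N x y = .a2) : x = 2 ∧ y = 0 := by
  revert h
  unfold f rung
  split_ifs <;> simp <;> omega

theorem f_10 (N : ℕ) : f N 1 0 = .a1 := by simp [f]

theorem f_20 (N : ℕ) : f N 2 0 = .a2 := by simp [f]

theorem rung_ne {s m k : ℕ} : rung s m ≠ .w k ↔ ¬ (s ≤ m ∧ k = m - s) := by
  unfold rung
  split_ifs with h
  · simp only [ne_eq, Pt.w.injEq, h, true_and]; omega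
  · simp [h]

theorem f_back_w (N x y k : ℕ) (hk : k ≤ N) (hne : f N x y ≠ .w k)
    (h : le (f N x y) (.w k)) :
    le (f N (x + 1) y) (.w k) ∨ le (f N x (y + 1)) (.w k) := by
  rcases Nat.lt_or_ge (N + 3) x with hx | hx
  · rcases Nat.lt_or_ge (N + 3) y with hy | hy
    · rw [f_out hy hx] at h
      simp [le] at h
    · rcases Nat.lt_or_ge y (N + 3) with hy' | hy'
      · rw [f_right hy hx, rung_le] at h
        rw [f_right hy hx, rung_ne] at hne
        rw [f_right hy (by omega : N + 3 < x + 1), f_right (by omega : y + 1 ≤ N + 3) hx,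
          rung_le, rung_le]
        omega
      · rw [f_right hy hx, rung_le] at h
        omega
  · rcases Nat.lt_or_ge (N + 3) y with hy | hy
    · rcases Nat.lt_or_ge x (N + 3) with hx' | hx'
      · rw [f_top hx hy, rung_le] at h
        rw [f_top hx hy, rung_ne] at hne
        rw [f_top hx (by omega : N + 3 < y + 1), f_top (by omega : x + 1 ≤ N + 3) hy,
          rung_le, rung_le]
        omega
      · rw [f_top hx hy, rung_le] at h
        omega
    · rcases Nat.eq_zero_or_pos y with rfl | hy0
      · rcases Nat.lt_or_ge x 3 with hx3 | hx3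
        · left
          obtain rfl | rfl | rfl : x = 0 ∨ x = 1 ∨ x = 2 := by omega
          · rw [f_10]; trivial
          · rw [f_20]; trivial
          · rw [f_row (by omega) (by omega)]; trivial
        · rcases Nat.lt_or_ge x (N + 3) with hx' | hx'
          · left
            rw [f_row (by omega) (by omega)]; trivial
          · have hxe : x = N + 3 := by omega
            subst hxe
            rw [f_right (by omega : 0 ≤ N + 3) (by omega : N + 3 < N + 3 + 1),
              f_in2 (by omega : 1 ≤ 0 + 1) (by omega) (le_refl _), rung_le, rung_le]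
            omega
      · rcases Nat.eq_zero_or_pos x with rfl | hx0
        · rcases Nat.lt_or_ge y (N + 3) with hy' | hy'
          · right
            rw [f_col (by omega) (by omega)]; trivial
          · have hye : y = N + 3 := by omega
            subst hye
            rw [f_top (by omega : 0 ≤ N + 3) (by omega : N + 3 < N + 3 + 1),
              f_in1 (by omega : 1 ≤ 0 + 1) (by omega) (le_refl _), rung_le, rung_le]
            omega
        · rcases lt_trichotomy x y with hxy | hxy | hxy
          · rw [f_in1 hx0 hxy.le hy] at h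
            rcases Nat.lt_or_ge y (N + 3) with hy' | hy'
            · right
              rw [f_in1 hx0 (by omega) (by omega)]
              exact h
            · rw [f_in1 (by omega : 1 ≤ x + 1) (by omega) hy, f_top hx (by omega), rung_le,
                rung_le]
              rw [rung_le] at h
              rw [f_in1 hx0 hxy.le hy, rung_ne] at hne
              omega
          · subst hxy
            rw [f_in1 hx0 (le_refl _) hy] at h
            rcases Nat.lt_or_ge x (N + 3) with hy' | hy'
            · left
              rw [f_in2 hx0 (by omega) (by omega)]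
              exact h
            · rw [rung_le] at h
              omega
          · rw [f_in2 hy0 hxy.le hx] at h
            rcases Nat.lt_or_ge x (N + 3) with hy' | hy'
            · left
              rw [f_in2 hy0 (by omega) (by omega)]
              exact h
            · rw [f_in2 (by omega : 1 ≤ y + 1) (by omega) hx, f_right hy (by omega), rung_le,
                rung_le]
              rw [rung_le] at h
              rw [f_in2 hy0 hxy.le hx, rung_ne] at hne
              omega

theorem f_back (N x y : ℕ) (g : Pt) (hg : ∀ k, g = .w k → k ≤ N) (h : le (f N x y) g) :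
    g = f N x y ∨ le (f N (x + 1) y) g ∨ le (f N x (y + 1)) g := by
  cases g with
  | t => right; left; cases f N (x + 1) y <;> simp [le]
  | w k =>
    by_cases hne : f N x y = .w k
    · exact Or.inl hne.symm
    · exact Or.inr (f_back_w N x y k (hg k rfl) hne h)
  | r =>
    left
    generalize f N x y = p at h
    cases p <;> simp_all [le]
  | b =>
    have h1 : f N x y = .r ∨ f N x y = .b := by
      generalize f N x y = p at h
      cases p <;> simp_all [le]
    rcases h1 with h1 | h1
    · obtain ⟨rfl, rfl⟩ := f_eq_r h1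
      right; right
      rw [f_col (by omega) (by omega)]; trivial
    · exact Or.inl h1.symm
  | a1 =>
    have h1 : f N x y = .r ∨ f N x y = .a1 := by
      generalize f N x y = p at h
      cases p <;> simp_all [le]
    rcases h1 with h1 | h1
    · obtain ⟨rfl, rfl⟩ := f_eq_r h1
      right; left
      rw [f_10]; trivial
    · exact Or.inl h1.symm
  | a2 =>
    have h1 : f N x y = .r ∨ f N x y = .a1 ∨ f N x y = .a2 := by
      generalize f N x y = p at h
      cases p <;> simp_all [le]
    rcases h1 with h1 | h1 | h1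
    · obtain ⟨rfl, rfl⟩ := f_eq_r h1
      right; left
      rw [f_10]; trivial
    · obtain ⟨rfl, rfl⟩ := f_eq_a1 h1
      right; left
      rw [f_20]; trivial
    · exact Or.inl h1.symm
  | a3 =>
    have h1 : f N x y = .r ∨ f N x y = .a1 ∨ f N x y = .a2 ∨ f N x y = .a3 := by
      generalize f N x y = p at h
      cases p <;> simp_all [le]
    rcases h1 with h1 | h1 | h1 | h1
    · obtain ⟨rfl, rfl⟩ := f_eq_r h1
      right; left
      rw [f_10]; trivial
    · obtain ⟨rfl, rfl⟩ := f_eq_a1 h1
      right; left
      rw [f_20]; trivial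
    · obtain ⟨rfl, rfl⟩ := f_eq_a2 h1
      right; left
      rw [f_row (by omega) (by omega)]; trivial
    · exact Or.inl h1.symm

theorem f_mono (N : ℕ) : ∀ (d x y x' y' : ℕ), x ≤ x' → y ≤ y' → (x' - x) + (y' - y) = d →
    le (f N x y) (f N x' y') := by
  intro d
  induction d with
  | zero =>
    intro x y x' y' hx hy h
    obtain rfl : x = x' := by omega
    obtain rfl : y = y' := by omega
    exact le_rfl' _
  | succ d ih =>
    intro x y x' y' hx hy h
    rcases Nat.lt_or_ge x x' with h1 | h1
    · exact le_trans' (f_mono_right N x y) (ih (x + 1) y x' y' h1 hy (by omega))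
    · exact le_trans' (f_mono_up N x y) (ih x (y + 1) x' y' hx (by omega) (by omega))

theorem f_reach (N : ℕ) (g : Pt) (hg : ∀ k, g = .w k → k ≤ N) : ∀ (d x y : ℕ),
    6 * N + 20 - (x + y) = d → le (f N x y) g →
      ∃ x' y', x ≤ x' ∧ y ≤ y' ∧ f N x' y' = g := by
  intro d
  induction d with
  | zero =>
    intro x y h hl
    rw [f_far N x y (by omega)] at hl
    refine ⟨x, y, le_refl _, le_refl _, ?_⟩
    rw [f_far N x y (by omega)]
    cases g <;> simp_all [le]
  | succ d ih =>
    intro x y h hl
    rcases f_back N x y g hg hl with h1 | h1 | h1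
    · exact ⟨x, y, le_refl _, le_refl _, h1.symm⟩
    · obtain ⟨x', y', h2, h3, h4⟩ := ih (x + 1) y (by omega) h1
      exact ⟨x', y', by omega, h3, h4⟩
    · obtain ⟨x', y', h2, h3, h4⟩ := ih x (y + 1) (by omega) h1
      exact ⟨x', y', h2, by omega, h4⟩

/-- The relation of the direct power `(ω ^ n, ≤)`. -/
def powLe (n : ℕ) (x y : Fin n → ℕ) : Prop := ∀ i, x i ≤ y i

theorem truth {n : ℕ} (i j : Fin n) (hij : i ≠ j) (θ : ℕ → Pt → Prop) : ∀ ψ : Form,
    ∃ N₀, ∀ N ≥ N₀, ∀ x : Fin n → ℕ,
      (Sat (powLe n) (fun v x => θ v (f N (x i) (x j))) ψ x ↔ Sat le θ ψ (f N (x i) (x j)))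
  | .var v => ⟨0, fun N _ x => Iff.rfl⟩
  | .bot => ⟨0, fun N _ x => Iff.rfl⟩
  | .imp φ ψ => by
    obtain ⟨N₁, h1⟩ := truth i j hij θ φ
    obtain ⟨N₂, h2⟩ := truth i j hij θ ψ
    exact ⟨max N₁ N₂, fun N hN x => imp_congr (h1 N (le_trans (le_max_left _ _) hN) x)
      (h2 N (le_trans (le_max_right _ _) hN) x)⟩
  | .box φ => by
    classical
    obtain ⟨N₁, h1⟩ := truth i j hij θ φ
    have hj : ∃ m : ℕ, (∃ k, ¬ Sat le θ φ (.w k)) → ∃ k ≤ m, ¬ Sat le θ φ (.w k) := by
      by_cases h : ∃ k, ¬ Sat le θ φ (.w k)
      · obtain ⟨k, hk⟩ := h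
        exact ⟨k, fun _ => ⟨k, le_refl _, hk⟩⟩
      · exact ⟨0, fun h' => absurd h' h⟩
    obtain ⟨m, hm⟩ := hj
    refine ⟨max N₁ m, fun N hN x => ?_⟩
    have hN₁ : N₁ ≤ N := le_trans (le_max_left _ _) hN
    have hNm : m ≤ N := le_trans (le_max_right _ _) hN
    rw [sat_box, sat_box]
    have hreach : ∀ g : Pt, (∀ k, g = .w k → k ≤ N) → le (f N (x i) (x j)) g →
        ∃ v : Fin n → ℕ, powLe n x v ∧ f N (v i) (v j) = g := by
      intro g hg hl
      obtain ⟨x', y', hx', hy', hf⟩ := f_reach N g hg _ _ _ rfl hl
      refine ⟨Function.update (Function.update x i x') j y', ?_, ?_⟩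
      · intro k
        by_cases hkj : k = j
        · subst hkj; rw [Function.update_self]; exact hy'
        · rw [Function.update_of_ne hkj]
          by_cases hki : k = i
          · subst hki; rw [Function.update_self]; exact hx'
          · rw [Function.update_of_ne hki]
      · rw [Function.update_self, Function.update_of_ne hij, Function.update_self, hf]
    constructor
    · intro H g hl
      by_cases hg : ∀ k, g = .w k → k ≤ N
      · obtain ⟨v, hv, rfl⟩ := hreach g hg hl
        exact (h1 N hN₁ v).1 (H v hv)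
      · push Not at hg
        obtain ⟨k, rfl, hk⟩ := hg
        by_contra hcon
        obtain ⟨k', hk', hsat⟩ := hm ⟨k, hcon⟩
        have hl' : le (f N (x i) (x j)) (.w k') := by
          have hne := f_ne N (x i) (x j)
          generalize f N (x i) (x j) = p at hl hne
          cases p <;> simp_all [le]
          rename_i l
          have := hne l
          by_contra hh
          exact absurd rfl (hne l (by omega))
        obtain ⟨v, hv, hfv⟩ := hreach (.w k') (fun l hl => by
          rw [Pt.w.injEq] at hl; omega) hl'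
        apply hsat
        rw [← hfv]
        exact (h1 N hN₁ v).1 (H v hv)
    · intro H v hv
      rw [h1 N hN₁ v]
      exact H _ (f_mono N _ _ _ _ _ (hv i) (hv j) rfl)

theorem log_powLe_subset {n : ℕ} (hn : 2 ≤ n) : Log (powLe n) ⊆ Log le := by
  intro ψ hψ θ g
  have hij : (⟨0, by omega⟩ : Fin n) ≠ ⟨1, by omega⟩ := by
    simp
  obtain ⟨N₀, h0⟩ := truth _ _ hij θ ψ
  obtain ⟨m, hm⟩ : ∃ m, ∀ k, g = .w k → k ≤ m := by
    cases g with
    | w k => exact ⟨k, fun l hl => by rw [Pt.w.injEq] at hl; omega⟩
    | _ => exact ⟨0, fun l hl => by simp at hl⟩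
  obtain ⟨x', y', -, -, hf⟩ := f_reach (max N₀ m) g
    (fun k hk => le_trans (hm k hk) (le_max_right _ _)) _ 0 0 rfl (by simp [f, le])
  have h1 := h0 (max N₀ m) (le_max_left _ _) (fun i => if i.val = 0 then x' else y')
  simp only at h1
  have h2 := h1.1 (hψ _ _)
  simp only [↓reduceIte, one_ne_zero] at h2
  rwa [hf] at h2

end Pool.Agent.R359.OmegaExt
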