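import Mathlib

/-!
# Finite products of well-orders: finite tuned partitions
-/

namespace Pool.Agent.R359.OrdProd

open Set

universe u

section Boxes

variable {ι : Type} {W : ι → Type u} [∀ i, LinearOrder (W i)]

/-- The points strictly below a bound in every coordinate. -/
def LB (β : ∀ i, WithTop (W i)) : Set (∀ i, W i) :=
  {w | ∀ i, (w i : WithTop (W i)) < β i}

/-- The points strictly below some point of `LB β` in every coordinate. -/
def LB' (β : ∀ i, WithTop (W i)) : Set (∀ i, W i) :=
  {w | ∀ i, ∃ t : W i, w i < t ∧ (t : WithTop (W i)) < β i}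

/-- A half-open box. -/
def Box (a : ∀ i, W i) (b : ∀ i, WithTop (W i)) : Set (∀ i, W i) :=
  {x | a ≤ x ∧ x ∈ LB b}

theorem LB'_subset_LB (β : ∀ i, WithTop (W i)) : LB' β ⊆ LB β := by
  intro w hw i
  obtain ⟨t, h1, h2⟩ := hw i
  exact lt_trans (WithTop.coe_lt_coe.2 h1) h2

theorem LB_down {β : ∀ i, WithTop (W i)} {w z : ∀ i, W i} (h : w ≤ z) (hz : z ∈ LB β) :
    w ∈ LB β := fun i => lt_of_le_of_lt (WithTop.coe_le_coe.2 (h i)) (hz i)

/-- A finite partition of `B`, refining the coloring `c`, in which every class has a lower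
shadow given by a bound, and such that being below these bounds is invariant on classes. -/
structure Good (B : Set (∀ i, W i)) {C D : Type} (c : (∀ i, W i) → C)
    (d : (∀ i, W i) → D) (β : D → ∀ i, WithTop (W i)) : Prop where
  color : ∀ x ∈ B, ∀ y ∈ B, d x = d y → c x = c y
  below : ∀ x ∈ B, ∀ w, (∃ z ∈ B, d z = d x ∧ w ≤ z) ↔ w ∈ LB (β (d x))
  lb : ∀ x ∈ B, ∀ y ∈ B, d x = d y → ∀ v ∈ B, (x ∈ LB (β (d v)) ↔ y ∈ LB (β (d v)))
  lb' : ∀ x ∈ B, ∀ y ∈ B, d x = d y → ∀ v ∈ B, (x ∈ LB' (β (d v)) ↔ y ∈ LB' (β (d v)))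

/-- Directedness: a point of the box above finitely many points of the box, and above the
largest element below the bound in each coordinate in which there is one. -/
theorem exists_apex [Finite ι] {a : ∀ i, W i} {b : ∀ i, WithTop (W i)} (ha : a ∈ LB b)
    {C : Type} [Finite C] (q : C → ∀ i, W i) (hq : ∀ e, q e ∈ LB b) :
    ∃ p : ∀ i, W i, p ∈ LB b ∧ a ≤ p ∧ (∀ e, q e ≤ p) ∧
      ∀ i, ∀ m : W i, (m : WithTop (W i)) < b i →
        (∀ t : W i, (t : WithTop (W i)) < b i → t ≤ m) → m ≤ p i := by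
  classical
  have key : ∀ i, ∃ p : W i, (p : WithTop (W i)) < b i ∧ a i ≤ p ∧ (∀ e, q e i ≤ p) ∧
      ∀ m : W i, (m : WithTop (W i)) < b i →
        (∀ t : W i, (t : WithTop (W i)) < b i → t ≤ m) → m ≤ p := by
    intro i
    let T := {t : W i // (t : WithTop (W i)) < b i}
    haveI : Nonempty T := ⟨⟨a i, ha i⟩⟩
    let f : Option C → T := fun o => match o with
      | none => ⟨a i, ha i⟩
      | some e => ⟨q e i, hq e i⟩
    obtain ⟨M, hM⟩ := Finite.exists_le f
    by_cases hmax : ∃ m : W i, (m : WithTop (W i)) < b i ∧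
        ∀ t : W i, (t : WithTop (W i)) < b i → t ≤ m
    · obtain ⟨m, hm1, hm2⟩ := hmax
      exact ⟨m, hm1, hm2 _ (ha i), fun e => hm2 _ (hq e i), fun m' hm' _ => hm2 _ hm'⟩
    · refine ⟨M.1, M.2, hM none, fun e => hM (some e), fun m hm1 hm2 => ?_⟩
      exact absurd ⟨m, hm1, hm2⟩ hmax
  choose p hp using key
  exact ⟨p, fun i => (hp i).1, fun i => (hp i).2.1, fun e i => (hp i).2.2.1 e,
    fun i => (hp i).2.2.2⟩

theorem exists_good [Finite ι] [∀ i, WellFoundedLT (W i)] (b : ∀ i, WithTop (W i)) :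
    ∀ a ∈ LB b, ∀ (C : Type) [Finite C] (c : (∀ i, W i) → C),
      ∃ (D : Type) (_ : Finite D) (d : (∀ i, W i) → D) (β : D → ∀ i, WithTop (W i)),
        Good (Box a b) c d β := by
  classical
  haveI := Fintype.ofFinite ι
  induction b using WellFoundedLT.induction with
  | ind b IH =>
  intro a ha C _ c
  -- witnesses of non-cofinality
  have hw : ∀ e : C, ∃ q : ∀ i, W i, q ∈ Box a b ∧
      ((∃ q' ∈ Box a b, ∀ z ∈ Box a b, c z = e → ¬ q' ≤ z) →
        ∀ z ∈ Box a b, c z = e → ¬ q ≤ z) := by
    intro e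
    by_cases h : ∃ q' ∈ Box a b, ∀ z ∈ Box a b, c z = e → ¬ q' ≤ z
    · obtain ⟨q', h1, h2⟩ := h
      exact ⟨q', h1, fun _ => h2⟩
    · exact ⟨a, ⟨le_refl _, ha⟩, fun h' => absurd h' h⟩
  choose q hqB hq using hw
  obtain ⟨p, hpb, hap, hqp, hpm⟩ := exists_apex ha q (fun e => (hqB e).2)
  -- inner induction
  have inner : ∀ n : ℕ, ∀ a' : ∀ i, W i, a ≤ a' → a' ∈ LB b →
      (Finset.univ.filter (fun i => a' i < p i)).card = n →
      ∃ (D : Type) (_ : Finite D) (d : (∀ i, W i) → D) (β : D → ∀ i, WithTop (W i)),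
        Good (Box a' b) c d β := by
    intro n
    induction n with
    | zero =>
      intro a' haa' ha' hcard
      have hpa : p ≤ a' := by
        intro i
        by_contra hcon
        rw [Finset.card_eq_zero] at hcard
        have : i ∈ (Finset.univ.filter (fun i => a' i < p i)) := by
          simp only [Finset.mem_filter, Finset.mem_univ, true_and]
          exact not_le.1 hcon
        rw [hcard] at this
        simp at this
      refine ⟨C, inferInstance, c, fun _ => b, ?_, ?_, ?_, ?_⟩
      · intro x _ y _ h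
        exact h
      · intro x hx w
        constructor
        · rintro ⟨z, hz, -, hwz⟩
          exact LB_down hwz hz.2
        · intro hw
          have hcof : ¬ ∃ q' ∈ Box a b, ∀ z ∈ Box a b, c z = c x → ¬ q' ≤ z := by
            intro h
            have hx' : x ∈ Box a b := ⟨le_trans haa' hx.1, hx.2⟩
            exact hq (c x) h x hx' rfl (le_trans (hqp _) (le_trans hpa hx.1))
          push Not at hcof
          have hwa : (fun i => max (w i) (a' i)) ∈ Box a b := by
            refine ⟨fun i => le_trans (haa' i) (le_max_right _ _), fun i => ?_⟩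
            rcases le_total (w i) (a' i) with h | h
            · simpa only [max_eq_right h] using ha' i
            · simpa only [max_eq_left h] using hw i
          obtain ⟨z, hz, hcz, hle⟩ := hcof _ hwa
          exact ⟨z, ⟨fun i => le_trans (le_max_right _ _) (hle i), hz.2⟩, hcz,
            fun i => le_trans (le_max_left _ _) (hle i)⟩
      · intro x hx y hy _ v _
        exact ⟨fun _ => hy.2, fun _ => hx.2⟩
      · have aux : ∀ x ∈ Box a' b, ∀ y ∈ Box a' b, x ∈ LB' b → y ∈ LB' b := by
          intro x hx y hy hxb i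
          by_contra hcon
          push Not at hcon
          have hmax : ∀ t : W i, (t : WithTop (W i)) < b i → t ≤ y i := by
            intro t ht
            by_contra hh
            exact absurd ht (not_lt.2 (hcon t (not_le.1 hh)))
          have h1 : ∀ m : W i, (m : WithTop (W i)) < b i →
            (∀ t : W i, (t : WithTop (W i)) < b i → t ≤ m) → m ≤ x i :=
            fun m hm1 hm2 => le_trans (hpm i m hm1 hm2) (le_trans (hpa i) (hx.1 i))
          have h2 := h1 (y i) (hy.2 i) hmax
          obtain ⟨t, ht1, ht2⟩ := hxb i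
          exact absurd (lt_of_le_of_lt h2 ht1) (not_lt.2 (hmax t ht2))
        intro x hx y hy _ v _
        exact ⟨aux x hx y hy, aux y hy x hx⟩
    | succ n ihn =>
      intro a' haa' ha' hcard
      have hne : (Finset.univ.filter (fun i => a' i < p i)).Nonempty := by
        rw [← Finset.card_pos, hcard]; omega
      obtain ⟨i, hi⟩ := hne
      simp only [Finset.mem_filter, Finset.mem_univ, true_and] at hi
      -- high part
      set a₁ := Function.update a' i (p i) with ha₁
      have ha'a₁ : a' ≤ a₁ := by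
        intro j
        by_cases hj : j = i
        · subst hj; rw [ha₁, Function.update_self]; exact hi.le
        · rw [ha₁, Function.update_of_ne hj]
      have ha₁b : a₁ ∈ LB b := by
        intro j
        by_cases hj : j = i
        · subst hj; rw [ha₁, Function.update_self]; exact hpb j
        · rw [ha₁, Function.update_of_ne hj]; exact ha' j
      have hc₁ : (Finset.univ.filter (fun j => a₁ j < p j)).card = n := by
        have : Finset.univ.filter (fun j => a₁ j < p j) =
            (Finset.univ.filter (fun j => a' j < p j)).erase i := by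
          ext j
          simp only [Finset.mem_filter, Finset.mem_univ, true_and, Finset.mem_erase]
          by_cases hj : j = i
          · subst hj; rw [ha₁, Function.update_self]; simp
          · rw [ha₁, Function.update_of_ne hj]; simp [hj]
        rw [this, Finset.card_erase_of_mem (by simpa using hi), hcard]
        omega
      obtain ⟨D₁, hD₁, d₁, β₁, G₁⟩ := ihn a₁ (le_trans haa' ha'a₁) ha₁b hc₁
      -- low part
      set b₂ := Function.update b i ((p i : W i) : WithTop (W i)) with hb₂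
      have hb₂b : b₂ < b := by
        refine Pi.lt_def.2 ⟨fun j => ?_, i, ?_⟩
        · by_cases hj : j = i
          · subst hj; rw [hb₂, Function.update_self]; exact (hpb j).le
          · rw [hb₂, Function.update_of_ne hj]
        · rw [hb₂, Function.update_self]; exact hpb i
      have ha'b₂ : a' ∈ LB b₂ := by
        intro j
        by_cases hj : j = i
        · subst hj; rw [hb₂, Function.update_self]; exact WithTop.coe_lt_coe.2 hi
        · rw [hb₂, Function.update_of_ne hj]; exact ha' j
      let c₂ : (∀ i, W i) → C × Set D₁ × Set D₁ := fun x =>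
        (c x, {e | x ∈ LB (β₁ e)}, {e | x ∈ LB' (β₁ e)})
      obtain ⟨D₂, hD₂, d₂, β₂, G₂⟩ := IH b₂ hb₂b a' ha'b₂ (C × Set D₁ × Set D₁) c₂
      have hhigh : ∀ x, x ∈ Box a₁ b ↔ x ∈ Box a' b ∧ p i ≤ x i := by
        intro x
        constructor
        · intro hx
          refine ⟨⟨le_trans ha'a₁ hx.1, hx.2⟩, ?_⟩
          have := hx.1 i
          rwa [ha₁, Function.update_self] at this
        · rintro ⟨hx, hpx⟩
          refine ⟨fun j => ?_, hx.2⟩
          by_cases hj : j = i
          · subst hj; rw [ha₁, Function.update_self]; exact hpx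
          · rw [ha₁, Function.update_of_ne hj]; exact hx.1 j
      have hlow : ∀ x, x ∈ Box a' b₂ ↔ x ∈ Box a' b ∧ ¬ p i ≤ x i := by
        intro x
        constructor
        · intro hx
          refine ⟨⟨hx.1, fun j => lt_of_lt_of_le (hx.2 j) (hb₂b.le j)⟩, ?_⟩
          have := hx.2 i
          rw [hb₂, Function.update_self, WithTop.coe_lt_coe] at this
          exact not_le.2 this
        · rintro ⟨hx, hpx⟩
          refine ⟨hx.1, fun j => ?_⟩
          by_cases hj : j = i
          · subst hj; rw [hb₂, Function.update_self]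
            exact WithTop.coe_lt_coe.2 (not_le.1 hpx)
          · rw [hb₂, Function.update_of_ne hj]; exact hx.2 j
      let d : (∀ i, W i) → D₁ ⊕ D₂ := fun x =>
        if p i ≤ x i then Sum.inl (d₁ x) else Sum.inr (d₂ x)
      have hd1 : ∀ x, p i ≤ x i → d x = Sum.inl (d₁ x) := fun x hx => if_pos hx
      have hd2 : ∀ x, ¬ p i ≤ x i → d x = Sum.inr (d₂ x) := fun x hx => if_neg hx
      let β : D₁ ⊕ D₂ → ∀ i, WithTop (W i) := Sum.elim β₁ β₂
      have hno : ∀ x, p i ≤ x i → ∀ v ∈ Box a' b₂, ¬ x ∈ LB (β₂ (d₂ v)) := by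
        intro x hx v hv hcon
        obtain ⟨z, hz, -, hxz⟩ := (G₂.below v hv x).2 hcon
        exact ((hlow z).1 hz).2 (le_trans hx (hxz i))
      refine ⟨D₁ ⊕ D₂, inferInstance, d, β, ?_, ?_, ?_, ?_⟩
      · intro x hx y hy hxy
        by_cases h1 : p i ≤ x i <;> by_cases h2 : p i ≤ y i
        · rw [hd1 x h1, hd1 y h2] at hxy
          exact G₁.color x ((hhigh x).2 ⟨hx, h1⟩) y ((hhigh y).2 ⟨hy, h2⟩) (Sum.inl_injective hxy)
        · rw [hd1 x h1, hd2 y h2] at hxy; cases hxy
        · rw [hd2 x h1, hd1 y h2] at hxy; cases hxy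
        · rw [hd2 x h1, hd2 y h2] at hxy
          have := G₂.color x ((hlow x).2 ⟨hx, h1⟩) y ((hlow y).2 ⟨hy, h2⟩) (Sum.inr_injective hxy)
          exact congrArg Prod.fst this
      · intro x hx w
        by_cases h1 : p i ≤ x i
        · rw [hd1 x h1]
          rw [show β (Sum.inl (d₁ x)) = β₁ (d₁ x) from rfl,
            ← G₁.below x ((hhigh x).2 ⟨hx, h1⟩) w]
          constructor
          · rintro ⟨z, hz, hdz, hwz⟩
            by_cases h2 : p i ≤ z i
            · rw [hd1 z h2] at hdz
              exact ⟨z, (hhigh z).2 ⟨hz, h2⟩, Sum.inl_injective hdz, hwz⟩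
            · rw [hd2 z h2] at hdz; cases hdz
          · rintro ⟨z, hz, hdz, hwz⟩
            have := (hhigh z).1 hz
            exact ⟨z, this.1, by rw [hd1 z this.2, hdz], hwz⟩
        · rw [hd2 x h1]
          rw [show β (Sum.inr (d₂ x)) = β₂ (d₂ x) from rfl,
            ← G₂.below x ((hlow x).2 ⟨hx, h1⟩) w]
          constructor
          · rintro ⟨z, hz, hdz, hwz⟩
            by_cases h2 : p i ≤ z i
            · rw [hd1 z h2] at hdz; cases hdz
            · rw [hd2 z h2] at hdz
              exact ⟨z, (hlow z).2 ⟨hz, h2⟩, Sum.inr_injective hdz, hwz⟩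
          · rintro ⟨z, hz, hdz, hwz⟩
            have := (hlow z).1 hz
            exact ⟨z, this.1, by rw [hd2 z this.2, hdz], hwz⟩
      · intro x hx y hy hxy v hv
        by_cases h1 : p i ≤ x i <;> by_cases h2 : p i ≤ y i
        · rw [hd1 x h1, hd1 y h2] at hxy
          by_cases h3 : p i ≤ v i
          · rw [hd1 v h3]
            exact G₁.lb x ((hhigh x).2 ⟨hx, h1⟩) y ((hhigh y).2 ⟨hy, h2⟩)
              (Sum.inl_injective hxy) v ((hhigh v).2 ⟨hv, h3⟩)
          · rw [hd2 v h3]
            have hv' := (hlow v).2 ⟨hv, h3⟩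
            exact ⟨fun h => absurd h (hno x h1 v hv'), fun h => absurd h (hno y h2 v hv')⟩
        · rw [hd1 x h1, hd2 y h2] at hxy; cases hxy
        · rw [hd2 x h1, hd1 y h2] at hxy; cases hxy
        · rw [hd2 x h1, hd2 y h2] at hxy
          have hxl := (hlow x).2 ⟨hx, h1⟩
          have hyl := (hlow y).2 ⟨hy, h2⟩
          by_cases h3 : p i ≤ v i
          · rw [hd1 v h3]
            have h4 := congrArg (fun e => e.2.1) (G₂.color x hxl y hyl (Sum.inr_injective hxy))
            have h5 := Set.ext_iff.1 h4 (d₁ v)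
            exact h5
          · rw [hd2 v h3]
            exact G₂.lb x hxl y hyl (Sum.inr_injective hxy) v ((hlow v).2 ⟨hv, h3⟩)
      · intro x hx y hy hxy v hv
        by_cases h1 : p i ≤ x i <;> by_cases h2 : p i ≤ y i
        · rw [hd1 x h1, hd1 y h2] at hxy
          by_cases h3 : p i ≤ v i
          · rw [hd1 v h3]
            exact G₁.lb' x ((hhigh x).2 ⟨hx, h1⟩) y ((hhigh y).2 ⟨hy, h2⟩)
              (Sum.inl_injective hxy) v ((hhigh v).2 ⟨hv, h3⟩)
          · rw [hd2 v h3]
            have hv' := (hlow v).2 ⟨hv, h3⟩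
            exact ⟨fun h => absurd (LB'_subset_LB _ h) (hno x h1 v hv'),
              fun h => absurd (LB'_subset_LB _ h) (hno y h2 v hv')⟩
        · rw [hd1 x h1, hd2 y h2] at hxy; cases hxy
        · rw [hd2 x h1, hd1 y h2] at hxy; cases hxy
        · rw [hd2 x h1, hd2 y h2] at hxy
          have hxl := (hlow x).2 ⟨hx, h1⟩
          have hyl := (hlow y).2 ⟨hy, h2⟩
          by_cases h3 : p i ≤ v i
          · rw [hd1 v h3]
            have h4 := congrArg (fun e => e.2.2) (G₂.color x hxl y hyl (Sum.inr_injective hxy))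
            have h5 := Set.ext_iff.1 h4 (d₁ v)
            exact h5
          · rw [hd2 v h3]
            exact G₂.lb' x hxl y hyl (Sum.inr_injective hxy) v ((hlow v).2 ⟨hv, h3⟩)
  exact inner _ a (le_refl _) ha rfl

/-- The non-strict product relation. -/
def leRel (x y : ∀ i, W i) : Prop := ∀ i, x i ≤ y i

/-- The strict product relation. -/
def ltRel (x y : ∀ i, W i) : Prop := ∀ i, x i < y i

theorem exists_tuned [Finite ι] [∀ i, WellFoundedLT (W i)] [∀ i, Nonempty (W i)]
    (C : Type) [Finite C] (c : (∀ i, W i) → C) :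
    ∃ (D : Type) (_ : Finite D) (d : (∀ i, W i) → D),
      (∀ x y, d x = d y → c x = c y) ∧
      (∀ x y, d x = d y → ∀ v, leRel x v → ∃ v', leRel y v' ∧ d v' = d v) ∧
      (∀ x y, d x = d y → ∀ v, ltRel x v → ∃ v', ltRel y v' ∧ d v' = d v) := by
  classical
  have hbot : ∀ i, ∃ m : W i, ∀ t, m ≤ t := by
    intro i
    obtain ⟨m, -, hm⟩ := WellFounded.has_min (IsWellFounded.wf : WellFounded
      ((· < ·) : W i → W i → Prop)) Set.univ Set.univ_nonempty
    exact ⟨m, fun t => not_lt.1 (hm t (Set.mem_univ _))⟩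
  choose a ha using hbot
  have haT : a ∈ LB (fun i => (⊤ : WithTop (W i))) := fun i => WithTop.coe_lt_top _
  obtain ⟨D, hD, d, β, G⟩ := exists_good (fun i => (⊤ : WithTop (W i))) a haT C c
  have hall : ∀ x, x ∈ Box a (fun i => (⊤ : WithTop (W i))) := fun x =>
    ⟨fun i => ha i _, fun i => WithTop.coe_lt_top _⟩
  refine ⟨D, hD, d, fun x y h => G.color x (hall x) y (hall y) h, ?_, ?_⟩
  · intro x y h v hxv
    have h1 : x ∈ LB (β (d v)) := (G.below v (hall v) x).1 ⟨v, hall v, rfl, hxv⟩
    have h2 := (G.lb x (hall x) y (hall y) h v (hall v)).1 h1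
    obtain ⟨z, -, hz, hyz⟩ := (G.below v (hall v) y).2 h2
    exact ⟨z, hyz, hz⟩
  · intro x y h v hxv
    have h0 : v ∈ LB (β (d v)) := (G.below v (hall v) v).1 ⟨v, hall v, rfl, le_refl _⟩
    have h1 : x ∈ LB' (β (d v)) := fun i => ⟨v i, hxv i, h0 i⟩
    have h2 := (G.lb' x (hall x) y (hall y) h v (hall v)).1 h1
    choose t ht1 ht2 using h2
    have h3 : t ∈ LB (β (d v)) := ht2
    obtain ⟨z, -, hz, htz⟩ := (G.below v (hall v) t).2 h3
    exact ⟨z, fun i => lt_of_lt_of_le (ht1 i) (htz i), hz⟩

end Boxes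

section Algebra

variable {V : Type u}

/-- The operator of the modal algebra of the frame `(V, R)`:
`◇X = {w | ∃ v ∈ X, R w v}`. -/
def dia (R : V → V → Prop) (X : Set V) : Set V := {w | ∃ v ∈ X, R w v}

/-- `S` is (the carrier of) a subalgebra of the modal algebra `Alg(V, R)`, the powerset
Boolean algebra of `V` with the operator `dia R`. -/
structure IsSubalgebra (R : V → V → Prop) (S : Set (Set V)) : Prop where
  empty_mem : ∅ ∈ S
  compl_mem : ∀ X ∈ S, Xᶜ ∈ S
  union_mem : ∀ X ∈ S, ∀ Y ∈ S, X ∪ Y ∈ S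
  dia_mem : ∀ X ∈ S, dia R X ∈ S

/-- The subalgebra of `Alg(V, R)` generated by `G`: the least one containing `G`. -/
def generated (R : V → V → Prop) (G : Set (Set V)) : Set (Set V) :=
  ⋂₀ {S | IsSubalgebra R S ∧ G ⊆ S}

/-- The modal algebra of `(V, R)` is locally finite: its finitely generated subalgebras
are finite. -/
def LocFiniteAlg (R : V → V → Prop) : Prop :=
  ∀ G : Set (Set V), G.Finite → (generated R G).Finite

/-- Unimodal formulas; the other connectives and `□` are the usual abbreviations. -/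
inductive Form : Type
  | var (n : ℕ) : Form
  | bot : Form
  | imp (φ ψ : Form) : Form
  | dia (φ : Form) : Form

/-- The set of points at which a formula is true under the valuation `θ`. -/
def Form.eval (R : V → V → Prop) (θ : ℕ → Set V) : Form → Set V
  | .var n => θ n
  | .bot => ∅
  | .imp φ ψ => (Form.eval R θ φ)ᶜ ∪ Form.eval R θ ψ
  | .dia φ => OrdProd.dia R (Form.eval R θ φ)

/-- The logic of the frame `(V, R)`: the formulas true at all points under all valuations. -/
def Log (R : V → V → Prop) : Set Form := {φ | ∀ θ : ℕ → Set V, φ.eval R θ = Set.univ}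

/-- The finite model property: each formula outside `L` is refuted in some finite
(nonempty) frame validating `L`. -/
def HasFMP (L : Set Form) : Prop :=
  ∀ φ, φ ∉ L → ∃ (F : Type) (_ : Finite F) (_ : Nonempty F) (S : F → F → Prop),
    L ⊆ Log S ∧ φ ∉ Log S

/-- Every finite coloring has a finite tuned refinement. -/
def HasTuned (R : V → V → Prop) : Prop :=
  ∀ (C : Type) [Finite C] (c : V → C), ∃ (D : Type) (_ : Finite D) (d : V → D),
    (∀ x y, d x = d y → c x = c y) ∧
      ∀ x y, d x = d y → ∀ v, R x v → ∃ v', R y v' ∧ d v' = d v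

theorem locFinite_of_hasTuned {R : V → V → Prop} (h : HasTuned R) : LocFiniteAlg R := by
  intro G hG
  haveI : Finite G := hG
  obtain ⟨n, ⟨e⟩⟩ := Finite.exists_equiv_fin G
  obtain ⟨D, hD, d, hc, ht⟩ := h (Fin n → Prop) (fun x k => x ∈ (e.symm k : Set V))
  have hcol : ∀ g ∈ G, ∀ x y, d x = d y → x ∈ g → y ∈ g := by
    intro g hg x y hxy hx
    have h1 := congrFun (hc x y hxy) (e ⟨g, hg⟩)
    simp only [Equiv.symm_apply_apply] at h1
    exact h1 ▸ hx
  let S : Set (Set V) := Set.range (fun A : Set D => d ⁻¹' A)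
  have hS : IsSubalgebra R S := by
    refine ⟨⟨∅, by simp⟩, ?_, ?_, ?_⟩
    · rintro _ ⟨A, rfl⟩
      exact ⟨Aᶜ, by simp⟩
    · rintro _ ⟨A, rfl⟩ _ ⟨B, rfl⟩
      exact ⟨A ∪ B, by simp⟩
    · rintro _ ⟨A, rfl⟩
      refine ⟨d '' (dia R (d ⁻¹' A)), ?_⟩
      ext y
      simp only [Set.mem_preimage]
      constructor
      · rintro ⟨x, ⟨v, hv, hxv⟩, hxy⟩
        obtain ⟨v', hyv', hv'⟩ := ht x y hxy v hxv
        refine ⟨v', ?_, hyv'⟩
        rw [Set.mem_preimage, hv']
        exact hv
      · intro hy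
        exact ⟨y, hy, rfl⟩
  have hGS : G ⊆ S := by
    intro g hg
    refine ⟨d '' g, ?_⟩
    ext y
    simp only [Set.mem_preimage]
    constructor
    · rintro ⟨x, hx, hxy⟩
      exact hcol g hg x y hxy hx
    · intro hy
      exact ⟨y, hy, rfl⟩
  refine (Set.finite_range (fun A : Set D => d ⁻¹' A)).subset ?_
  exact Set.sInter_subset_of_mem ⟨hS, hGS⟩

/-- All variables of a formula are below this bound. -/
def Form.bound : Form → ℕ
  | .var n => n + 1
  | .bot => 0
  | .imp φ ψ => max φ.bound ψ.bound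
  | .dia φ => φ.bound

theorem Form.eval_congr (R : V → V → Prop) (θ θ' : ℕ → Set V) :
    ∀ φ : Form, (∀ n < φ.bound, θ n = θ' n) → φ.eval R θ = φ.eval R θ'
  | .var n, h => h n (Nat.lt_succ_self n)
  | .bot, _ => rfl
  | .imp φ ψ, h => by
    simp only [Form.eval]
    rw [Form.eval_congr R θ θ' φ (fun n hn => h n (lt_of_lt_of_le hn (le_max_left _ _))),
      Form.eval_congr R θ θ' ψ (fun n hn => h n (lt_of_lt_of_le hn (le_max_right _ _)))]
  | .dia φ, h => by
    simp only [Form.eval]
    rw [Form.eval_congr R θ θ' φ h]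

theorem Form.eval_preimage {F : Type} (R : V → V → Prop) (S : F → F → Prop) (g : V → F)
    (h1 : ∀ x y, R x y → S (g x) (g y)) (h2 : ∀ x f, S (g x) f → ∃ y, R x y ∧ g y = f)
    (η : ℕ → Set F) :
    ∀ φ : Form, φ.eval R (fun n => g ⁻¹' (η n)) = g ⁻¹' (φ.eval S η)
  | .var _ => rfl
  | .bot => rfl
  | .imp φ ψ => by
    simp only [Form.eval]
    rw [Form.eval_preimage R S g h1 h2 η φ, Form.eval_preimage R S g h1 h2 η ψ]
    rfl
  | .dia φ => by
    simp only [Form.eval]
    rw [Form.eval_preimage R S g h1 h2 η φ]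
    ext x
    simp only [Set.mem_preimage]
    constructor
    · rintro ⟨v, hv, hxv⟩
      exact ⟨g v, hv, h1 x v hxv⟩
    · rintro ⟨f, hf, hxf⟩
      obtain ⟨y, hxy, rfl⟩ := h2 x f hxf
      exact ⟨y, hf, hxy⟩

theorem hasFMP_of_hasTuned [Nonempty V] {R : V → V → Prop} (h : HasTuned R) :
    HasFMP (Log R) := by
  intro φ hφ
  have hφ' : ∃ θ : ℕ → Set V, φ.eval R θ ≠ Set.univ := by
    by_contra hcon
    push Not at hcon
    exact hφ hcon
  obtain ⟨θ, hθ⟩ := hφ'
  obtain ⟨D, hD, d, hc, ht⟩ := h (Fin φ.bound → Prop) (fun x k => x ∈ θ k)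
  let F := Set.range d
  let g : V → F := fun x => ⟨d x, x, rfl⟩
  let S : F → F → Prop := fun e f => ∃ x y, g x = e ∧ g y = f ∧ R x y
  have hg : Function.Surjective g := by
    rintro ⟨_, x, rfl⟩
    exact ⟨x, rfl⟩
  have hgd : ∀ x y, g x = g y ↔ d x = d y := fun x y => Subtype.ext_iff
  have h1 : ∀ x y, R x y → S (g x) (g y) := fun x y hxy => ⟨x, y, rfl, rfl, hxy⟩
  have h2 : ∀ x f, S (g x) f → ∃ y, R x y ∧ g y = f := by
    rintro x f ⟨x', y', hx', hy', hR⟩
    obtain ⟨v', hxv', hv'⟩ := ht x' x ((hgd _ _).1 hx') y' hR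
    exact ⟨v', hxv', by rw [← hy']; exact (hgd _ _).2 hv'⟩
  refine ⟨F, inferInstance, ⟨g (Classical.arbitrary V)⟩, S, ?_, ?_⟩
  · intro ψ hψ η
    have h3 := hψ (fun n => g ⁻¹' (η n))
    rw [Form.eval_preimage R S g h1 h2 η ψ] at h3
    apply Set.eq_univ_of_forall
    intro f
    obtain ⟨x, rfl⟩ := hg f
    have : x ∈ g ⁻¹' (ψ.eval S η) := by rw [h3]; exact Set.mem_univ _
    exact this
  · intro hcon
    apply hθ
    have h3 : φ.eval R θ = φ.eval R (fun n => g ⁻¹' (g '' (θ n))) := by
      apply Form.eval_congr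
      intro n hn
      ext y
      simp only [Set.mem_preimage]
      constructor
      · intro hy
        exact ⟨y, hy, rfl⟩
      · rintro ⟨x, hx, hxy⟩
        have h4 := congrFun (hc x y ((hgd _ _).1 hxy)) ⟨n, hn⟩
        simp only at h4
        exact h4 ▸ hx
    rw [h3, Form.eval_preimage R S g h1 h2 _ φ, hcon (fun n => g '' (θ n))]
    rfl

end Algebra

end Pool.Agent.R359.OrdProd
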