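import Mathlib

/-!
# A relational Fraïssé structure without structurally sharply 2-transitive actions

One quaternary relation `T`, holding only on quadruples `(a,b,c,d)` with `a ≠ b` and
`c, d ∉ {a, b}` (`c = d` allowed), and for each such quadruple exactly one of
`T(a,b,c,d)`, `T(b,a,d,c)` holds.
-/

open FirstOrder FirstOrder.Language FirstOrder.Language.Structure

namespace Pool.Agent.R359

/-! ### General definitions -/

/-- Two `k`-tuples (of distinct elements of a structure in a relational language) have the same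
quantifier-free type: the coordinatewise map is an isomorphism of the induced substructures. -/
def SameQF (L : FirstOrder.Language.{0, 0}) {M : Type} [L.Structure M] {k : ℕ} (a b : Fin k → M) : Prop :=
  ∀ (n : ℕ) (R : L.Relations n) (s : Fin n → Fin k),
    RelMap R (fun i => a (s i)) ↔ RelMap R (fun i => b (s i))

/-- A right action of the group `G` on the structure `M` by automorphisms. -/
structure RightAct (L : FirstOrder.Language.{0, 0}) (M : Type) [L.Structure M] (G : Type*) [Group G] where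
  /-- the action map `m ↦ m · g` -/
  act : M → G → M
  act_one : ∀ m, act m 1 = m
  act_mul : ∀ m g h, act m (g * h) = act (act m g) h
  rel : ∀ (n : ℕ) (R : L.Relations n) (x : Fin n → M) (g : G),
    RelMap R (fun i => act (x i) g) ↔ RelMap R x
  func : ∀ (n : ℕ) (F : L.Functions n) (x : Fin n → M) (g : G),
    funMap F (fun i => act (x i) g) = act (funMap F x) g

/-- The action is structurally sharply `k`-transitive. -/
def RightAct.StructSharp {L : FirstOrder.Language.{0, 0}} {M : Type} [L.Structure M] {G : Type*} [Group G]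
    (A : RightAct L M G) (k : ℕ) : Prop :=
  ∀ a b : Fin k → M, Function.Injective a → Function.Injective b → SameQF L a b →
    ∃! g : G, ∀ i, A.act (a i) g = b i

/-- Strong amalgamation for the age of `M` (the class of finite structures embeddable in `M`). -/
def StrongAmalg (L : FirstOrder.Language.{0, 0}) (M : Type) [L.Structure M] : Prop :=
  ∀ (A B C : Type) [L.Structure A] [L.Structure B] [L.Structure C] [Finite A] [Finite B]
    [Finite C] (_ : Nonempty (A ↪[L] M)) (_ : Nonempty (B ↪[L] M)) (_ : Nonempty (C ↪[L] M))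
    (f : A ↪[L] B) (g : A ↪[L] C),
    ∃ (D : Type) (_ : L.Structure D) (_ : Finite D) (_ : Nonempty (D ↪[L] M))
      (f' : B ↪[L] D) (g' : C ↪[L] D),
      (∀ a, f' (f a) = g' (g a)) ∧ Set.range f' ∩ Set.range g' = Set.range (fun a => f' (f a))

namespace SharpTwo

/-- relation symbols: one quaternary symbol. -/
inductive Rel4 : ℕ → Type
  | T : Rel4 4

/-- The language with a single quaternary relation symbol. -/
def L4 : FirstOrder.Language.{0, 0} := ⟨fun _ => Empty, Rel4⟩

instance : L4.IsRelational := fun _ => inferInstanceAs (IsEmpty Empty)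

/-- nondegenerate quadruples -/
def ND {X : Type} (a b c d : X) : Prop := a ≠ b ∧ c ≠ a ∧ c ≠ b ∧ d ≠ a ∧ d ≠ b

theorem ND.swap {X : Type} {a b c d : X} (h : ND a b c d) : ND b a d c :=
  ⟨h.1.symm, h.2.2.2.2, h.2.2.2.1, h.2.2.1, h.2.1⟩

/-- the axioms for the quaternary relation -/
def Good {X : Type} (T : X → X → X → X → Prop) : Prop :=
  (∀ a b c d, T a b c d → ND a b c d) ∧ ∀ a b c d, ND a b c d → (T a b c d ↔ ¬ T b a d c)

/-- The quaternary relation of an `L4`-structure -/
def rel (M : Type) [L4.Structure M] (a b c d : M) : Prop :=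
  RelMap (L := L4) (M := M) (Rel4.T : L4.Relations 4) ![a, b, c, d]

/-- structure from relation -/
@[reducible] def mkStr {X : Type} (T : X → X → X → X → Prop) : L4.Structure X where
  funMap := fun f => nomatch f
  RelMap := fun R x => match R with
    | Rel4.T => T (x 0) (x 1) (x 2) (x 3)

theorem relMap_iff (M : Type) [L4.Structure M] (x : Fin 4 → M) :
    RelMap (L := L4) (Rel4.T : L4.Relations 4) x ↔ rel M (x 0) (x 1) (x 2) (x 3) := by
  have : x = ![x 0, x 1, x 2, x 3] := by
    ext i; fin_cases i <;> rfl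
  unfold rel
  rw [← this]

theorem rel_mkStr {X : Type} (T : X → X → X → X → Prop) (a b c d : X) :
    @rel X (mkStr T) a b c d ↔ T a b c d := Iff.rfl

/-- an injective relation preserving map gives an embedding -/
def mkEmb {X Y : Type} [L4.Structure X] [L4.Structure Y] (f : X → Y) (hf : Function.Injective f)
    (h : ∀ a b c d, rel X a b c d ↔ rel Y (f a) (f b) (f c) (f d)) : X ↪[L4] Y where
  toFun := f
  inj' := hf
  map_fun' := fun F => nomatch F
  map_rel' := by
    intro n R x
    cases R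
    rw [relMap_iff, relMap_iff]
    exact (h _ _ _ _).symm

theorem rel_emb {X Y : Type} [L4.Structure X] [L4.Structure Y] (f : X ↪[L4] Y) (a b c d : X) :
    rel Y (f a) (f b) (f c) (f d) ↔ rel X a b c d := by
  have := f.map_rel (Rel4.T : L4.Relations 4) ![a, b, c, d]
  rw [relMap_iff, relMap_iff] at this
  exact this

theorem good_of_emb {X Y : Type} [L4.Structure X] [L4.Structure Y] (f : X ↪[L4] Y)
    (h : Good (rel Y)) : Good (rel X) := by
  have hnd : ∀ a b c d : X, ND (f a) (f b) (f c) (f d) ↔ ND a b c d := by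
    intro a b c d
    unfold ND
    simp only [ne_eq, f.injective.eq_iff]
  constructor
  · intro a b c d hT
    rw [← rel_emb f] at hT
    exact (hnd a b c d).1 (h.1 _ _ _ _ hT)
  · intro a b c d hn
    rw [← rel_emb f, ← rel_emb f]
    exact h.2 _ _ _ _ ((hnd a b c d).2 hn)

/-! ### The countable structure -/

abbrev Code := Finset (Option ℕ × Option ℕ × Option ℕ × Option ℕ)

/-- a sequence of finite sets in which each finite set occurs infinitely often -/
noncomputable def code (n : ℕ) : Code :=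
  (Encodable.decode (α := Code) (Nat.unpair n).1).getD ∅

theorem exists_code (S : Code) (N : ℕ) : ∃ n, N ≤ n ∧ code n = S := by
  refine ⟨Nat.pair (Encodable.encode S) N, Nat.right_le_pair _ _, ?_⟩
  unfold code
  simp

/-- replace `n` by a marker -/
def mark (n x : ℕ) : Option ℕ := if x = n then none else some x

/-- the relation on `ℕ` -/
def T0 (a b c d : ℕ) : Prop :=
  ND a b c d ∧
    (if a < b then
      (mark (max (max a b) (max c d)) a, mark (max (max a b) (max c d)) b,
        mark (max (max a b) (max c d)) c, mark (max (max a b) (max c d)) d) ∈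
        code (max (max a b) (max c d))
    else
      ¬ (mark (max (max a b) (max c d)) b, mark (max (max a b) (max c d)) a,
        mark (max (max a b) (max c d)) d, mark (max (max a b) (max c d)) c) ∈
        code (max (max a b) (max c d)))

theorem good_T0 : Good T0 := by
  refine ⟨fun a b c d h => h.1, ?_⟩
  intro a b c d hn
  have hmax : max (max b a) (max d c) = max (max a b) (max c d) := by
    rw [max_comm b a, max_comm d c]
  unfold T0
  rw [hmax]
  have hn' := hn.swap
  rcases lt_or_gt_of_ne hn.1 with hab | hab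
  · rw [if_pos hab, if_neg (not_lt.2 hab.le)]
    tauto
  · rw [if_neg (not_lt.2 hab.le), if_pos hab]
    tauto

/-- The structure on `ℕ`. -/
noncomputable instance instN : L4.Structure ℕ := mkStr T0

theorem rel_N (a b c d : ℕ) : rel ℕ a b c d ↔ T0 a b c d := Iff.rfl

/-- One-point extension. -/
theorem extend {X : Type} [DecidableEq X] (T : X → X → X → X → Prop) (hT : Good T)
    (F : Finset X) (x : X) (hx : x ∉ F) (f : X → ℕ) (hf : Set.InjOn f F)
    (hrel : ∀ a ∈ F, ∀ b ∈ F, ∀ c ∈ F, ∀ d ∈ F, T a b c d ↔ T0 (f a) (f b) (f c) (f d)) :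
    ∃ f' : X → ℕ, (∀ a ∈ F, f' a = f a) ∧ Set.InjOn f' (insert x F : Finset X) ∧
      ∀ a ∈ insert x F, ∀ b ∈ insert x F, ∀ c ∈ insert x F, ∀ d ∈ insert x F,
        T a b c d ↔ T0 (f' a) (f' b) (f' c) (f' d) := by
  classical
  let m : X → Option ℕ := fun y => if y = x then none else some (f y)
  let E : Finset X := insert x F
  let S : Code := ((E ×ˢ E ×ˢ E ×ˢ E).filter (fun p => T p.1 p.2.1 p.2.2.1 p.2.2.2)).image
    (fun p => (m p.1, m p.2.1, m p.2.2.1, m p.2.2.2))
  obtain ⟨n, hn, hcode⟩ := exists_code S (F.sup f + 1)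
  have hlt : ∀ a ∈ F, f a < n := fun a ha =>
    lt_of_lt_of_le (Nat.lt_succ_of_le (Finset.le_sup (f := f) ha)) hn
  let f' : X → ℕ := fun y => if y = x then n else f y
  have hf'x : f' x = n := by simp [f']
  have hf'F : ∀ a ∈ F, f' a = f a := by
    intro a ha
    have : a ≠ x := fun h => hx (h ▸ ha)
    simp [f', this]
  have hf'le : ∀ a ∈ E, f' a ≤ n := by
    intro a ha
    rcases Finset.mem_insert.1 ha with h | h
    · rw [h, hf'x]
    · rw [hf'F a h]; exact (hlt a h).le
  have hinj : Set.InjOn f' (E : Set X) := by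
    intro a ha b hb hab
    rcases Finset.mem_insert.1 (Finset.mem_coe.1 ha) with h | h <;>
      rcases Finset.mem_insert.1 (Finset.mem_coe.1 hb) with h' | h'
    · rw [h, h']
    · rw [h, hf'x, hf'F b h'] at hab
      exact absurd hab (hlt b h').ne'
    · rw [h', hf'x, hf'F a h] at hab
      exact absurd hab (hlt a h).ne
    · rw [hf'F a h, hf'F b h'] at hab
      exact hf h h' hab
  have hmark : ∀ a ∈ E, mark n (f' a) = m a := by
    intro a ha
    rcases Finset.mem_insert.1 ha with h | h
    · subst h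
      simp [mark, hf'x, m]
    · have h1 : a ≠ x := fun h' => hx (h' ▸ h)
      have h2 : f' a ≠ n := by rw [hf'F a h]; exact (hlt a h).ne
      simp only [mark, h2, if_false, m, h1]
      rw [hf'F a h]
  have hminj : ∀ a ∈ E, ∀ b ∈ E, m a = m b → a = b := by
    intro a ha b hb h
    rw [← hmark a ha, ← hmark b hb] at h
    apply hinj ha hb
    unfold mark at h
    split_ifs at h with h1 h2
    · rw [h1, h2]
    · exact Option.some.inj h
  have hmemS : ∀ a ∈ E, ∀ b ∈ E, ∀ c ∈ E, ∀ d ∈ E,
      ((m a, m b, m c, m d) ∈ S ↔ T a b c d) := by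
    intro a ha b hb c hc d hd
    constructor
    · intro h
      obtain ⟨⟨a', b', c', d'⟩, hp, he⟩ := Finset.mem_image.1 h
      obtain ⟨hp1, hp2⟩ := Finset.mem_filter.1 hp
      simp only [Finset.mem_product] at hp1
      simp only [Prod.mk.injEq] at he
      have e1 := hminj _ hp1.1 _ ha he.1
      have e2 := hminj _ hp1.2.1 _ hb he.2.1
      have e3 := hminj _ hp1.2.2.1 _ hc he.2.2.1
      have e4 := hminj _ hp1.2.2.2 _ hd he.2.2.2
      subst e1 e2 e3 e4
      exact hp2
    · intro h
      exact Finset.mem_image.2 ⟨(a, b, c, d), Finset.mem_filter.2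
        ⟨by simp only [Finset.mem_product]; exact ⟨ha, hb, hc, hd⟩, h⟩, rfl⟩
  refine ⟨f', hf'F, hinj, ?_⟩
  intro a ha b hb c hc d hd
  by_cases hall : a ∈ F ∧ b ∈ F ∧ c ∈ F ∧ d ∈ F
  · rw [hf'F a hall.1, hf'F b hall.2.1, hf'F c hall.2.2.1, hf'F d hall.2.2.2]
    exact hrel a hall.1 b hall.2.1 c hall.2.2.1 d hall.2.2.2
  · have hmax : max (max (f' a) (f' b)) (max (f' c) (f' d)) = n := by
      have ha' := hf'le a ha
      have hb' := hf'le b hb
      have hc' := hf'le c hc
      have hd' := hf'le d hd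
      apply le_antisymm
      · simp only [max_le_iff]
        exact ⟨⟨ha', hb'⟩, hc', hd'⟩
      · by_cases h1 : a = x
        · rw [h1, hf'x]; simp
        by_cases h2 : b = x
        · rw [h2, hf'x]; simp
        by_cases h3 : c = x
        · rw [h3, hf'x]; simp
        by_cases h4 : d = x
        · rw [h4, hf'x]; simp
        exact absurd ⟨Finset.mem_of_mem_insert_of_ne ha h1, Finset.mem_of_mem_insert_of_ne hb h2,
          Finset.mem_of_mem_insert_of_ne hc h3, Finset.mem_of_mem_insert_of_ne hd h4⟩ hall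
    have hnd : ND (f' a) (f' b) (f' c) (f' d) ↔ ND a b c d := by
      unfold ND
      simp only [ne_eq, hinj.eq_iff (Finset.mem_coe.2 ha) (Finset.mem_coe.2 hb),
        hinj.eq_iff (Finset.mem_coe.2 hc) (Finset.mem_coe.2 ha),
        hinj.eq_iff (Finset.mem_coe.2 hc) (Finset.mem_coe.2 hb),
        hinj.eq_iff (Finset.mem_coe.2 hd) (Finset.mem_coe.2 ha),
        hinj.eq_iff (Finset.mem_coe.2 hd) (Finset.mem_coe.2 hb)]
    unfold T0
    rw [hmax, hcode, hmark a ha, hmark b hb, hmark c hc, hmark d hd, hmemS a ha b hb c hc d hd,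
      hmemS b hb a ha d hd c hc, hnd]
    constructor
    · intro h
      refine ⟨hT.1 _ _ _ _ h, ?_⟩
      split_ifs
      · exact h
      · exact (hT.2 _ _ _ _ (hT.1 _ _ _ _ h)).1 h
    · rintro ⟨h1, h2⟩
      split_ifs at h2
      · exact h2
      · exact (hT.2 _ _ _ _ h1).2 h2

/-- Every finite good structure embeds. -/
theorem exists_emb {X : Type} [Finite X] [L4.Structure X] (hX : Good (rel X)) :
    Nonempty (X ↪[L4] ℕ) := by
  classical
  have key : ∀ F : Finset X, ∃ f : X → ℕ, Set.InjOn f (F : Set X) ∧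
      ∀ a ∈ F, ∀ b ∈ F, ∀ c ∈ F, ∀ d ∈ F, rel X a b c d ↔ T0 (f a) (f b) (f c) (f d) := by
    intro F
    induction F using Finset.induction_on with
    | empty => exact ⟨fun _ => 0, by simp, by simp⟩
    | insert x F hx ih =>
      obtain ⟨f, hf, hr⟩ := ih
      obtain ⟨f', -, h2, h3⟩ := extend (rel X) hX F x hx f hf hr
      exact ⟨f', h2, h3⟩
  have := Fintype.ofFinite X
  obtain ⟨f, hf, hr⟩ := key Finset.univ
  refine ⟨mkEmb f (fun a b h => hf (by simp) (by simp) h) ?_⟩
  intro a b c d
  exact hr a (by simp) b (by simp) c (by simp) d (by simp)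

/-- Ultrahomogeneity. -/
theorem ultrahom : L4.IsUltrahomogeneous ℕ := by
  classical
  have hcg : Structure.CG L4 ℕ := Structure.cg_of_countable
  rw [isUltrahomogeneous_iff_IsExtensionPair hcg,
    isExtensionPair_iff_exists_embedding_closure_singleton_sup]
  intro S hS f m
  by_cases hm : m ∈ S
  · have hle : Substructure.closure L4 {m} ⊔ S ≤ S := by
      apply sup_le _ le_rfl
      rw [Substructure.closure_le]
      simpa using hm
    refine ⟨f.comp (Substructure.inclusion hle), ?_⟩
    ext y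
    simp
  · have hfin : (S : Set ℕ).Finite := by
      have := hS.finite
      exact Set.toFinite _
    let F : Finset ℕ := hfin.toFinset
    have hF : ∀ y, y ∈ F ↔ y ∈ S := fun y => by simp [F]
    let g : ℕ → ℕ := fun y => if h : y ∈ S then f ⟨y, h⟩ else 0
    have hg : ∀ y (h : y ∈ S), g y = f ⟨y, h⟩ := fun y h => by simp [g, h]
    have hginj : Set.InjOn g (F : Set ℕ) := by
      intro a ha b hb hab
      have ha' := (hF a).1 ha
      have hb' := (hF b).1 hb
      rw [hg a ha', hg b hb'] at hab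
      have := f.injective hab
      exact congrArg Subtype.val this
    have hgrel : ∀ a ∈ F, ∀ b ∈ F, ∀ c ∈ F, ∀ d ∈ F,
        T0 a b c d ↔ T0 (g a) (g b) (g c) (g d) := by
      intro a ha b hb c hc d hd
      have ha' := (hF a).1 ha
      have hb' := (hF b).1 hb
      have hc' := (hF c).1 hc
      have hd' := (hF d).1 hd
      rw [hg a ha', hg b hb', hg c hc', hg d hd']
      rw [← rel_N, ← rel_N, rel_emb f ⟨a, ha'⟩ ⟨b, hb'⟩ ⟨c, hc'⟩ ⟨d, hd'⟩]
      exact rel_emb (S.subtype) ⟨a, ha'⟩ ⟨b, hb'⟩ ⟨c, hc'⟩ ⟨d, hd'⟩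
    obtain ⟨g', h1, h2, h3⟩ := extend T0 good_T0 F m (fun h => hm ((hF m).1 h)) g hginj hgrel
    have hmem : ∀ y : (Substructure.closure L4 {m} ⊔ S : L4.Substructure ℕ), (y : ℕ) ∈ insert m F := by
      intro y
      have hle : Substructure.closure L4 {m} ⊔ S ≤ Substructure.closure L4 (insert m F : Finset ℕ) := by
        apply sup_le
        · apply Substructure.closure_mono
          simp
        · intro z hz
          apply Substructure.subset_closure
          simp [(hF z).2 hz]
      have := hle y.2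
      rwa [Substructure.mem_closure_iff_of_isRelational, Finset.mem_coe] at this
    refine ⟨mkEmb (fun y => g' y) ?_ ?_, ?_⟩
    · intro a b hab
      exact Subtype.ext (h2 (hmem a) (hmem b) hab)
    · intro a b c d
      rw [← rel_emb (Substructure.subtype _) a b c d]
      exact h3 _ (hmem a) _ (hmem b) _ (hmem c) _ (hmem d)
    · ext y
      have hy : (y : ℕ) ∈ F := (hF _).2 y.2
      change ((f y : ℕ)) = g' y
      rw [h1 _ hy, hg _ y.2]

/-- Strong amalgamation. -/
theorem strong : StrongAmalg L4 ℕ := by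
  classical
  intro A B C _ _ _ _ _ _ hA hB hC f g
  obtain ⟨eA⟩ := hA
  obtain ⟨eB⟩ := hB
  obtain ⟨eC⟩ := hC
  have gN : Good (rel ℕ) := good_T0
  have gA := good_of_emb eA gN
  have gB := good_of_emb eB gN
  have gC := good_of_emb eC gN
  let D : Type := B ⊕ {c : C // c ∉ Set.range g}
  let jB : B → D := Sum.inl
  let jC : C → D := fun c => if h : c ∈ Set.range g then Sum.inl (f h.choose) else Sum.inr ⟨c, h⟩
  have jCg : ∀ a, jC (g a) = jB (f a) := by
    intro a
    have h : g a ∈ Set.range g := ⟨a, rfl⟩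
    have : h.choose = a := g.injective h.choose_spec
    simp only [jC, dif_pos h, this, jB]
  have jCn : ∀ c (h : c ∉ Set.range g), jC c = Sum.inr ⟨c, h⟩ := by
    intro c h
    simp only [jC, dif_neg h]
  have jBinj : Function.Injective jB := Sum.inl_injective
  have jCinj : Function.Injective jC := by
    intro c c' h
    by_cases hc : c ∈ Set.range g <;> by_cases hc' : c' ∈ Set.range g
    · obtain ⟨a, rfl⟩ := hc
      obtain ⟨a', rfl⟩ := hc'
      rw [jCg, jCg] at h
      rw [f.injective (jBinj h)]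
    · obtain ⟨a, rfl⟩ := hc
      rw [jCg, jCn c' hc'] at h
      exact absurd h (by simp [jB])
    · obtain ⟨a', rfl⟩ := hc'
      rw [jCg, jCn c hc] at h
      exact absurd h (by simp [jB])
    · rw [jCn c hc, jCn c' hc'] at h
      exact congrArg Subtype.val (Sum.inr_injective h)
  have jBC : ∀ b c, jB b = jC c → ∃ a, b = f a ∧ c = g a := by
    intro b c h
    by_cases hc : c ∈ Set.range g
    · obtain ⟨a, rfl⟩ := hc
      rw [jCg] at h
      exact ⟨a, jBinj h, rfl⟩
    · rw [jCn c hc] at h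
      exact absurd h (by simp [jB])
  obtain ⟨e, he⟩ := exists_injective_nat D
  let AllB : D → D → D → D → Prop := fun p q r s =>
    ∃ a b c d, p = jB a ∧ q = jB b ∧ r = jB c ∧ s = jB d
  let AllC : D → D → D → D → Prop := fun p q r s =>
    ∃ a b c d, p = jC a ∧ q = jC b ∧ r = jC c ∧ s = jC d
  let TD : D → D → D → D → Prop := fun p q r s =>
    (∃ a b c d, p = jB a ∧ q = jB b ∧ r = jB c ∧ s = jB d ∧ rel B a b c d) ∨
    (∃ a b c d, p = jC a ∧ q = jC b ∧ r = jC c ∧ s = jC d ∧ rel C a b c d) ∨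
    (ND p q r s ∧ ¬ AllB p q r s ∧ ¬ AllC p q r s ∧ e p < e q)
  -- restriction to B
  have hTB : ∀ a b c d, TD (jB a) (jB b) (jB c) (jB d) ↔ rel B a b c d := by
    intro a b c d
    constructor
    · rintro (⟨a', b', c', d', h1, h2, h3, h4, h5⟩ | ⟨a', b', c', d', h1, h2, h3, h4, h5⟩ |
        ⟨-, h, -⟩)
      · rw [jBinj h1, jBinj h2, jBinj h3, jBinj h4]; exact h5
      · obtain ⟨x1, rfl, rfl⟩ := jBC _ _ h1
        obtain ⟨x2, rfl, rfl⟩ := jBC _ _ h2
        obtain ⟨x3, rfl, rfl⟩ := jBC _ _ h3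
        obtain ⟨x4, rfl, rfl⟩ := jBC _ _ h4
        rw [rel_emb] at h5 ⊢
        exact h5
      · exact absurd ⟨a, b, c, d, rfl, rfl, rfl, rfl⟩ h
    · intro h
      exact Or.inl ⟨a, b, c, d, rfl, rfl, rfl, rfl, h⟩
  have hTC : ∀ a b c d, TD (jC a) (jC b) (jC c) (jC d) ↔ rel C a b c d := by
    intro a b c d
    constructor
    · rintro (⟨a', b', c', d', h1, h2, h3, h4, h5⟩ | ⟨a', b', c', d', h1, h2, h3, h4, h5⟩ |
        ⟨-, -, h, -⟩)
      · obtain ⟨x1, rfl, rfl⟩ := jBC _ _ h1.symm
        obtain ⟨x2, rfl, rfl⟩ := jBC _ _ h2.symm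
        obtain ⟨x3, rfl, rfl⟩ := jBC _ _ h3.symm
        obtain ⟨x4, rfl, rfl⟩ := jBC _ _ h4.symm
        rw [rel_emb] at h5 ⊢
        exact h5
      · rw [jCinj h1, jCinj h2, jCinj h3, jCinj h4]; exact h5
      · exact absurd ⟨a, b, c, d, rfl, rfl, rfl, rfl⟩ h
    · intro h
      exact Or.inr (Or.inl ⟨a, b, c, d, rfl, rfl, rfl, rfl, h⟩)
  have ndB : ∀ a b c d, ND (jB a) (jB b) (jB c) (jB d) ↔ ND a b c d := by
    intro a b c d
    unfold ND
    simp only [ne_eq, jBinj.eq_iff]
  have ndC : ∀ a b c d, ND (jC a) (jC b) (jC c) (jC d) ↔ ND a b c d := by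
    intro a b c d
    unfold ND
    simp only [ne_eq, jCinj.eq_iff]
  have hgood : Good TD := by
    constructor
    · rintro p q r s (⟨a', b', c', d', rfl, rfl, rfl, rfl, h5⟩ |
        ⟨a', b', c', d', rfl, rfl, rfl, rfl, h5⟩ | h)
      · exact (ndB _ _ _ _).2 (gB.1 _ _ _ _ h5)
      · exact (ndC _ _ _ _).2 (gC.1 _ _ _ _ h5)
      · exact h.1
    · intro p q r s hnd
      by_cases hBB : AllB p q r s
      · obtain ⟨a, b, c, d, rfl, rfl, rfl, rfl⟩ := hBB
        rw [hTB, hTB]
        exact gB.2 _ _ _ _ ((ndB _ _ _ _).1 hnd)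
      by_cases hCC : AllC p q r s
      · obtain ⟨a, b, c, d, rfl, rfl, rfl, rfl⟩ := hCC
        rw [hTC, hTC]
        exact gC.2 _ _ _ _ ((ndC _ _ _ _).1 hnd)
      have hBB' : ¬ AllB q p s r := by
        rintro ⟨a, b, c, d, h1, h2, h3, h4⟩
        exact hBB ⟨b, a, d, c, h2, h1, h4, h3⟩
      have hCC' : ¬ AllC q p s r := by
        rintro ⟨a, b, c, d, h1, h2, h3, h4⟩
        exact hCC ⟨b, a, d, c, h2, h1, h4, h3⟩
      have h1 : TD p q r s ↔ e p < e q := by
        constructor
        · rintro (⟨a', b', c', d', h1, h2, h3, h4, h5⟩ | ⟨a', b', c', d', h1, h2, h3, h4, h5⟩ |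
            h)
          · exact absurd ⟨a', b', c', d', h1, h2, h3, h4⟩ hBB
          · exact absurd ⟨a', b', c', d', h1, h2, h3, h4⟩ hCC
          · exact h.2.2.2
        · intro h
          exact Or.inr (Or.inr ⟨hnd, hBB, hCC, h⟩)
      have h2 : TD q p s r ↔ e q < e p := by
        constructor
        · rintro (⟨a', b', c', d', h1, h2, h3, h4, h5⟩ | ⟨a', b', c', d', h1, h2, h3, h4, h5⟩ |
            h)
          · exact absurd ⟨a', b', c', d', h1, h2, h3, h4⟩ hBB'
          · exact absurd ⟨a', b', c', d', h1, h2, h3, h4⟩ hCC'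
          · exact h.2.2.2
        · intro h
          exact Or.inr (Or.inr ⟨hnd.swap, hBB', hCC', h⟩)
      rw [h1, h2]
      have : e p ≠ e q := fun h => hnd.1 (he h)
      omega
  let iD : L4.Structure D := mkStr TD
  have hrD : ∀ p q r s : D, rel D p q r s ↔ TD p q r s := fun p q r s => Iff.rfl
  have hgD : Good (rel D) := hgood
  refine ⟨D, iD, inferInstance, exists_emb hgD, mkEmb jB jBinj ?_, mkEmb jC jCinj ?_, ?_, ?_⟩
  · intro a b c d
    rw [hrD, hTB]
  · intro a b c d
    rw [hrD, hTC]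
  · intro a
    exact (jCg a).symm
  · ext p
    constructor
    · rintro ⟨⟨b, hb⟩, ⟨c, hc⟩⟩
      obtain ⟨a, rfl, rfl⟩ := jBC b c (hb.trans hc.symm)
      exact ⟨a, hb⟩
    · rintro ⟨a, ha⟩
      exact ⟨⟨f a, ha⟩, ⟨g a, (jCg a).trans ha⟩⟩

/-- No structurally sharply 2-transitive action. -/
theorem no_sharp {G : Type*} [Group G] (A : RightAct L4 ℕ G) : ¬ A.StructSharp 2 := by
  intro h
  have inj1 : Function.Injective (![0, 1] : Fin 2 → ℕ) := by decide
  have inj2 : Function.Injective (![1, 0] : Fin 2 → ℕ) := by decide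
  have hnd : ∀ s : Fin 4 → Fin 2, ¬ ND ((![0, 1] : Fin 2 → ℕ) (s 0)) ((![0, 1] : Fin 2 → ℕ) (s 1))
      ((![0, 1] : Fin 2 → ℕ) (s 2)) ((![0, 1] : Fin 2 → ℕ) (s 3)) := by
    intro s
    unfold ND
    generalize s 0 = i; generalize s 1 = j; generalize s 2 = k; generalize s 3 = l
    revert i j k l
    decide
  have hnd' : ∀ s : Fin 4 → Fin 2, ¬ ND ((![1, 0] : Fin 2 → ℕ) (s 0)) ((![1, 0] : Fin 2 → ℕ) (s 1))
      ((![1, 0] : Fin 2 → ℕ) (s 2)) ((![1, 0] : Fin 2 → ℕ) (s 3)) := by
    intro s
    unfold ND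
    generalize s 0 = i; generalize s 1 = j; generalize s 2 = k; generalize s 3 = l
    revert i j k l
    decide
  have hq : SameQF L4 (![0, 1] : Fin 2 → ℕ) (![1, 0] : Fin 2 → ℕ) := by
    intro n R s
    cases R
    rw [relMap_iff, relMap_iff, rel_N, rel_N]
    exact ⟨fun h => absurd h.1 (hnd s), fun h => absurd h.1 (hnd' s)⟩
  obtain ⟨g, hg, -⟩ := h _ _ inj1 inj2 hq
  have g0 : A.act 0 g = 1 := hg 0
  have g1 : A.act 1 g = 0 := hg 1
  have hgg : g * g = 1 := by
    obtain ⟨g', -, hu⟩ := h (![0, 1] : Fin 2 → ℕ) ![0, 1] inj1 inj1 (fun n R s => Iff.rfl)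
    rw [hu (g * g), hu 1]
    · intro i; exact A.act_one _
    · intro i
      rw [A.act_mul]
      fin_cases i
      · change A.act (A.act 0 g) g = 0
        rw [g0, g1]
      · change A.act (A.act 1 g) g = 1
        rw [g1, g0]
  have hinv : ∀ m, A.act (A.act m g) g = m := by
    intro m
    rw [← A.act_mul, hgg, A.act_one]
  have hinj : ∀ m m', A.act m g = A.act m' g → m = m' := by
    intro m m' h
    rw [← hinv m, ← hinv m', h]
  set c := A.act 2 g with hc
  have c0 : c ≠ 0 := by
    intro h'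
    have := hinj 2 1 (by rw [← hc, h', g1])
    omega
  have c1 : c ≠ 1 := by
    intro h'
    have := hinj 2 0 (by rw [← hc, h', g0])
    omega
  have hN : ND 0 1 2 c := ⟨by decide, by decide, by decide, c0, c1⟩
  have key := A.rel 4 (Rel4.T : L4.Relations 4) ![0, 1, 2, c] g
  rw [relMap_iff, relMap_iff, rel_N, rel_N] at key
  have e1 : (![0, 1, 2, c] : Fin 4 → ℕ) 0 = 0 := rfl
  have e2 : (![0, 1, 2, c] : Fin 4 → ℕ) 1 = 1 := rfl
  have e3 : (![0, 1, 2, c] : Fin 4 → ℕ) 2 = 2 := rfl
  have e4 : (![0, 1, 2, c] : Fin 4 → ℕ) 3 = c := rfl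
  rw [e1, e2, e3, e4, g0, g1, ← hc] at key
  have e5 : A.act c g = 2 := hinv 2
  rw [e5] at key
  have := good_T0.2 _ _ _ _ hN
  tauto

end SharpTwo

end Pool.Agent.R359
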